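import Pool.Agent.R632.VRC.Main

/-! Property (VRC) for amalgams of two groups. -/

set_option linter.unusedSectionVars false
set_option linter.dupNamespace false

namespace Pool.Agent.R632.VRC

universe u

variable {P Q H : Type u} [Group P] [Group Q] [Group H]

/-- the two factors as a family -/
def Fam (P Q : Type u) : Bool → Type u
  | true => P
  | false => Q

instance (b : Bool) : Group (Fam P Q b) :=
  match b with
  | true => inferInstanceAs (Group P)
  | false => inferInstanceAs (Group Q)

/-- the two inclusions as a family -/
def famHom (a : H →* P) (b : H →* Q) : ∀ i, H →* Fam P Q i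
  | true => a
  | false => b

/-- the two inclusions as a family -/
def famOut {Γ : Type u} [Group Γ] (a : P →* Γ) (b : Q →* Γ) : ∀ i, Fam P Q i →* Γ
  | true => a
  | false => b

theorem two {Γ : Type u} [Group Γ] (hP : VRC P) (hQ : VRC Q) (a : H →* P) (b : H →* Q)
    (ha : Function.Injective a) (hb : Function.Injective b) (c : H)
    (hc : (Subgroup.zpowers c).FiniteIndex) (i : P →* Γ) (j : Q →* Γ)
    (hij : ∀ h, i (a h) = j (b h))
    (lift : ∀ (W : Type u) [Group W] (f : P →* W) (g : Q →* W), (∀ h, f (a h) = g (b h)) →
      ∃ F : Γ →* W, (∀ p, F (i p) = f p) ∧ ∀ q, F (j q) = g q)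
    (gen : ∀ K : Subgroup Γ, (∀ p, i p ∈ K) → (∀ q, j q ∈ K) → ∀ x, x ∈ K) : VRC Γ := by
  have hΓ : Amalg (famHom a b) (famOut i j) := by
    constructor
    · intro k l h
      rcases k with _ | _ <;> rcases l with _ | _
      · rfl
      · exact (hij h).symm
      · exact hij h
      · rfl
    · intro W _ ρ hρ
      obtain ⟨F, h1, h2⟩ := lift W (ρ true) (ρ false) (fun h => hρ true false h)
      refine ⟨F, ?_⟩
      rintro (_ | _) g
      · exact h2 g
      · exact h1 g
    · intro x
      let K : Subgroup Γ :=
        { carrier := {x | ∃ L : List (Σ k, Fam P Q k),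
            x = (L.map (fun p => famOut i j p.1 p.2)).prod}
          mul_mem' := by
            rintro x y ⟨L, rfl⟩ ⟨L', rfl⟩
            exact ⟨L ++ L', by rw [List.map_append, List.prod_append]⟩
          one_mem' := ⟨[], rfl⟩
          inv_mem' := by
            rintro x ⟨L, rfl⟩
            induction L with
            | nil => exact ⟨[], by simp⟩
            | cons p L ih =>
              obtain ⟨L', hL'⟩ := ih
              refine ⟨L' ++ [⟨p.1, p.2⁻¹⟩], ?_⟩
              rw [List.map_append, List.prod_append, ← hL', List.map_cons, List.prod_cons,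
                mul_inv_rev, List.map_cons, List.map_nil, List.prod_singleton]
              simp only [map_inv] }
      exact gen K (fun p => ⟨[⟨true, p⟩], by
        rw [List.map_cons, List.map_nil, List.prod_singleton]
        rfl⟩) (fun q => ⟨[⟨false, q⟩], by
        rw [List.map_cons, List.map_nil, List.prod_singleton]
        rfl⟩) x
  refine main hΓ ?_ ?_ c hc
  · rintro (_ | _)
    · exact hQ
    · exact hP
  · rintro (_ | _)
    · exact hb
    · exact ha

end Pool.Agent.R632.VRC
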