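import Pool.Agent.R632.VRC.Fol

/-! Amenability and the Folner condition. The implication from the existence of an invariant mean
to the Folner condition is adapted from the file W361/CS/Fol.lean of the starting point. -/

set_option linter.unusedSectionVars false
set_option linter.dupNamespace false

namespace Pool.Agent.R632.VRC

open scoped Pointwise

universe u v

/-- amenability: a left invariant finitely additive probability measure on all subsets -/
def Amen (G : Type u) [Group G] : Prop :=
  ∃ m : Set G → ℝ, (∀ A, 0 ≤ m A) ∧ m Set.univ = 1 ∧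
    (∀ A B, Disjoint A B → m (A ∪ B) = m A + m B) ∧
    ∀ (g : G) (A : Set G), m ((fun x => g * x) '' A) = m A

lemma ncard_bad {G : Type u} [Group G] (F : Finset G) (s : G) :
    Set.ncard {x : G | x ∈ F ∧ s * x ∉ F} = (bad F s).card := by
  rw [← Set.ncard_coe_finset]
  congr 1
  ext x
  rw [Finset.mem_coe, mem_bad]
  rfl

lemma fol_iff {G : Type u} [Group G] : Fol G ↔
    ∀ (S : Finset G) (ε : ℝ), 0 < ε → ∃ F : Finset G, F.Nonempty ∧
      ∀ s ∈ S, (Set.ncard {x : G | x ∈ F ∧ s * x ∉ F} : ℝ) ≤ ε * F.card := by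
  simp only [ncard_bad]
  rfl

/-- finite additivity -/
theorem sum_mean {G : Type u} {ι : Type v} (m : Set G → ℝ) (h0 : m ∅ = 0)
    (hadd : ∀ A B, Disjoint A B → m (A ∪ B) = m A + m B) (s : Finset ι) (A : ι → Set G)
    (hd : ∀ i ∈ s, ∀ j ∈ s, i ≠ j → Disjoint (A i) (A j)) :
    m (⋃ i ∈ s, A i) = ∑ i ∈ s, m (A i) := by
  classical
  induction s using Finset.induction_on with
  | empty => simp [h0]
  | insert a s ha ih =>
    rw [Finset.sum_insert ha, Finset.set_biUnion_insert, hadd, ih]
    · intro i hi j hj hij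
      exact hd i (Finset.mem_insert_of_mem hi) j (Finset.mem_insert_of_mem hj) hij
    · rw [Set.disjoint_iUnion₂_right]
      intro i hi
      exact hd a (Finset.mem_insert_self a s) i (Finset.mem_insert_of_mem hi)
        (fun h => ha (h ▸ hi))

/-- amenable groups satisfy the Folner condition -/
theorem fol_of_amen {G : Type u} [Group G] (hG : Amen G) : Fol G := by
  classical
  obtain ⟨m, hm0, hm1, hadd, hinv⟩ := hG
  by_contra hF
  rw [fol_iff] at hF
  push Not at hF
  obtain ⟨S, ε, hε, hF⟩ := hF
  set S' : Finset G := insert 1 S with hS'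
  have hexp : ∀ F : Finset G, (1 + ε) * F.card ≤ ((S' * F).card : ℝ) := by
    intro F
    rcases F.eq_empty_or_nonempty with rfl | hne
    · simp
    obtain ⟨s, hs, hlt⟩ := hF F hne
    have h1 : F ⊆ S' * F := by
      intro x hx
      exact Finset.mem_mul.2 ⟨1, by simp [hS'], x, hx, one_mul x⟩
    have h2 : (F.filter (fun x => s * x ∉ F)).image (fun x => s * x) ⊆ (S' * F) \ F := by
      intro y hy
      obtain ⟨x, hx, rfl⟩ := Finset.mem_image.1 hy
      rw [Finset.mem_filter] at hx
      rw [Finset.mem_sdiff]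
      exact ⟨Finset.mem_mul.2 ⟨s, by simp [hS', hs], x, hx.1, rfl⟩, hx.2⟩
    have h3 : ((F.filter (fun x => s * x ∉ F)).image (fun x => s * x)).card
        = (F.filter (fun x => s * x ∉ F)).card :=
      Finset.card_image_of_injective _ (mul_right_injective s)
    have h4 : Set.ncard {x : G | x ∈ F ∧ s * x ∉ F} = (F.filter (fun x => s * x ∉ F)).card := by
      rw [← Set.ncard_coe_finset]
      congr 1
      ext x
      simp
    have h5 := Finset.card_le_card h2
    rw [h3, ← h4] at h5
    have h6 : (S' * F).card = ((S' * F) \ F).card + F.card := by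
      rw [Finset.card_sdiff_add_card_eq_card h1]
    have h7 : (Set.ncard {x : G | x ∈ F ∧ s * x ∉ F} : ℝ) ≤ (((S' * F) \ F).card : ℝ) := by
      exact_mod_cast h5
    have h8 : ((S' * F).card : ℝ) = (((S' * F) \ F).card : ℝ) + F.card := by
      exact_mod_cast h6
    rw [h8]
    nlinarith
  have hpow : ∀ (k : ℕ) (F : Finset G), (1 + ε) ^ k * F.card ≤ ((S' ^ k * F).card : ℝ) := by
    intro k
    induction k with
    | zero => intro F; simp
    | succ k ih =>
      intro F
      have h1 := hexp (S' ^ k * F)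
      have h2 := ih F
      rw [pow_succ', pow_succ', mul_assoc, mul_assoc]
      calc (1 + ε) * ((1 + ε) ^ k * F.card) ≤ (1 + ε) * ((S' ^ k * F).card : ℝ) :=
            mul_le_mul_of_nonneg_left h2 (by linarith)
        _ ≤ _ := h1
  obtain ⟨k, hk⟩ := pow_unbounded_of_one_lt 2 (show 1 < 1 + ε by linarith)
  set T : Finset G := S' ^ k with hT
  have hT2 : ∀ F : Finset G, 2 * F.card ≤ (T * F).card := by
    intro F
    have h1 := hpow k F
    have h2 : (2 : ℝ) * F.card ≤ ((T * F).card : ℝ) := by
      refine le_trans ?_ h1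
      exact mul_le_mul_of_nonneg_right hk.le (Nat.cast_nonneg _)
    exact_mod_cast h2
  -- Hall
  have hall := (Finset.all_card_le_biUnion_card_iff_exists_injective
    (fun q : G × Bool => T * {q.1})).1 (by
      intro s
      have h1 : s.biUnion (fun q : G × Bool => T * {q.1}) = T * s.image Prod.fst := by
        ext y
        simp only [Finset.mem_biUnion, Finset.mem_mul, Finset.mem_singleton, Finset.mem_image]
        constructor
        · rintro ⟨q, hq, t, ht, x, rfl, rfl⟩
          exact ⟨t, ht, q.1, ⟨q, hq, rfl⟩, rfl⟩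
        · rintro ⟨t, ht, x, ⟨q, hq, rfl⟩, rfl⟩
          exact ⟨q, hq, t, ht, q.1, rfl, rfl⟩
      rw [h1]
      have h2 : s ⊆ (s.image Prod.fst) ×ˢ (Finset.univ : Finset Bool) := by
        intro q hq
        exact Finset.mem_product.2 ⟨Finset.mem_image_of_mem _ hq, Finset.mem_univ _⟩
      have h3 := Finset.card_le_card h2
      rw [Finset.card_product] at h3
      have h4 : (Finset.univ : Finset Bool).card = 2 := by decide
      rw [h4] at h3
      calc s.card ≤ 2 * (s.image Prod.fst).card := by omega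
        _ ≤ _ := hT2 _)
  obtain ⟨f, hf, hfT⟩ := hall
  have hc : ∀ q : G × Bool, ∃ t ∈ T, f q = t * q.1 := by
    intro q
    obtain ⟨t, ht, x, hx, h⟩ := Finset.mem_mul.1 (hfT q)
    rw [Finset.mem_singleton] at hx
    exact ⟨t, ht, by rw [← h, hx]⟩
  choose c hcT hcf using hc
  have h0 : m ∅ = 0 := by
    have := hadd ∅ ∅ (by simp)
    simp at this
    exact this
  have hle1 : ∀ A, m A ≤ 1 := by
    intro A
    have h := hadd A Aᶜ disjoint_compl_right
    rw [Set.union_compl_self, hm1] at h
    have := hm0 Aᶜ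
    linarith
  -- the pieces
  set X : Bool × G → Set G := fun p => {x | c (x, p.1) = p.2} with hX
  have hsum1 : ∀ i : Bool, ∑ t ∈ T, m (X (i, t)) = 1 := by
    intro i
    rw [← sum_mean m h0 hadd T (fun t => X (i, t)), ← hm1]
    · congr 1
      rw [Set.eq_univ_iff_forall]
      intro x
      rw [Set.mem_iUnion₂]
      exact ⟨c (x, i), hcT _, rfl⟩
    · intro t _ t' _ htt
      rw [Set.disjoint_left]
      intro x hx hx'
      exact htt (hx.symm.trans hx')
  have hsum2 : ∑ p ∈ (Finset.univ : Finset Bool) ×ˢ T, m ((fun x => p.2 * x) '' X p) ≤ 1 := by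
    rw [← sum_mean m h0 hadd]
    · exact hle1 _
    · rintro ⟨i, t⟩ _ ⟨j, t'⟩ _ hne
      rw [Set.disjoint_left]
      rintro y ⟨x, hx, rfl⟩ ⟨x', hx', h⟩
      simp only [hX, Set.mem_ofPred_eq] at hx hx' h
      have h1 : f (x, i) = t * x := by rw [hcf, hx]
      have h2 : f (x', j) = t' * x' := by rw [hcf, hx']
      have h3 : f (x', j) = f (x, i) := by rw [h1, h2, h]
      have h4 := hf h3
      rw [Prod.mk.injEq] at h4
      apply hne
      rw [Prod.mk.injEq]
      refine ⟨h4.2.symm, ?_⟩
      rw [← hx, ← hx', h4.1, h4.2]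
  have hsum3 : ∑ p ∈ (Finset.univ : Finset Bool) ×ˢ T, m ((fun x => p.2 * x) '' X p) = 2 := by
    have : ∀ p ∈ (Finset.univ : Finset Bool) ×ˢ T, m ((fun x => p.2 * x) '' X p) = m (X p) :=
      fun p _ => hinv p.2 (X p)
    rw [Finset.sum_congr rfl this, Finset.sum_product]
    simp only [hsum1]
    simp
  linarith


/-- the number of elements of `F` in `A` -/
noncomputable def cnt {G : Type u} (F : Finset G) (A : Set G) : ℕ := (A ∩ (F : Set G)).ncard

lemma cnt_le {G : Type u} (F : Finset G) (A : Set G) : cnt F A ≤ F.card := by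
  unfold cnt
  rw [← Set.ncard_coe_finset]
  exact Set.ncard_le_ncard Set.inter_subset_right F.finite_toSet

lemma cnt_image {G : Type u} [Group G] (F : Finset G) (A : Set G) (g : G) :
    cnt F ((fun x => g * x) '' A) ≤ cnt F A + (bad F g⁻¹).card := by
  have h1 : ((fun x => g * x) '' A) ∩ (F : Set G) ⊆
      (fun x => g * x) '' (A ∩ (F : Set G)) ∪ (bad F g⁻¹ : Set G) := by
    rintro _ ⟨⟨y, hy, rfl⟩, hF⟩
    by_cases h : y ∈ F
    · exact Or.inl ⟨y, ⟨hy, h⟩, rfl⟩
    · refine Or.inr (Finset.mem_coe.mpr (mem_bad.mpr ⟨hF, ?_⟩))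
      show g⁻¹ * (g * y) ∉ F
      rwa [inv_mul_cancel_left]
  have hfin1 : (A ∩ (F : Set G)).Finite := F.finite_toSet.inter_of_right A
  have h2 := Set.ncard_le_ncard h1 ((hfin1.image _).union (bad F g⁻¹).finite_toSet)
  refine h2.trans ((Set.ncard_union_le _ _).trans ?_)
  rw [Set.ncard_coe_finset]
  exact Nat.add_le_add_right (Set.ncard_image_le hfin1) _

/-- groups with the Folner condition are amenable -/
theorem amen_of_fol {G : Type u} [Group G] (hG : Fol G) : Amen G := by
  classical
  have hF : ∀ i : Finset G × ℕ, ∃ F : Finset G, F.Nonempty ∧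
      ∀ s ∈ i.1, ((bad F s).card : ℝ) ≤ (1 / ((i.2 : ℝ) + 1)) * F.card := fun i =>
    hG i.1 (1 / ((i.2 : ℝ) + 1)) (by positivity)
  choose F hFne hF using hF
  have hpos : ∀ i, (0 : ℝ) < (F i).card := fun i => by exact_mod_cast (hFne i).card_pos
  let a : Set G → Finset G × ℕ → ℝ := fun A i => (cnt (F i) A : ℝ) / (F i).card
  let U : Ultrafilter (Finset G × ℕ) := Ultrafilter.of Filter.atTop
  have hU : (U : Filter (Finset G × ℕ)) ≤ Filter.atTop := Ultrafilter.of_le _
  have ha0 : ∀ A i, 0 ≤ a A i := fun A i => by positivity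
  have ha1 : ∀ A i, a A i ≤ 1 := by
    intro A i
    show (cnt (F i) A : ℝ) / (F i).card ≤ 1
    rw [div_le_one (hpos i)]
    exact_mod_cast cnt_le (F i) A
  have hlim : ∀ A, ∃ L : ℝ, Filter.Tendsto (a A) U (nhds L) := by
    intro A
    obtain ⟨L, _, hL⟩ := isCompact_Icc.ultrafilter_le_nhds' (U.map (a A))
      (Filter.mem_map.mpr (Filter.univ_mem' fun i => (⟨ha0 A i, ha1 A i⟩ : a A i ∈ Set.Icc (0 : ℝ) 1)))
    exact ⟨L, hL⟩
  choose m hm using hlim
  refine ⟨m, fun A => ge_of_tendsto' (hm A) (ha0 A), ?_, fun A B hAB => ?_, fun g A => ?_⟩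
  · have h1 : a Set.univ = fun _ => 1 := by
      funext i
      show (cnt (F i) Set.univ : ℝ) / (F i).card = 1
      have h2 : cnt (F i) Set.univ = (F i).card := by
        unfold cnt
        rw [Set.univ_inter, Set.ncard_coe_finset]
      rw [h2, div_self (hpos i).ne']
    have h2 := hm Set.univ
    rw [h1] at h2
    exact tendsto_nhds_unique h2 tendsto_const_nhds
  · have h1 : a (A ∪ B) = fun i => a A i + a B i := by
      funext i
      show (cnt (F i) (A ∪ B) : ℝ) / (F i).card = (cnt (F i) A : ℝ) / (F i).card +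
        (cnt (F i) B : ℝ) / (F i).card
      have h2 : cnt (F i) (A ∪ B) = cnt (F i) A + cnt (F i) B := by
        unfold cnt
        rw [Set.union_inter_distrib_right]
        exact Set.ncard_union_eq (hAB.mono Set.inter_subset_left Set.inter_subset_left)
          ((F i).finite_toSet.inter_of_right A) ((F i).finite_toSet.inter_of_right B)
      rw [h2, ← add_div]
      push_cast
      rfl
    have h2 := hm (A ∪ B)
    rw [h1] at h2
    exact tendsto_nhds_unique h2 ((hm A).add (hm B))
  · have h1 : Filter.Tendsto (fun i => a ((fun x => g * x) '' A) i - a A i) U (nhds 0) := by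
      have h2 : Filter.Tendsto (fun i : Finset G × ℕ => 1 / ((i.2 : ℝ) + 1)) U (nhds 0) := by
        have h3 : Filter.Tendsto (fun i : Finset G × ℕ => i.2) Filter.atTop Filter.atTop := by
          rw [Filter.tendsto_atTop]
          intro b
          filter_upwards [Filter.eventually_ge_atTop ((∅, b) : Finset G × ℕ)] with i hi
          exact hi.2
        exact ((tendsto_one_div_add_atTop_nhds_zero_nat (𝕜 := ℝ)).comp h3).mono_left hU
      refine squeeze_zero_norm' ?_ h2
      have h3 : ∀ᶠ i in (Filter.atTop : Filter (Finset G × ℕ)), (({g, g⁻¹} : Finset G), 0) ≤ i :=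
        Filter.eventually_ge_atTop _
      filter_upwards [h3.filter_mono hU] with i hi
      have hg : g ∈ i.1 := hi.1 (by simp)
      have hg' : g⁻¹ ∈ i.1 := hi.1 (by simp)
      have h4 := hF i g hg
      have h5 := hF i g⁻¹ hg'
      have h6 : (cnt (F i) ((fun x => g * x) '' A) : ℝ) ≤ cnt (F i) A + (bad (F i) g⁻¹).card := by
        exact_mod_cast cnt_image (F i) A g
      have h7 : (cnt (F i) A : ℝ) ≤ cnt (F i) ((fun x => g * x) '' A) + (bad (F i) g).card := by
        have h8 := cnt_image (F i) ((fun x => g * x) '' A) g⁻¹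
        rw [inv_inv, Set.image_image] at h8
        simp only [inv_mul_cancel_left, Set.image_id'] at h8
        exact_mod_cast h8
      rw [Real.norm_eq_abs]
      show |(cnt (F i) ((fun x => g * x) '' A) : ℝ) / (F i).card - (cnt (F i) A : ℝ) /
        (F i).card| ≤ _
      rw [← sub_div, abs_div, abs_of_pos (hpos i), div_le_iff₀ (hpos i), abs_le]
      constructor <;> linarith
    have h2 := (hm ((fun x => g * x) '' A)).sub (hm A)
    have h3 := tendsto_nhds_unique h2 h1
    linarith

end Pool.Agent.R632.VRC
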