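import Mathlib

/-! Virtual retractions onto cyclic subgroups: basic criteria. -/

set_option linter.unusedSectionVars false
set_option linter.dupNamespace false

namespace Pool.Agent.R632.VRC

/-- `H` is a virtual retract of `G`. -/
def IsVirtRetract {G : Type*} [Group G] (H : Subgroup G) : Prop :=
  ∃ K : Subgroup G, K.FiniteIndex ∧ H ≤ K ∧
    ∃ r : K →* G, (∀ k, r k ∈ H) ∧ ∀ k : K, (k : G) ∈ H → r k = k

/-- property (VRC): every cyclic subgroup is a virtual retract -/
def VRC (G : Type*) [Group G] : Prop := ∀ g : G, IsVirtRetract (Subgroup.zpowers g)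

/-! ### the wreath product with the integers -/

/-- the wreath product of `ℤ` with the permutations of `Ω` -/
@[ext] structure Wr (Ω : Type*) where
  /-- the permutation -/
  s : Equiv.Perm Ω
  /-- the translations -/
  t : Ω → ℤ

namespace Wr

variable {Ω : Type*}

instance : Mul (Wr Ω) := ⟨fun x y => ⟨x.s * y.s, fun ω => x.t (y.s ω) + y.t ω⟩⟩
instance : One (Wr Ω) := ⟨⟨1, fun _ => 0⟩⟩
instance : Inv (Wr Ω) := ⟨fun x => ⟨x.s⁻¹, fun ω => - x.t (x.s⁻¹ ω)⟩⟩

lemma mul_s (x y : Wr Ω) : (x * y).s = x.s * y.s := rfl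
lemma mul_t (x y : Wr Ω) (ω : Ω) : (x * y).t ω = x.t (y.s ω) + y.t ω := rfl
lemma one_s : (1 : Wr Ω).s = 1 := rfl
lemma one_t (ω : Ω) : (1 : Wr Ω).t ω = 0 := rfl
lemma inv_s (x : Wr Ω) : (x⁻¹).s = x.s⁻¹ := rfl
lemma inv_t (x : Wr Ω) (ω : Ω) : (x⁻¹).t ω = - x.t (x.s⁻¹ ω) := rfl

instance : Group (Wr Ω) where
  mul_assoc x y z := Wr.ext (mul_assoc _ _ _) (by
    funext ω
    simp only [mul_t, mul_s, Equiv.Perm.mul_apply, add_assoc])
  one_mul x := Wr.ext (one_mul _) (by
    funext ω
    simp only [mul_t, one_t, zero_add])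
  mul_one x := Wr.ext (mul_one _) (by
    funext ω
    simp only [mul_t, one_t, one_s, Equiv.Perm.one_apply, add_zero])
  inv_mul_cancel x := Wr.ext (inv_mul_cancel _) (by
    funext ω
    simp only [mul_t, inv_t, one_t]
    have : x.s⁻¹ (x.s ω) = ω := x.s.symm_apply_apply ω
    rw [this, neg_add_cancel])

/-- the permutation part -/
def perm : Wr Ω →* Equiv.Perm Ω where
  toFun := s
  map_one' := rfl
  map_mul' _ _ := rfl

end Wr

/-- periodic functions have the same sum over any period -/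
lemma sum_shift {m : ℕ} {q : ℤ → ℤ} (hq : ∀ j, q (j + m) = q j) (s : ℤ) :
    ∑ j ∈ Finset.range m, q (j + s) = ∑ j ∈ Finset.range m, q j := by
  have step : ∀ s : ℤ, ∑ j ∈ Finset.range m, q (j + (s + 1)) = ∑ j ∈ Finset.range m, q (j + s) := by
    intro s
    have h1 := Finset.sum_range_succ' (fun j : ℕ => q (j + s)) m
    have h2 := Finset.sum_range_succ (fun j : ℕ => q (j + s)) m
    have h3 : ∀ j : ℕ, q (((j + 1 : ℕ) : ℤ) + s) = q (j + (s + 1)) := by
      intro j
      congr 1
      push_cast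
      ring
    have h4 : q ((m : ℤ) + s) = q (((0 : ℕ) : ℤ) + s) := by
      rw [add_comm, hq, Nat.cast_zero, zero_add]
    simp only [h3] at h1
    linarith
  induction s using Int.induction_on with
  | zero => simp
  | succ k ih => rw [step, ih]
  | pred k ih =>
    have := step (-(k : ℤ) - 1)
    rw [sub_add_cancel] at this
    rw [← this, ih]

section cocycle

variable {G : Type*} [Group G] {Ω : Type*} [Finite Ω] (ρ : G →* Wr Ω)

lemma rho_s (x y : G) (ω : Ω) : (ρ (x * y)).s ω = (ρ x).s ((ρ y).s ω) := by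
  rw [map_mul]
  rfl

lemma rho_t (x y : G) (ω : Ω) : (ρ (x * y)).t ω = (ρ x).t ((ρ y).s ω) + (ρ y).t ω := by
  rw [map_mul]
  rfl

/-- The criterion: if a power of `g` fixes a point and translates there, then `⟨g⟩` is a virtual
retract. -/
theorem virtRetract_of_hom (g : G) (ω : Ω) (m : ℕ) (hfix : (ρ (g ^ m)).s ω = ω)
    (hτ : (ρ (g ^ m)).t ω ≠ 0) : IsVirtRetract (Subgroup.zpowers g) := by
  set τ : ℤ := (ρ (g ^ m)).t ω with hτdef
  let o : ℤ → Ω := fun j => (ρ (g ^ j)).s ω
  have ho : ∀ i j : ℤ, (ρ (g ^ i)).s (o j) = o (i + j) := by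
    intro i j
    show _ = (ρ (g ^ (i + j))).s ω
    rw [zpow_add, rho_s]
  have hper : ∀ j : ℤ, o (j + m) = o j := by
    intro j
    show (ρ (g ^ (j + (m : ℤ)))).s ω = _
    rw [zpow_add, rho_s, zpow_natCast, hfix]
  -- the subgroup
  let K2 : Subgroup G :=
    { carrier := {x | ∃ s : ℤ, ∀ j : ℤ, (ρ x).s (o j) = o (j + s)}
      mul_mem' := by
        rintro x y ⟨s, hs⟩ ⟨s', hs'⟩
        refine ⟨s' + s, fun j => ?_⟩
        rw [rho_s, hs', hs, add_assoc]
      one_mem' := ⟨0, fun j => by rw [map_one, add_zero]; rfl⟩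
      inv_mem' := by
        rintro x ⟨s, hs⟩
        refine ⟨-s, fun j => ?_⟩
        have h1 := hs (j + -s)
        rw [neg_add_cancel_right] at h1
        rw [← h1, ← rho_s, inv_mul_cancel, map_one]
        rfl }
  let F : G → ℤ := fun x => ∑ j ∈ Finset.range m, (ρ x).t (o j)
  have hF : ∀ x : G, ∀ y ∈ K2, F (x * y) = F x + F y := by
    rintro x y ⟨s, hs⟩
    show ∑ j ∈ Finset.range m, (ρ (x * y)).t (o j) = _
    simp only [rho_t, hs]
    rw [Finset.sum_add_distrib]
    congr 1
    exact sum_shift (q := fun j => (ρ x).t (o j)) (fun j => by rw [hper]) s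
  have hgK : g ∈ K2 := ⟨1, fun j => by
    have := ho 1 j
    rw [zpow_one] at this
    rw [this, add_comm]⟩
  have hFg : F g = τ := by
    have h1 : ∀ n : ℕ, (ρ (g ^ n)).t ω = ∑ j ∈ Finset.range n, (ρ g).t (o j) := by
      intro n
      induction n with
      | zero => rw [pow_zero, map_one, Finset.sum_range_zero]; rfl
      | succ n ih =>
        rw [pow_succ', rho_t, ih, Finset.sum_range_succ, add_comm]
        congr 2
        show _ = (ρ (g ^ (n : ℤ))).s ω
        rw [zpow_natCast]
    exact (h1 m).symm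
  have hF1 : F 1 = 0 := by
    have := hF 1 1 K2.one_mem
    rw [mul_one] at this
    exact left_eq_add.mp this
  have hFz : ∀ n : ℤ, F (g ^ n) = n * τ := by
    intro n
    induction n using Int.induction_on with
    | zero => rw [zpow_zero, hF1, zero_mul]
    | succ k ih => rw [zpow_add_one, hF _ _ hgK, ih, hFg]; ring
    | pred k ih =>
      have h1 := hF (g ^ (-(k : ℤ) - 1)) g hgK
      rw [← zpow_add_one, sub_add_cancel, ih, hFg] at h1
      linarith
  -- the finite index subgroup
  let K : Subgroup G :=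
    { carrier := {x | x ∈ K2 ∧ τ ∣ F x}
      mul_mem' := by
        rintro x y ⟨hx, hx'⟩ ⟨hy, hy'⟩
        refine ⟨K2.mul_mem hx hy, ?_⟩
        rw [hF x y hy]
        exact dvd_add hx' hy'
      one_mem' := ⟨K2.one_mem, by rw [hF1]; exact dvd_zero _⟩
      inv_mem' := by
        rintro x ⟨hx, hx'⟩
        refine ⟨K2.inv_mem hx, ?_⟩
        have h1 := hF x⁻¹ x hx
        rw [inv_mul_cancel, hF1] at h1
        have h2 : F x⁻¹ = - F x := by linarith
        rw [h2]
        exact (dvd_neg).mpr hx' }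
  have hKfi : K.FiniteIndex := by
    have hP : ((Wr.perm.comp ρ).ker).FiniteIndex := inferInstance
    have h0 : (Wr.perm.comp ρ).ker ≤ K2 := by
      intro x hx
      refine ⟨0, fun j => ?_⟩
      rw [add_zero]
      have h1 : (ρ x).s = 1 := hx
      rw [h1]
      rfl
    -- a homomorphism from the kernel to the finite group `ZMod τ`
    let N := (Wr.perm.comp ρ).ker
    let θ : N →* Multiplicative (ZMod τ.natAbs) :=
      { toFun := fun x => Multiplicative.ofAdd ((F x : ℤ) : ZMod τ.natAbs)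
        map_one' := by
          show Multiplicative.ofAdd ((F 1 : ℤ) : ZMod τ.natAbs) = 1
          rw [hF1]
          simp
        map_mul' := fun x y => by
          show Multiplicative.ofAdd ((F (x * y) : ℤ) : ZMod τ.natAbs) = _
          rw [hF x y (h0 y.2)]
          push_cast
          rfl }
    have hne : NeZero τ.natAbs := ⟨Int.natAbs_ne_zero.mpr hτ⟩
    have hf : Finite (Multiplicative (ZMod τ.natAbs)) := inferInstanceAs (Finite (ZMod τ.natAbs))
    have h2 : (θ.ker).FiniteIndex := inferInstance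
    have h3 : (θ.ker.map N.subtype).FiniteIndex := by
      constructor
      rw [Subgroup.index_map_subtype]
      exact mul_ne_zero h2.index_ne_zero hP.index_ne_zero
    refine Subgroup.finiteIndex_of_le (H := θ.ker.map N.subtype) ?_
    rintro _ ⟨x, hx, rfl⟩
    refine ⟨h0 x.2, ?_⟩
    have h4 : ((F x : ℤ) : ZMod τ.natAbs) = 0 := hx
    rw [ZMod.intCast_zmod_eq_zero_iff_dvd, Int.natAbs_dvd] at h4
    exact h4
  refine ⟨K, hKfi, ?_, ?_⟩
  · rw [Subgroup.zpowers_le]
    exact ⟨hgK, by rw [hFg]⟩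
  · refine ⟨MonoidHom.mk' (fun k => g ^ (F k / τ)) ?_, fun k => ⟨_, rfl⟩, ?_⟩
    · rintro ⟨x, hx⟩ ⟨y, hy⟩
      show g ^ (F (x * y) / τ) = _
      rw [hF x y hy.1, Int.add_ediv_of_dvd_left hx.2, zpow_add]
    · rintro ⟨x, hx⟩ ⟨n, hn⟩
      show g ^ (F x / τ) = x
      have hn' : g ^ n = x := hn
      rw [← hn', hFz, Int.mul_ediv_cancel _ hτ]

end cocycle

/-- The criterion for elements of finite order. -/
theorem virtRetract_of_normal {G : Type*} [Group G] (g : G) (N : Subgroup G) [N.Normal]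
    [hN : N.FiniteIndex] (h : ∀ n : ℤ, g ^ n ∈ N → g ^ n = 1) :
    IsVirtRetract (Subgroup.zpowers g) := by
  let j : Subgroup.zpowers g →* G ⧸ N := (QuotientGroup.mk' N).comp (Subgroup.zpowers g).subtype
  have hj : Function.Injective j := by
    rw [injective_iff_map_eq_one]
    rintro ⟨_, n, rfl⟩ hx
    have h1 : g ^ n ∈ N := (QuotientGroup.eq_one_iff _).mp hx
    apply Subtype.ext
    exact h n h1
  let K := j.range.comap (QuotientGroup.mk' N)
  refine ⟨K, ?_, ?_, ?_⟩
  · refine Subgroup.finiteIndex_of_le (H := N) ?_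
    intro x hx
    refine ⟨1, ?_⟩
    rw [map_one]
    exact ((QuotientGroup.eq_one_iff x).mpr hx).symm
  · intro x hx
    exact ⟨⟨x, hx⟩, rfl⟩
  · let π : K →* j.range := ((QuotientGroup.mk' N).comp K.subtype).codRestrict _ (fun k => k.2)
    refine ⟨(Subgroup.zpowers g).subtype.comp
      ((MonoidHom.ofInjective hj).symm.toMonoidHom.comp π), fun k => ?_, fun k hk => ?_⟩
    · exact ((MonoidHom.ofInjective hj).symm (π k)).2
    · have h1 : π k = (MonoidHom.ofInjective hj) ⟨k, hk⟩ := Subtype.ext rfl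
      show (((MonoidHom.ofInjective hj).symm (π k) : Subgroup.zpowers g) : G) = k
      rw [h1, MulEquiv.symm_apply_apply]

/-- virtual retracts are preserved by automorphisms -/
lemma IsVirtRetract.map {G G' : Type*} [Group G] [Group G'] (e : G ≃* G') {H : Subgroup G}
    (h : IsVirtRetract H) : IsVirtRetract (H.map e.toMonoidHom) := by
  obtain ⟨K, hK, hHK, r, hr, hr'⟩ := h
  refine ⟨K.map e.toMonoidHom, ?_, Subgroup.map_mono hHK, ?_⟩
  · constructor
    have h1 : (Subgroup.map e.toMonoidHom K).index = K.index := Subgroup.index_map_equiv K e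
    rw [h1]
    exact hK.index_ne_zero
  · refine ⟨e.toMonoidHom.comp (r.comp (K.equivMapOfInjective e.toMonoidHom
      e.injective).symm.toMonoidHom), fun k => ⟨_, hr _, rfl⟩, ?_⟩
    rintro ⟨_, k, hk, rfl⟩ hk'
    have h1 : (K.equivMapOfInjective e.toMonoidHom e.injective).symm
        ⟨e.toMonoidHom k, ⟨k, hk, rfl⟩⟩ = ⟨k, hk⟩ := by
      rw [MulEquiv.symm_apply_eq]
      rfl
    show e (r ((K.equivMapOfInjective e.toMonoidHom e.injective).symm
        ⟨e.toMonoidHom k, ⟨k, hk, rfl⟩⟩)) = e k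
    rw [h1]
    obtain ⟨x, hx, hx'⟩ := hk'
    have h2 : x = k := e.injective hx'
    subst h2
    rw [hr' ⟨x, hk⟩ hx]

lemma virtRetract_conj {G : Type*} [Group G] {g : G} (x : G)
    (h : IsVirtRetract (Subgroup.zpowers g)) : IsVirtRetract (Subgroup.zpowers (x * g * x⁻¹)) := by
  have h1 := h.map (MulAut.conj x)
  rwa [MonoidHom.map_zpowers] at h1

end Pool.Agent.R632.VRC
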