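import Pool.Agent.R632.VRC.Glue

/-! Elliptic elements of amalgams. -/

set_option linter.unusedSectionVars false
set_option linter.dupNamespace false

namespace Pool.Agent.R632.VRC

universe u

variable {ι : Type} [Fintype ι] [DecidableEq ι] {G : ι → Type u} [∀ i, Group (G i)] {H : Type u}
  [Group H] {φ : ∀ i, H →* G i} {Γ : Type u} [Group Γ] {o : ∀ i, G i →* Γ}

lemma finite_quot (A : ∀ i, Subgroup (G i)) (hAf : ∀ i, (A i).FiniteIndex) (hA : ∀ i, (A i).Normal)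
    (H0 : Subgroup H) (hH0 : ∀ i h, φ i h ∈ A i ↔ h ∈ H0) (i : ι) : Finite (H ⧸ H0) := by
  have h1 : H0 = (A i).comap (φ i) := by
    ext h
    rw [Subgroup.mem_comap, hH0]
  have h2 : H0.FiniteIndex := by
    constructor
    rw [h1, Subgroup.index_comap]
    intro h0
    have := hA i
    have h4 := Subgroup.relIndex_dvd_index_of_normal (A i) (φ i).range
    rw [h0] at h4
    exact (hAf i).index_ne_zero (Nat.eq_zero_of_zero_dvd h4)
  exact Subgroup.finite_quotient_of_finiteIndex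

/-- representatives -/
noncomputable def rep {P : Type u} [Group P] (φ : H →* P) (A : Subgroup P) [A.Normal]
    (d : DC φ A) : P :=
  (cls_surj φ A d).choose

lemma cls_rep {P : Type u} [Group P] (φ : H →* P) (A : Subgroup P) [A.Normal] (d : DC φ A) :
    cls φ A (rep φ A d) = d := (cls_surj φ A d).choose_spec

/-- a point over the identity coset -/
lemma exists_base {P R J : Type u} [Group P] (φ : H →* P) (A : Subgroup P) [A.Normal]
    (H0 : Subgroup H) (hH0 : ∀ h, φ h ∈ A ↔ h ∈ H0) (t : J → P) (lam : J → DC φ A × R)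
    (hlam : Function.Bijective lam) (ht : ∀ π, cls φ A (t π) = (lam π).1) (p : P) (r : R) :
    ∃ ω : (H ⧸ H0) × J, (lam ω.2).2 = r ∧ p⁻¹ * sg φ H0 t ω ∈ A := by
  obtain ⟨ω, hω⟩ := (bij_EE φ A H0 hH0 t lam hlam ht).2 (QuotientGroup.mk p, r)
  refine ⟨ω, congrArg (fun q : (P ⧸ A) × R => q.2) hω, ?_⟩
  have h1 : (QuotientGroup.mk (sg φ H0 t ω) : P ⧸ A) = QuotientGroup.mk p :=
    congrArg (fun q : (P ⧸ A) × R => q.1) hω
  rw [← QuotientGroup.eq]
  exact h1.symm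

/-- Elliptic elements of infinite order. -/
theorem elliptic (hΓ : Amalg φ o) (A : ∀ i, Subgroup (G i)) (hA : ∀ i, (A i).Normal)
    (hAf : ∀ i, (A i).FiniteIndex) (H0 : Subgroup H) (hH0 : ∀ i h, φ i h ∈ A i ↔ h ∈ H0) (c0 : H)
    (hc0 : ∀ h, h ∈ H0 ↔ ∃ n : ℤ, h = c0 ^ n) (f : ∀ i, G i → ℤ) (hf : ∀ i, HomOn (A i) (f i))
    (hcase : c0 = 1 ∨ ∀ i, f i (φ i c0) ≠ 0) (i0 : ι) (g : G i0) (m : ℕ) (hgm : g ^ m ∈ A i0)
    (hfg : f i0 (g ^ m) ≠ 0) : IsVirtRetract (Subgroup.zpowers (o i0 g)) := by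
  classical
  let t : ∀ i, (∀ k, DC (φ k) (A k)) → G i := fun i π => rep (φ i) (A i) (π i)
  let lam : ∀ i, (∀ k, DC (φ k) (A k)) → DC (φ i) (A i) × (∀ k : {k // k ≠ i}, DC (φ k) (A k)) :=
    fun i => Equiv.piSplitAt i (fun k => DC (φ k) (A k))
  have hlam : ∀ i, Function.Bijective (lam i) := fun i =>
    (Equiv.piSplitAt i (fun k => DC (φ k) (A k))).bijective
  have hlam1 : ∀ i π, (lam i π).1 = π i := fun _ _ => rfl
  have hlam2 : ∀ i π (k : {k // k ≠ i}), (lam i π).2 k = π k := fun _ _ _ => rfl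
  have ht : ∀ i π, cls (φ i) (A i) (t i π) = (lam i π).1 := fun i π => cls_rep _ _ _
  let α : ∀ k, DC (φ k) (A k) → ℤ :=
    fun k d => f k ((rep (φ k) (A k) d)⁻¹ * φ k c0 * rep (φ k) (A k) d)
  have hc0mem : c0 ∈ H0 := (hc0 c0).mpr ⟨1, (zpow_one c0).symm⟩
  have hconj : ∀ k (x y : G k), x ∈ A k → y⁻¹ * x * y ∈ A k := by
    intro k x y hx
    have := (hA k).conj_mem x hx y⁻¹
    rwa [inv_inv] at this
  have hα : ∀ k (p : G k) (n : ℤ), f k (p⁻¹ * φ k (c0 ^ n) * p) = n * f k (p⁻¹ * φ k c0 * p) := by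
    intro k p n
    have h1 : p⁻¹ * φ k (c0 ^ n) * p = (p⁻¹ * φ k c0 * p) ^ n := by
      have h2 := conj_zpow (a := p⁻¹) (b := φ k c0) (i := n)
      rw [inv_inv] at h2
      rw [h2, map_zpow]
    rw [h1, (hf k).zpow (hconj k _ _ ((hH0 k c0).mpr hc0mem))]
  -- multipliers
  let μ : ∀ i, (∀ k : {k // k ≠ i}, DC (φ k) (A k)) → ℤ := fun i r =>
    if c0 = 1 then 1 else ∏ k : {k // k ≠ i}, α k.1 (r k)
  let nn : H → ℤ := fun h => if hh : ∃ n : ℤ, h = c0 ^ n then hh.choose else 0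
  have hnn : ∀ h ∈ H0, h = c0 ^ (nn h) := by
    intro h hh
    have h1 := (hc0 h).mp hh
    show h = c0 ^ (if hh : ∃ n : ℤ, h = c0 ^ n then hh.choose else 0)
    rw [dif_pos h1]
    exact h1.choose_spec
  let V : (∀ k, DC (φ k) (A k)) → H → ℤ := fun π h => if c0 = 1 then 0 else nn h * ∏ k, α k (π k)
  have hV : ∀ i π, ∀ h ∈ H0, μ i (lam i π).2 * f i ((t i π)⁻¹ * φ i h * t i π) = V π h := by
    intro i π h hh
    have h1 := hnn h hh
    by_cases hc : c0 = 1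
    · have h2 : h = 1 := by rw [h1, hc, one_zpow]
      have h3 : V π h = 0 := if_pos hc
      rw [h3, h2, map_one, mul_one, inv_mul_cancel, (hf i).one, mul_zero]
    · have h3 : V π h = nn h * ∏ k, α k (π k) := if_neg hc
      have h4 : μ i (lam i π).2 = ∏ k : {k // k ≠ i}, α k (π k) := if_neg hc
      have h5 : f i ((t i π)⁻¹ * φ i h * t i π) = nn h * α i (π i) := by
        conv_lhs => rw [h1]
        exact hα i _ _
      rw [h3, h4, h5, Fintype.prod_eq_mul_prod_subtype_ne (fun k => α k (π k)) i]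
      ring
  obtain ⟨ρ, hρ⟩ := glue hΓ A hA H0 hH0 t lam hlam ht (fun i r x => μ i r * f i x)
    (fun i r => (hf i).smul _) V hV (fun _ _ => 0)
  -- the base point
  have hμ : ∃ r : (∀ k : {k // k ≠ i0}, DC (φ k) (A k)), μ i0 r ≠ 0 := by
    rcases hcase with hc | hc
    · exact ⟨fun k => cls (φ k) (A k) 1, by
        show (if c0 = 1 then (1 : ℤ) else _) ≠ 0
        rw [if_pos hc]
        exact one_ne_zero⟩
    · by_cases hc1 : c0 = 1
      · exact ⟨fun k => cls (φ k) (A k) 1, by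
          show (if c0 = 1 then (1 : ℤ) else _) ≠ 0
          rw [if_pos hc1]
          exact one_ne_zero⟩
      · refine ⟨fun k => cls (φ k) (A k) 1, ?_⟩
        show (if c0 = 1 then (1 : ℤ) else _) ≠ 0
        rw [if_neg hc1, Finset.prod_ne_zero_iff]
        rintro ⟨k, hk⟩ _ h0
        obtain ⟨h, a, ha, hrep⟩ := (cls_eq (φ k) (A k)).mp (cls_rep (φ k) (A k) (cls (φ k) (A k) 1))
        have h1 : α k (cls (φ k) (A k) 1) = f k (φ k (h⁻¹ * c0 * h)) := by
          have h2 : φ k (h⁻¹ * c0 * h) ∈ A k := by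
            rw [map_mul, map_mul, map_inv]
            exact hconj k _ _ ((hH0 k c0).mpr hc0mem)
          have h3 := (hf k).conj ((A k).inv_mem ha) h2
          rw [← h3]
          show f k ((rep (φ k) (A k) (cls (φ k) (A k) 1))⁻¹ * φ k c0 *
            rep (φ k) (A k) (cls (φ k) (A k) 1)) = _
          rw [hrep]
          congr 1
          rw [map_mul, map_mul, map_inv]
          group
        have h4 : h⁻¹ * c0 * h ∈ H0 := by
          rw [← hH0 k, map_mul, map_mul, map_inv]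
          exact hconj k _ _ ((hH0 k c0).mpr hc0mem)
        obtain ⟨n, hn⟩ := (hc0 _).mp h4
        have h5 : α k (cls (φ k) (A k) 1) = 0 := h0
        rw [h1, hn, map_zpow, (hf k).zpow ((hH0 k c0).mpr hc0mem)] at h5
        rcases mul_eq_zero.mp h5 with h6 | h6
        · rw [h6, zpow_zero] at hn
          apply hc1
          have h7 : c0 = h * (h⁻¹ * c0 * h) * h⁻¹ := by group
          rw [h7, hn]
          group
        · exact hc k h6
  obtain ⟨r, hr⟩ := hμ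
  obtain ⟨ω, hω1, hω2⟩ := exists_base (φ i0) (A i0) H0 (hH0 i0) (t i0) (lam i0) (hlam i0) (ht i0) 1 r
  rw [inv_one, one_mul] at hω2
  have hfin : Finite (H ⧸ H0) := finite_quot A hAf hA H0 hH0 i0
  have hfin2 : ∀ k, Finite (DC (φ k) (A k)) := fun k => finite_DC (φ k) (A k) (hAf k)
  obtain ⟨h1, h2⟩ := hρ i0 (g ^ m) ω ω rfl (hconj i0 _ _ hgm)
  have h3 : (sg (φ i0) H0 (t i0) ω)⁻¹ * g ^ m * sg (φ i0) H0 (t i0) ω =
      (sg (φ i0) H0 (t i0) ω)⁻¹ * g ^ m * ((sg (φ i0) H0 (t i0) ω)⁻¹)⁻¹ := by rw [inv_inv]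
  apply virtRetract_of_hom ρ (o i0 g) ω m
  · rw [← map_pow]
    exact h1
  · rw [← map_pow, h2, hω1, h3, (hf i0).conj ((A i0).inv_mem hω2) hgm]
    simpa using ⟨hr, hfg⟩

/-- Elements of finite order in the factors. -/
theorem torsion (hΓ : Amalg φ o) (A : ∀ i, Subgroup (G i)) (hA : ∀ i, (A i).Normal)
    (hAf : ∀ i, (A i).FiniteIndex) (H0 : Subgroup H) (hH0 : ∀ i h, φ i h ∈ A i ↔ h ∈ H0) (i0 : ι)
    (g : G i0) (hg : ∀ n : ℤ, g ^ n ∈ A i0 → g ^ n = 1) :
    IsVirtRetract (Subgroup.zpowers (o i0 g)) := by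
  classical
  let t : ∀ i, (∀ k, DC (φ k) (A k)) → G i := fun i π => rep (φ i) (A i) (π i)
  let lam : ∀ i, (∀ k, DC (φ k) (A k)) → DC (φ i) (A i) × (∀ k : {k // k ≠ i}, DC (φ k) (A k)) :=
    fun i => Equiv.piSplitAt i (fun k => DC (φ k) (A k))
  have hlam : ∀ i, Function.Bijective (lam i) := fun i =>
    (Equiv.piSplitAt i (fun k => DC (φ k) (A k))).bijective
  have ht : ∀ i π, cls (φ i) (A i) (t i π) = (lam i π).1 := fun i π => cls_rep _ _ _
  obtain ⟨ρ, hρ⟩ := glue hΓ A hA H0 hH0 t lam hlam ht (fun i r x => 0)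
    (fun i r => HomOn.zero) (fun _ _ => 0) (fun _ _ _ _ => rfl) (fun _ _ => 0)
  have hfin : Finite (H ⧸ H0) := finite_quot A hAf hA H0 hH0 i0
  have hfin2 : ∀ k, Finite (DC (φ k) (A k)) := fun k => finite_DC (φ k) (A k) (hAf k)
  have hker : ((Wr.perm.comp ρ).ker).FiniteIndex := inferInstance
  apply virtRetract_of_normal (o i0 g) (Wr.perm.comp ρ).ker
  intro n hn
  obtain ⟨ω, hω1, hω2⟩ := exists_base (φ i0) (A i0) H0 (hH0 i0) (t i0) (lam i0) (hlam i0) (ht i0) 1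
    (fun k => cls (φ k) (A k) 1)
  obtain ⟨ω', hω1', hω2'⟩ := exists_base (φ i0) (A i0) H0 (hH0 i0) (t i0) (lam i0) (hlam i0)
    (ht i0) (g ^ n * sg (φ i0) H0 (t i0) ω) (lam i0 ω.2).2
  have h1 : (sg (φ i0) H0 (t i0) ω')⁻¹ * g ^ n * sg (φ i0) H0 (t i0) ω ∈ A i0 := by
    have := (A i0).inv_mem hω2'
    convert this using 1
    group
  obtain ⟨h2, _⟩ := hρ i0 (g ^ n) ω ω' hω1' h1
  have h3 : (ρ (o i0 (g ^ n))).s = 1 := by
    rw [map_zpow]
    exact hn
  rw [h3] at h2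
  have h4 : ω = ω' := h2
  rw [← h4] at h1
  have h5 : g ^ n ∈ A i0 := by
    have := (hA i0).conj_mem _ h1 (sg (φ i0) H0 (t i0) ω)
    convert this using 1
    group
  rw [← map_zpow, hg n h5, map_one]

end Pool.Agent.R632.VRC
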