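import Pool.Agent.R632.VRC.Gauge

/-! Embedding the factors of an amalgam into amenable groups. -/

set_option linter.unusedSectionVars false
set_option linter.dupNamespace false

namespace Pool.Agent.R632.VRC

universe u

variable {ι : Type} [Fintype ι] [DecidableEq ι] [Nonempty ι] {G : ι → Type u} [∀ i, Group (G i)]
  {H : Type u} [Group H] {φ : ∀ i, H →* G i} {Γ : Type u} [Group Γ] {o : ∀ i, G i →* Γ}

/-- the infinite case -/
theorem embed_inf (hΓ : Amalg φ o) (hG : ∀ i, Fol (G i)) (A : ∀ i, Subgroup (G i))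
    (hA : ∀ i, (A i).Normal)
    (hAf : ∀ i, (A i).FiniteIndex) (H0 : Subgroup H) (hH0 : ∀ i h, φ i h ∈ A i ↔ h ∈ H0) (c0 : H)
    (hc0 : ∀ h, h ∈ H0 ↔ ∃ n : ℤ, h = c0 ^ n) (f : ∀ i, G i → ℤ) (hf : ∀ i, HomOn (A i) (f i))
    (hne : ∀ i p, f i (p⁻¹ * φ i c0 * p) ≠ 0) :
    ∃ (B : Type u) (_ : Group B) (ψ : Γ →* B), Fol B ∧
      ∀ i, Function.Injective (fun g => ψ (o i g)) := by
  classical
  obtain ⟨i0⟩ := ‹Nonempty ι›
  obtain ⟨Ω, hΩ, hΩ', ρ, hρ⟩ := free_cocycle hΓ A hA hAf H0 hH0 c0 hc0 f hf hne i0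
  have hc0A : ∀ i, φ i c0 ∈ A i := fun i => (hH0 i c0).mpr ((hc0 c0).mpr ⟨1, (zpow_one c0).symm⟩)
  obtain ⟨X, hX, hX', ρ', c', hc'⟩ := uniform ((o i0).comp (φ i0)) ρ (fun _ => c0)
    (fun ω h => by
      rw [← hc0, ← hH0 i0]
      exact (hρ i0 ω).1 (φ i0 h))
    (fun ω => by
      obtain ⟨p, μ, hμ, hp⟩ := (hρ i0 ω).2
      show (ρ (o i0 (φ i0 c0))).t ω ≠ 0
      rw [hp _ (hc0A i0)]
      exact mul_ne_zero hμ (hne i0 p))
  have hc'' : ∀ i x, (∀ h, (ρ' (o i (φ i h))).s x = x → ∃ n : ℤ, h = c' x ^ n) ∧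
      (ρ' (o i (φ i (c' x)))).s x = x ∧ (ρ' (o i (φ i (c' x)))).t x = 1 := by
    intro i x
    have h1 := hc' x
    refine ⟨fun h hh => h1.1 h ?_, ?_, ?_⟩
    · rw [hΓ.comp i i0] at hh
      exact hh
    · rw [hΓ.comp i i0]
      exact h1.2.1
    · rw [hΓ.comp i i0]
      exact h1.2.2
  let B0 := Multiplicative ℤ × (∀ i, G i)
  have hB0 : Fol B0 := Fol.int.prod (Fol.pi hG)
  let β : ∀ i, G i →* WrG B0 X := fun i =>
    { toFun := fun g => ⟨(ρ' (o i g)).s, fun x => (Multiplicative.ofAdd ((ρ' (o i g)).t x),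
        Pi.mulSingle i g)⟩
      map_one' := by
        apply WrG.ext
        · rw [map_one, map_one]
          rfl
        · funext x
          rw [map_one, map_one, Pi.mulSingle_one]
          rfl
      map_mul' := fun a b => by
        apply WrG.ext
        · rw [map_mul, map_mul]
          rfl
        · funext x
          rw [map_mul, map_mul]
          refine Prod.ext rfl ?_
          exact Pi.mulSingle_mul i a b }
  have := Fintype.ofFinite X
  let F : B0 →* Multiplicative ℤ := MonoidHom.fst _ _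
  let t0 : B0 := (Multiplicative.ofAdd 1, 1)
  let E : ι × X → B0 := fun p => (Multiplicative.ofAdd 1, Pi.mulSingle p.1 (φ p.1 (c' p.2)))
  obtain ⟨B, _, j, F', hB, hj, hF', hconj⟩ := hnn_multi hB0 F t0 rfl
    ((Finset.univ : Finset (ι × X)).toList.map E) (by
      intro b hb
      obtain ⟨p, _, rfl⟩ := List.mem_map.mp hb
      rfl)
  have hconj' : ∀ i x, ∃ y, y * j t0 * y⁻¹ = j (E (i, x)) := by
    intro i x
    apply hconj
    exact List.mem_map.mpr ⟨(i, x), Finset.mem_toList.mpr (Finset.mem_univ _), rfl⟩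
  choose y hy using hconj'
  obtain ⟨ψ, hψ⟩ := gauge hΓ (Wr.perm.comp ρ') (fun i => (WrG.map j).comp (β i))
    (fun i g => rfl) c' (fun i x h hh => (hc'' i x).1 h hh) (fun i x => (hc'' i x).2.1)
    (fun _ => j t0) y (fun i x => by
      rw [hy]
      show j (E (i, x)) = j (Multiplicative.ofAdd ((ρ' (o i (φ i (c' x)))).t x),
        Pi.mulSingle i (φ i (c' x)))
      rw [(hc'' i x).2.2])
  refine ⟨WrG B X, inferInstance, ψ, hB.wr X, fun i => ?_⟩
  have hinj : Function.Injective (ψ.comp (o i)) := by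
    rw [injective_iff_map_eq_one]
    intro g hg
    obtain ⟨w, hw⟩ := hψ i
    have h1 : w * ((WrG.map j).comp (β i)) g * w⁻¹ = 1 := by
      rw [← hw]
      exact hg
    rw [mul_inv_eq_one] at h1
    have h2 : ((WrG.map j).comp (β i)) g = 1 := by
      have h3 : w * ((WrG.map j).comp (β i)) g = w * 1 := by rw [h1, mul_one]
      exact mul_left_cancel h3
    obtain ⟨x0⟩ := hX'
    have h3 : j ((β i g).t x0) = j 1 := by
      rw [map_one]
      exact congrFun (congrArg WrG.t h2) x0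
    have h4 : (Pi.mulSingle i g : ∀ i, G i) = 1 := congrArg Prod.snd (hj h3)
    exact Pi.mulSingle_eq_one_iff.mp h4
  exact hinj

/-- permutation representations -/
theorem perm_cocycle (hΓ : Amalg φ o) (A : ∀ i, Subgroup (G i)) (hA : ∀ i, (A i).Normal)
    (hAf : ∀ i, (A i).FiniteIndex) (H0 : Subgroup H) (hH0 : ∀ i h, φ i h ∈ A i ↔ h ∈ H0) (i1 : ι) :
    ∃ (Ω : Type u) (_ : Finite Ω) (_ : Nonempty Ω) (σ : Γ →* Equiv.Perm Ω), ∀ i ω g,
      σ (o i g) ω = ω ↔ g ∈ A i := by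
  classical
  let t : ∀ i, (∀ k, DC (φ k) (A k)) → G i := fun i π => rep (φ i) (A i) (π i)
  let lam : ∀ i, (∀ k, DC (φ k) (A k)) → DC (φ i) (A i) × (∀ k : {k // k ≠ i}, DC (φ k) (A k)) :=
    fun i => Equiv.piSplitAt i (fun k => DC (φ k) (A k))
  have hlam : ∀ i, Function.Bijective (lam i) := fun i =>
    (Equiv.piSplitAt i (fun k => DC (φ k) (A k))).bijective
  have ht : ∀ i π, cls (φ i) (A i) (t i π) = (lam i π).1 := fun i π => cls_rep _ _ _
  have hconj : ∀ k (x y : G k), x ∈ A k → y⁻¹ * x * y ∈ A k := by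
    intro k x y hx
    have := (hA k).conj_mem x hx y⁻¹
    rwa [inv_inv] at this
  obtain ⟨ρ, hρ⟩ := glue hΓ A hA H0 hH0 t lam hlam ht (fun i r x => 0)
    (fun i r => HomOn.zero) (fun _ _ => 0) (fun _ _ _ _ => rfl) (fun _ _ => 0)
  have hfin : Finite (H ⧸ H0) := finite_quot A hAf hA H0 hH0 i1
  have hfin2 : ∀ k, Finite (DC (φ k) (A k)) := fun k => finite_DC (φ k) (A k) (hAf k)
  refine ⟨(H ⧸ H0) × (∀ k, DC (φ k) (A k)), inferInstance,
    ⟨(QuotientGroup.mk 1, fun k => cls (φ k) (A k) 1)⟩, Wr.perm.comp ρ, fun i ω g => ⟨fun hg => ?_,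
    fun hg => ?_⟩⟩
  · obtain ⟨ω', hω1', hω2'⟩ := exists_base (φ i) (A i) H0 (hH0 i) (t i) (lam i) (hlam i)
      (ht i) (g * sg (φ i) H0 (t i) ω) (lam i ω.2).2
    have h1 : (sg (φ i) H0 (t i) ω')⁻¹ * g * sg (φ i) H0 (t i) ω ∈ A i := by
      have := (A i).inv_mem hω2'
      convert this using 1
      group
    obtain ⟨h2, _⟩ := hρ i g ω ω' hω1' h1
    have hg' : (ρ (o i g)).s ω = ω := hg
    rw [hg'] at h2
    rw [← h2] at h1
    have := (hA i).conj_mem _ h1 (sg (φ i) H0 (t i) ω)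
    convert this using 1
    group
  · exact (hρ i g ω ω rfl (hconj i _ _ hg)).1

/-- the finite case -/
theorem embed_fin (hΓ : Amalg φ o) (hG : ∀ i, Fol (G i)) (A : ∀ i, Subgroup (G i))
    (hA : ∀ i, (A i).Normal) (hAf : ∀ i, (A i).FiniteIndex) (hH0 : ∀ i h, φ i h ∈ A i ↔ h = 1) :
    ∃ (B : Type u) (_ : Group B) (ψ : Γ →* B), Fol B ∧
      ∀ i, Function.Injective (fun g => ψ (o i g)) := by
  classical
  obtain ⟨i0⟩ := ‹Nonempty ι›
  obtain ⟨X, hX, hX', σ, hσ⟩ := perm_cocycle hΓ A hA hAf ⊥ (fun i h => by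
    rw [hH0, Subgroup.mem_bot]) i0
  let B := ∀ i, G i
  let β : ∀ i, G i →* WrG B X := fun i =>
    { toFun := fun g => ⟨σ (o i g), fun x => Pi.mulSingle i g⟩
      map_one' := by
        apply WrG.ext
        · rw [map_one, map_one]
          rfl
        · funext x
          rw [Pi.mulSingle_one]
          rfl
      map_mul' := fun a b => by
        apply WrG.ext
        · rw [map_mul, map_mul]
          rfl
        · funext x
          rw [WrG.mul_t, Pi.mulSingle_mul] }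
  obtain ⟨ψ, hψ⟩ := gauge hΓ σ β (fun i g => rfl) (fun _ => 1) (fun i x h hh => ⟨0, by
      have h1 := (hH0 i h).mp ((hσ i x _).mp hh)
      rw [h1, zpow_zero]⟩) (fun i x => by rw [map_one, map_one, map_one]; rfl)
    (fun _ => 1) (fun _ _ => 1) (fun i x => by
      show _ = (Pi.mulSingle i (φ i 1) : ∀ i, G i)
      rw [map_one, Pi.mulSingle_one]
      group)
  refine ⟨WrG B X, inferInstance, ψ, (Fol.pi hG).wr X, fun i => ?_⟩
  have hinj : Function.Injective (ψ.comp (o i)) := by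
    rw [injective_iff_map_eq_one]
    intro g hg
    obtain ⟨w, hw⟩ := hψ i
    have h1 : w * β i g * w⁻¹ = 1 := by
      rw [← hw]
      exact hg
    rw [mul_inv_eq_one] at h1
    have h2 : β i g = 1 := by
      have h3 : w * β i g = w * 1 := by rw [h1, mul_one]
      exact mul_left_cancel h3
    obtain ⟨x0⟩ := hX'
    have h4 : (Pi.mulSingle i g : ∀ i, G i) = 1 := congrFun (congrArg WrG.t h2) x0
    exact Pi.mulSingle_eq_one_iff.mp h4
  exact hinj

end Pool.Agent.R632.VRC
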