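import Pool.Agent.R632.VRC.Gen

/-! Finitely generated kernels. -/

set_option linter.unusedSectionVars false
set_option linter.dupNamespace false

namespace Pool.Agent.R632.VRC

universe u

/-- the kernel of a homomorphism defined on a subgroup -/
def kerOn {P : Type u} [Group P] (A : Subgroup P) (f : P → ℤ) (hf : HomOn A f) : Subgroup P where
  carrier := {x | x ∈ A ∧ f x = 0}
  mul_mem' := fun {a b} ha hb => ⟨A.mul_mem ha.1 hb.1, by rw [hf a ha.1 b hb.1, ha.2, hb.2]; rfl⟩
  one_mem' := ⟨A.one_mem, hf.one⟩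
  inv_mem' := fun {a} ha => ⟨A.inv_mem ha.1, by rw [hf.inv ha.1, ha.2]; rfl⟩

/-- invariance along words -/
lemma along {K : Type u} [Group K] {S : Set K} {u : K} (hu : u ∈ Subgroup.closure S) :
    ∃ E : Set K, E.Finite ∧ (∀ e ∈ E, e ∈ Subgroup.closure S) ∧
      ∀ (X : Type u) (q : K → X) (z : K), (∀ e ∈ E, ∀ s ∈ S, q (z * e * s) = q (z * e)) →
        q (z * u) = q z := by
  induction hu using Subgroup.closure_induction with
  | mem s hs =>
    refine ⟨{1}, Set.finite_singleton _, ?_, fun X q z h => ?_⟩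
    · rintro _ rfl
      exact Subgroup.one_mem _
    · have := h 1 rfl s hs
      rwa [mul_one] at this
  | one => exact ⟨∅, Set.finite_empty, fun e he => absurd he (Set.notMem_empty e),
      fun X q z _ => by rw [mul_one]⟩
  | mul a b ha hb iha ihb =>
    obtain ⟨E1, h1, h1', h1''⟩ := iha
    obtain ⟨E2, h2, h2', h2''⟩ := ihb
    refine ⟨E1 ∪ (fun e => a * e) '' E2, h1.union (h2.image _), ?_, fun X q z h => ?_⟩
    · rintro e (he | ⟨e, he, rfl⟩)
      · exact h1' e he
      · exact Subgroup.mul_mem _ ha (h2' e he)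
    · have h3 := h1'' X q z (fun e he s hs => h e (Or.inl he) s hs)
      have h4 := h2'' X q (z * a) (fun e he s hs => by
        have := h (a * e) (Or.inr ⟨e, he, rfl⟩) s hs
        simpa only [mul_assoc] using this)
      rw [← mul_assoc, h4, h3]
  | inv a ha iha =>
    obtain ⟨E1, h1, h1', h1''⟩ := iha
    refine ⟨(fun e => a⁻¹ * e) '' E1, h1.image _, ?_, fun X q z h => ?_⟩
    · rintro _ ⟨e, he, rfl⟩
      exact Subgroup.mul_mem _ (Subgroup.inv_mem _ ha) (h1' e he)
    · have h3 := h1'' X q (z * a⁻¹) (fun e he s hs => by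
        have := h (a⁻¹ * e) ⟨e, he, rfl⟩ s hs
        simpa only [mul_assoc] using this)
      rw [← h3, inv_mul_cancel_right]

/-- Neumann's theorem: having a finitely generated kernel is an open condition. -/
theorem open_fg_top {K : Type u} [Group K] (φ g : K → ℤ) (hφ : HomOn ⊤ φ) (hg : HomOn ⊤ g)
    (hfg : (kerOn ⊤ φ hφ).FG) (hne : ∃ x, φ x ≠ 0) :
    ∃ N0 : ℤ, ∀ N : ℤ, N0 ≤ N → (kerOn ⊤ (fun x => g x + N * φ x) (hg.lin hφ N)).FG := by
  classical
  -- a generator of the image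
  obtain ⟨t, d, hd, htd, hdiv⟩ : ∃ (t : K) (d : ℤ), 0 < d ∧ φ t = d ∧ ∀ x, d ∣ φ x := by
    let V : AddSubgroup ℤ :=
      { carrier := Set.range φ
        add_mem' := by
          rintro _ _ ⟨a, rfl⟩ ⟨b, rfl⟩
          exact ⟨a * b, hφ a trivial b trivial⟩
        zero_mem' := ⟨1, hφ.one⟩
        neg_mem' := by
          rintro _ ⟨a, rfl⟩
          exact ⟨a⁻¹, hφ.inv trivial⟩ }
    obtain ⟨d, hd⟩ := Int.subgroup_cyclic V
    have hdV : d ∈ V := by rw [hd]; exact AddSubgroup.subset_closure rfl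
    have hdvd : ∀ x, d ∣ φ x := by
      intro x
      have h1 : φ x ∈ V := ⟨x, rfl⟩
      rw [hd, AddSubgroup.mem_closure_singleton] at h1
      obtain ⟨n, hn⟩ := h1
      exact ⟨n, by rw [← hn, zsmul_eq_mul, mul_comm]; rfl⟩
    have hd0 : d ≠ 0 := by
      rintro rfl
      obtain ⟨x, hx⟩ := hne
      exact hx (zero_dvd_iff.mp (hdvd x))
    obtain ⟨t, ht⟩ := hdV
    rcases lt_or_gt_of_ne hd0 with h | h
    · exact ⟨t⁻¹, -d, by omega, by rw [hφ.inv trivial, ht], fun x => (neg_dvd).mpr (hdvd x)⟩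
    · exact ⟨t, d, h, ht, hdvd⟩
  obtain ⟨S, hS, hSfin⟩ := (Subgroup.fg_iff _).mp hfg
  have hCmem : ∀ x, x ∈ Subgroup.closure S ↔ φ x = 0 := by
    intro x
    rw [hS]
    exact ⟨fun h => h.2, fun h => ⟨trivial, h⟩⟩
  have hSφ : ∀ s ∈ S, φ s = 0 := fun s hs => (hCmem s).mp (Subgroup.subset_closure hs)
  have h1 : ∀ s : K, ∃ E : Set K, s ∈ S → (E.Finite ∧ (∀ e ∈ E, e ∈ Subgroup.closure S) ∧
      ∀ (X : Type u) (q : K → X) (z : K), (∀ e ∈ E, ∀ s ∈ S, q (z * e * s) = q (z * e)) →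
        q (z * (t * s * t⁻¹)) = q z) := by
    intro s
    by_cases hs : s ∈ S
    · obtain ⟨E, hE⟩ := along (S := S) (u := t * s * t⁻¹) (by
        rw [hCmem, hφ _ trivial _ trivial, hφ _ trivial _ trivial, hφ.inv trivial, hSφ s hs]
        ring)
      exact ⟨E, fun _ => hE⟩
    · exact ⟨∅, fun h => absurd h hs⟩
  have h2 : ∀ s : K, ∃ E : Set K, s ∈ S → (E.Finite ∧ (∀ e ∈ E, e ∈ Subgroup.closure S) ∧
      ∀ (X : Type u) (q : K → X) (z : K), (∀ e ∈ E, ∀ s ∈ S, q (z * e * s) = q (z * e)) →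
        q (z * (t⁻¹ * s * t)) = q z) := by
    intro s
    by_cases hs : s ∈ S
    · obtain ⟨E, hE⟩ := along (S := S) (u := t⁻¹ * s * t) (by
        rw [hCmem, hφ _ trivial _ trivial, hφ _ trivial _ trivial, hφ.inv trivial, hSφ s hs]
        ring)
      exact ⟨E, fun _ => hE⟩
    · exact ⟨∅, fun h => absurd h hs⟩
  choose E1 hE1 using h1
  choose E2 hE2 using h2
  -- the bound
  obtain ⟨M, hM0, hM⟩ : ∃ M : ℤ, 0 ≤ M ∧ ∀ s ∈ S, ∀ e ∈ E1 s ∪ E2 s, |g e| ≤ M := by
    have h3 : (⋃ s ∈ S, (E1 s ∪ E2 s)).Finite :=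
      hSfin.biUnion fun s hs => (hE1 s hs).1.union (hE2 s hs).1
    obtain ⟨M, hM⟩ := (h3.image (fun e => |g e|)).bddAbove
    refine ⟨max M 0, le_max_right _ _, fun s hs e he => ?_⟩
    refine le_trans (hM ⟨e, ?_, rfl⟩) (le_max_left _ _)
    exact Set.mem_biUnion hs he
  refine ⟨M + |g t| + 1, fun N hN => ?_⟩
  set ψ : K → ℤ := fun x => g x + N * φ x with hψdef
  have hψ : HomOn ⊤ ψ := hg.lin hφ N
  have hψm : ∀ a b, ψ (a * b) = ψ a + ψ b := fun a b => hψ a trivial b trivial
  have hψz : ∀ a (n : ℤ), ψ (a ^ n) = n * ψ a := fun a n => hψ.zpow trivial n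
  have hψi : ∀ a, ψ a⁻¹ = - ψ a := fun a => hψ.inv trivial
  set T : ℤ := ψ t with hTdef
  have hTM : M < T := by
    have h3 : T = g t + N * d := by rw [hTdef, hψdef]; simp only [htd]
    have h4 := neg_abs_le (g t)
    have h5 : 0 ≤ |g t| := abs_nonneg _
    have h6 : M + |g t| + 1 ≤ N * d := by nlinarith
    omega
  have hT0 : 0 < T := by omega
  have hψC : ∀ e ∈ Subgroup.closure S, ψ e = g e := by
    intro e he
    have := (hCmem e).mp he
    show g e + N * φ e = g e
    rw [this]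
    ring
  -- representatives
  have hr : ∀ v : ℤ, ∃ y : K, (v = 0 → y = 1) ∧ ∀ x, ψ x = v → ψ y = v := by
    intro v
    by_cases hv : v = 0
    · exact ⟨1, fun _ => rfl, fun _ _ => by rw [hv]; exact hψ.one⟩
    · by_cases hx : ∃ x, ψ x = v
      · obtain ⟨x, hx⟩ := hx
        exact ⟨x, fun h => absurd h hv, fun _ _ => hx⟩
      · exact ⟨1, fun _ => rfl, fun x h => absurd ⟨x, h⟩ hx⟩
  choose r hr0 hr1 using hr
  have hr : ∀ x, ψ (r (ψ x)) = ψ x := fun x => hr1 _ x rfl
  let q0 : K → K := fun y => y * t ^ (-(ψ y / T)) * (r (ψ y % T))⁻¹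
  have hval : ∀ y, ψ (y * t ^ (-(ψ y / T))) = ψ y % T := by
    intro y
    rw [hψm, hψz, ← hTdef]
    have := Int.emod_add_mul_ediv (ψ y) T
    linarith
  have hq0B : ∀ y, ψ (q0 y) = 0 := by
    intro y
    show ψ (y * t ^ (-(ψ y / T)) * (r (ψ y % T))⁻¹) = 0
    rw [hψm, hψi, ← hval, hr]
    ring
  have hq0t : ∀ y, q0 (y * t) = q0 y := by
    intro y
    show y * t * t ^ (-(ψ (y * t) / T)) * (r (ψ (y * t) % T))⁻¹ = _
    have h3 : ψ (y * t) = ψ y + T := hψm y t
    rw [h3, Int.add_emod_right, Int.add_ediv_of_dvd_right (dvd_refl T), Int.ediv_self hT0.ne']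
    show _ = y * t ^ (-(ψ y / T)) * (r (ψ y % T))⁻¹
    rw [neg_add, zpow_add]
    group
  have hq0b : ∀ b y, ψ b = 0 → q0 (b * y) = b * q0 y := by
    intro b y hb
    show b * y * t ^ (-(ψ (b * y) / T)) * (r (ψ (b * y) % T))⁻¹ =
      b * (y * t ^ (-(ψ y / T)) * (r (ψ y % T))⁻¹)
    rw [hψm, hb, zero_add]
    group
  have hq01 : q0 1 = 1 := by
    show 1 * t ^ (-(ψ 1 / T)) * (r (ψ 1 % T))⁻¹ = 1
    rw [hψ.one, Int.zero_ediv, Int.zero_emod, hr0 0 rfl]
    group
  let ED : Set K := (fun p : ℤ × K => (q0 (r p.1))⁻¹ * q0 (r p.1 * p.2)) ''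
    ((Set.Icc (-T) T) ×ˢ S)
  have hED : ED.Finite := ((Set.finite_Icc _ _).prod hSfin).image _
  let D := Subgroup.closure ED
  have hDB : ∀ x ∈ D, ψ x = 0 := by
    intro x hx
    have h3 : D ≤ kerOn ⊤ ψ hψ := by
      rw [Subgroup.closure_le]
      rintro _ ⟨p, _, rfl⟩
      refine ⟨trivial, ?_⟩
      show ψ ((q0 (r p.1))⁻¹ * q0 (r p.1 * p.2)) = 0
      rw [hψm, hψi, hq0B, hq0B]
      rfl
    exact (h3 hx).2
  let q : K → K ⧸ D := fun y => QuotientGroup.mk (q0 y)
  have hqt : ∀ y, q (y * t) = q y := fun y => congrArg QuotientGroup.mk (hq0t y)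
  have hqt' : ∀ y, q (y * t⁻¹) = q y := by
    intro y
    have := hqt (y * t⁻¹)
    rw [inv_mul_cancel_right] at this
    exact this.symm
  -- the induction
  have key : ∀ (n : ℕ) (y : K), (ψ y).natAbs ≤ n → ∀ s ∈ S, q (y * s) = q y := by
    intro n
    induction n with
    | zero =>
      intro y hy s hs
      have hy0 : ψ y = 0 := by omega
      show (QuotientGroup.mk (q0 (y * s)) : K ⧸ D) = QuotientGroup.mk (q0 y)
      symm
      rw [QuotientGroup.eq, hq0b y s hy0]
      have h3 : q0 y = y := by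
        have := hq0b y 1 hy0
        rwa [mul_one, hq01, mul_one] at this
      rw [h3]
      refine Subgroup.subset_closure ⟨(0, s), ⟨⟨by omega, by omega⟩, hs⟩, ?_⟩
      show (q0 (r 0))⁻¹ * q0 (r 0 * s) = _
      rw [hr0 0 rfl, hq01, one_mul]
      group
    | succ n ih =>
      intro y hy s hs
      by_cases hyT : |ψ y| ≤ T
      · rw [abs_le] at hyT
        have hb : ψ (y * (r (ψ y))⁻¹) = 0 := by
          rw [hψm, hψi, hr]
          ring
        have h3 : y = (y * (r (ψ y))⁻¹) * r (ψ y) := by group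
        show (QuotientGroup.mk (q0 (y * s)) : K ⧸ D) = QuotientGroup.mk (q0 y)
        symm
        rw [QuotientGroup.eq]
        have h4 : q0 y = (y * (r (ψ y))⁻¹) * q0 (r (ψ y)) := by
          conv_lhs => rw [h3]
          exact hq0b _ _ hb
        have h5 : q0 (y * s) = (y * (r (ψ y))⁻¹) * q0 (r (ψ y) * s) := by
          conv_lhs => rw [h3, mul_assoc]
          exact hq0b _ _ hb
        rw [h4, h5]
        refine Subgroup.subset_closure ⟨(ψ y, s), ⟨hyT, hs⟩, ?_⟩
        show (q0 (r (ψ y)))⁻¹ * q0 (r (ψ y) * s) = _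
        group
      · rcases le_or_gt 0 (ψ y) with hpos | hneg
        · rw [abs_of_nonneg hpos] at hyT
          have h3 := (hE1 s hs).2.2 (K ⧸ D) q (y * t⁻¹) (fun e he s' hs' => by
            apply ih _ _ s' hs'
            have h4 : ψ (y * t⁻¹ * e) = ψ y - T + g e := by
              rw [hψm, hψm, hψi, hψC e ((hE1 s hs).2.1 e he)]
              ring
            have h5 := hM s hs e (Or.inl he)
            rw [abs_le] at h5
            rw [h4]
            omega)
          have h4 : y * t⁻¹ * (t * s * t⁻¹) = y * s * t⁻¹ := by group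
          rw [h4, hqt', hqt'] at h3
          exact h3
        · rw [abs_of_neg hneg] at hyT
          have h3 := (hE2 s hs).2.2 (K ⧸ D) q (y * t) (fun e he s' hs' => by
            apply ih _ _ s' hs'
            have h4 : ψ (y * t * e) = ψ y + T + g e := by
              rw [hψm, hψm, hψC e ((hE2 s hs).2.1 e he)]
            have h5 := hM s hs e (Or.inr he)
            rw [abs_le] at h5
            rw [h4]
            omega)
          have h4 : y * t * (t⁻¹ * s * t) = y * s * t := by group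
          rw [h4, hqt, hqt] at h3
          exact h3
  have hqs : ∀ y, ∀ s ∈ S, q (y * s) = q y := fun y s hs => key _ y le_rfl s hs
  have hqc : ∀ c ∈ Subgroup.closure S, ∀ y, q (y * c) = q y := by
    intro c hc y
    obtain ⟨E, _, _, hE⟩ := along hc
    exact hE _ q y (fun e _ s hs => hqs _ s hs)
  have hqtz : ∀ (n : ℤ) y, q (y * t ^ n) = q y := by
    intro n
    induction n using Int.induction_on with
    | zero => intro y; rw [zpow_zero, mul_one]
    | succ k ih => intro y; rw [zpow_add_one, ← mul_assoc, hqt, ih]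
    | pred k ih => intro y; rw [zpow_sub_one, ← mul_assoc, hqt', ih]
  have hall : ∀ x, q x = q 1 := by
    intro x
    obtain ⟨k, hk⟩ := hdiv x
    have h3 : x * t ^ (-k) ∈ Subgroup.closure S := by
      rw [hCmem, hφ _ trivial _ trivial, hφ.zpow trivial, htd, hk]
      ring
    have h4 := hqc _ h3 1
    rw [one_mul, hqtz] at h4
    exact h4
  rw [Subgroup.fg_iff]
  refine ⟨ED, ?_, hED⟩
  apply le_antisymm
  · intro x hx
    exact ⟨trivial, hDB x hx⟩
  · intro b hb
    have hb' : ψ b = 0 := hb.2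
    have h3 := hall b
    have h4 : q0 b = b := by
      have := hq0b b 1 hb'
      rwa [mul_one, hq01, mul_one] at this
    have h5 : (QuotientGroup.mk (q0 b) : K ⧸ D) = QuotientGroup.mk (q0 1) := h3
    rw [h4, hq01] at h5
    have h6 := QuotientGroup.eq.mp h5.symm
    rwa [inv_one, one_mul] at h6

end Pool.Agent.R632.VRC
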