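import Pool.Agent.R632.VRC.Fib

/-! Virtual fibering of amalgams. -/

set_option linter.unusedSectionVars false
set_option linter.dupNamespace false

namespace Pool.Agent.R632.VRC

universe u

lemma fg_map {P Q : Type u} [Group P] [Group Q] (f : P →* Q) {K : Subgroup P} (h : K.FG) :
    (K.map f).FG := by
  rw [Subgroup.fg_iff] at h ⊢
  obtain ⟨S, rfl, hS⟩ := h
  exact ⟨f '' S, (MonoidHom.map_closure f S).symm, hS.image _⟩

lemma fg_of_map {P Q : Type u} [Group P] [Group Q] (f : P →* Q) (hf : Function.Injective f)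
    {K : Subgroup P} (h : (K.map f).FG) : K.FG := by
  rw [Subgroup.fg_iff_submonoid_fg] at h ⊢
  exact Submonoid.FG.map_injective f hf h

lemma kerOn_map {P : Type u} [Group P] (A : Subgroup P) (f : P → ℤ) (hf : HomOn A f)
    (hf' : HomOn (⊤ : Subgroup A) (fun x : A => f x)) :
    (kerOn ⊤ (fun x : A => f x) hf').map A.subtype = kerOn A f hf := by
  ext x
  constructor
  · rintro ⟨y, hy, rfl⟩
    exact ⟨y.2, hy.2⟩
  · rintro ⟨h1, h2⟩
    exact ⟨⟨x, h1⟩, ⟨trivial, h2⟩, rfl⟩

lemma HomOn.top {P : Type u} [Group P] {A : Subgroup P} {f : P → ℤ} (hf : HomOn A f) :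
    HomOn (⊤ : Subgroup A) (fun x : A => f x) := fun a _ b _ => hf a a.2 b b.2

/-- openness on a subgroup -/
theorem open_fg {P : Type u} [Group P] {A : Subgroup P} {θ g : P → ℤ} (hθ : HomOn A θ)
    (hg : HomOn A g) (hfg : (kerOn A θ hθ).FG) (hne : ∃ x ∈ A, θ x ≠ 0) :
    ∃ N0 : ℤ, ∀ N : ℤ, N0 ≤ N → (kerOn A (fun x => g x + N * θ x) (hg.lin hθ N)).FG := by
  obtain ⟨x, hx, hx'⟩ := hne
  obtain ⟨N0, h⟩ := open_fg_top (K := A) (fun x => θ x) (fun x => g x) hθ.top hg.top (by
    apply fg_of_map A.subtype A.subtype_injective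
    rw [kerOn_map A θ hθ]
    exact hfg) ⟨⟨x, hx⟩, hx'⟩
  refine ⟨N0, fun N hN => ?_⟩
  have h1 := fg_map A.subtype (h N hN)
  rw [kerOn_map A (fun x => g x + N * θ x) (hg.lin hθ N)] at h1
  exact h1

/-- restriction to a subgroup of finite index -/
lemma kerOn_restrict {P : Type u} [Group P] {A B : Subgroup P} (hBA : B ≤ A) (hB : B.FiniteIndex)
    {f : P → ℤ} (hf : HomOn A f) (hfg : (kerOn A f hf).FG) :
    (kerOn B f (hf.mono hBA)).FG := by
  have h1 : Group.FG (kerOn A f hf) := (Group.fg_iff_subgroup_fg _).mpr hfg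
  have h2 : (B.subgroupOf (kerOn A f hf)).FiniteIndex := inferInstance
  have h3 : Group.FG (B.subgroupOf (kerOn A f hf)) := inferInstance
  have h4 : (B.subgroupOf (kerOn A f hf)).FG := (Group.fg_iff_subgroup_fg _).mp h3
  have h5 := fg_map (kerOn A f hf).subtype h4
  have h6 : (B.subgroupOf (kerOn A f hf)).map (kerOn A f hf).subtype =
      kerOn B f (hf.mono hBA) := by
    ext x
    constructor
    · rintro ⟨y, hy, rfl⟩
      exact ⟨hy, y.2.2⟩
    · rintro ⟨h1, h2⟩
      exact ⟨⟨x, hBA h1, h2⟩, h1, rfl⟩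
  rwa [h6] at h5

/-- Stabilizers in a group acting such that a subgroup has finitely many orbits. -/
theorem stab_fg {ι : Type} [Finite ι] [Nonempty ι] {G : ι → Type u} [∀ i, Group (G i)] {H : Type u}
    [Group H] {φ : ∀ i, H →* G i} {Γ : Type u} [Group Γ] {o : ∀ i, G i →* Γ} (hΓ : Amalg φ o)
    {X : Type u} [MulAction Γ X] (x0 : X) (X0 : Set X) (hX0 : X0.Finite)
    (hH : ∀ x : X, ∃ h : H, ∀ i, o i (φ i h) • x ∈ X0)
    (hst : ∀ i, ∀ x ∈ X0, ((MulAction.stabilizer Γ x).comap (o i)).FG) :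
    (MulAction.stabilizer Γ x0).FG := by
  classical
  obtain ⟨i0⟩ := ‹Nonempty ι›
  choose h hh using hH
  -- representatives in the orbit
  have hp : ∀ x : X, ∃ p : Γ, ∀ γ : Γ, γ • x0 = x → p • x0 = x := by
    intro x
    by_cases hx : ∃ γ : Γ, γ • x0 = x
    · obtain ⟨γ, hγ⟩ := hx
      exact ⟨γ, fun _ _ => hγ⟩
    · exact ⟨1, fun γ hγ => absurd ⟨γ, hγ⟩ hx⟩
  choose p hp using hp
  have hg : ∀ i (x x' : X), ∃ g : G i, ∀ g' : G i, o i g' • x = x' → o i g • x = x' := by
    intro i x x'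
    by_cases hx : ∃ g' : G i, o i g' • x = x'
    · obtain ⟨g', hg'⟩ := hx
      exact ⟨g', fun _ _ => hg'⟩
    · exact ⟨1, fun γ hγ => absurd ⟨γ, hγ⟩ hx⟩
  choose g hg using hg
  have hS : ∀ i (x : X), ∃ S : Set (G i), x ∈ X0 →
      Subgroup.closure S = (MulAction.stabilizer Γ x).comap (o i) ∧ S.Finite := by
    intro i x
    by_cases hx : x ∈ X0
    · obtain ⟨S, hS⟩ := (Subgroup.fg_iff _).mp (hst i x hx)
      exact ⟨S, fun _ => hS⟩
    · exact ⟨∅, fun h => absurd h hx⟩
  choose S hS using hS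
  let r : X → Γ := fun y => (o i0 (φ i0 (h y)))⁻¹ * p (o i0 (φ i0 (h y)) • y)
  have hr : ∀ γ : Γ, r (γ • x0) • x0 = γ • x0 := by
    intro γ
    have h1 := hp (o i0 (φ i0 (h (γ • x0))) • γ • x0) (o i0 (φ i0 (h (γ • x0))) * γ)
      (mul_smul _ _ _)
    show ((o i0 (φ i0 (h (γ • x0))))⁻¹ * p (o i0 (φ i0 (h (γ • x0))) • γ • x0)) • x0 = _
    rw [mul_smul, h1, inv_smul_smul]
  let E1 : Set Γ := ⋃ i, (fun q : X × X => (p q.2)⁻¹ * o i (g i q.1 q.2) * p q.1) '' (X0 ×ˢ X0)
  let E2 : Set Γ := ⋃ i, ⋃ x ∈ X0, (fun s => (p x)⁻¹ * o i s * p x) '' (S i x)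
  let E : Set Γ := (E1 ∪ E2 ∪ {r x0}) ∩ {γ | γ • x0 = x0}
  let D := Subgroup.closure E
  have hE1 : E1.Finite := Set.finite_iUnion fun i => (hX0.prod hX0).image _
  have hE2 : E2.Finite := Set.finite_iUnion fun i => hX0.biUnion fun x hx => (hS i x hx).2.image _
  have hEfin : E.Finite :=
    ((hE1.union hE2).union (Set.finite_singleton _)).subset Set.inter_subset_left
  -- the key property
  let Q : Subgroup Γ :=
    { carrier := {γ | ∀ δ : Γ, (r (γ • δ • x0))⁻¹ * γ * r (δ • x0) ∈ D}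
      mul_mem' := by
        rintro a b ha hb δ
        have h1 := ha (b * δ)
        have h2 := hb δ
        rw [mul_smul] at h1
        have h3 := D.mul_mem h1 h2
        rw [mul_smul]
        convert h3 using 1
        group
      one_mem' := by
        intro δ
        rw [one_smul, mul_one, inv_mul_cancel]
        exact D.one_mem
      inv_mem' := by
        rintro a ha δ
        have h1 := D.inv_mem (ha (a⁻¹ * δ))
        rw [mul_smul, smul_inv_smul] at h1
        convert h1 using 1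
        group }
  have hQ : ∀ i (γ : G i), o i γ ∈ Q := by
    intro i γ δ
    set y := δ • x0 with hy
    set x := o i0 (φ i0 (h y)) • y with hx
    set y' := o i γ • y with hy'
    set x' := o i0 (φ i0 (h y')) • y' with hx'
    have hxX : x ∈ X0 := hh y i0
    have hxX' : x' ∈ X0 := hh y' i0
    have hor : ∃ γ : Γ, γ • x0 = x := ⟨o i0 (φ i0 (h y)) * δ, by rw [mul_smul]⟩
    let g1 : G i := φ i (h y') * γ * (φ i (h y))⁻¹
    have hg1 : o i g1 • x = x' := by
      show o i (φ i (h y') * γ * (φ i (h y))⁻¹) • x = x'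
      rw [map_mul, map_mul, map_inv, hΓ.comp i i0, hΓ.comp i i0, mul_smul, mul_smul, hx,
        inv_smul_smul]
    have hg2 : o i (g i x x') • x = x' := hg i x x' g1 hg1
    have hs : (g i x x')⁻¹ * g1 ∈ Subgroup.closure (S i x) := by
      rw [(hS i x hxX).1]
      show o i ((g i x x')⁻¹ * g1) • x = x
      rw [map_mul, map_inv, mul_smul, hg1]
      exact inv_smul_eq_iff.mpr hg2.symm
    have h1 : (r y')⁻¹ * o i γ * r y = (p x')⁻¹ * o i g1 * p x := by
      show ((o i0 (φ i0 (h y')))⁻¹ * p x')⁻¹ * o i γ * ((o i0 (φ i0 (h y)))⁻¹ * p x) = _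
      have h2 : o i g1 = o i0 (φ i0 (h y')) * o i γ * (o i0 (φ i0 (h y)))⁻¹ := by
        show o i (φ i (h y') * γ * (φ i (h y))⁻¹) = _
        rw [map_mul, map_mul, map_inv, hΓ.comp i i0, hΓ.comp i i0]
      rw [h2]
      group
    rw [h1]
    have h3 : (p x')⁻¹ * o i g1 * p x = ((p x')⁻¹ * o i (g i x x') * p x) *
        ((p x)⁻¹ * o i ((g i x x')⁻¹ * g1) * p x) := by
      rw [map_mul (o i) (g i x x')⁻¹ g1, map_inv]
      group
    rw [h3]
    have hor' : ∃ γ : Γ, γ • x0 = x' := by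
      obtain ⟨γ', hγ'⟩ := hor
      exact ⟨o i g1 * γ', by rw [mul_smul, hγ', hg1]⟩
    have hpx : p x • x0 = x := hp x _ hor.choose_spec
    have hpx' : p x' • x0 = x' := hp x' _ hor'.choose_spec
    apply D.mul_mem
    · apply Subgroup.subset_closure
      constructor
      · left
        left
        exact Set.mem_iUnion.mpr ⟨i, ⟨(x, x'), ⟨hxX, hxX'⟩, rfl⟩⟩
      · show ((p x')⁻¹ * o i (g i x x') * p x) • x0 = x0
        rw [mul_smul, mul_smul, hpx, hg2]
        exact inv_smul_eq_iff.mpr hpx'.symm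
    · generalize (g i x x')⁻¹ * g1 = s at hs
      induction hs using Subgroup.closure_induction with
      | mem s hs =>
        have hs' : o i s • x = x := by
          have h4 : s ∈ Subgroup.closure (S i x) := Subgroup.subset_closure hs
          rw [(hS i x hxX).1] at h4
          exact h4
        apply Subgroup.subset_closure
        constructor
        · left
          right
          exact Set.mem_iUnion.mpr ⟨i, Set.mem_iUnion₂.mpr ⟨x, hxX, ⟨s, hs, rfl⟩⟩⟩
        · show ((p x)⁻¹ * o i s * p x) • x0 = x0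
          rw [mul_smul, mul_smul, hpx, hs']
          exact inv_smul_eq_iff.mpr hpx.symm
      | one =>
        rw [map_one, mul_one, inv_mul_cancel]
        exact D.one_mem
      | mul a b _ _ iha ihb =>
        have := D.mul_mem iha ihb
        rw [map_mul]
        convert this using 1
        group
      | inv a _ iha =>
        have := D.inv_mem iha
        rw [map_inv]
        convert this using 1
        group
  have hQtop : ∀ γ : Γ, γ ∈ Q := by
    intro γ
    obtain ⟨L, rfl⟩ := hΓ.gen γ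
    apply Subgroup.list_prod_mem
    intro x hx
    obtain ⟨q, _, rfl⟩ := List.mem_map.mp hx
    exact hQ q.1 q.2
  have hr0 : r x0 • x0 = x0 := by
    have := hr 1
    rwa [one_smul] at this
  have hD : D = MulAction.stabilizer Γ x0 := by
    apply le_antisymm
    · rw [Subgroup.closure_le]
      intro x hx
      exact hx.2
    · intro γ hγ
      have h1 : γ • x0 = x0 := hγ
      have h2 := hQtop γ 1
      rw [one_smul, h1] at h2
      have h3 : r x0 ∈ D := Subgroup.subset_closure ⟨Or.inr rfl, hr0⟩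
      have h4 := D.mul_mem (D.mul_mem h3 h2) (D.inv_mem h3)
      convert h4 using 1
      group
  rw [Subgroup.fg_iff]
  exact ⟨_, hD, hEfin⟩

end Pool.Agent.R632.VRC
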