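import Pool.Agent.R632.VRC.Fib2

/-! Virtual fibering of amalgams. -/

set_option linter.unusedSectionVars false
set_option linter.dupNamespace false

namespace Pool.Agent.R632.VRC

universe u

/-- the homomorphism given by a virtual retraction to an infinite virtually cyclic subgroup -/
lemma retract_hom {P H : Type u} [Group P] [Group H] (φ : H →* P) (c : H) (hinf : ∀ n : ℤ, c ^ n = 1 → n = 0) (hc : (Subgroup.zpowers c).FiniteIndex)
    (K : Subgroup P) (hK : K.FiniteIndex) (hφK : ∀ h, φ h ∈ K) (r : K →* H)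
    (hr : ∀ h, r ⟨φ h, hφK h⟩ = h) :
    ∃ K' : Subgroup P, K'.FiniteIndex ∧ (∀ h, φ h ∈ K' → h ∈ Subgroup.zpowers c) ∧
      φ c ∈ K' ∧ ∃ f : P → ℤ, HomOn K' f ∧ f (φ c) = 1 := by
  classical
  have hfi : ((Subgroup.zpowers c).comap r).FiniteIndex := by
    constructor
    rw [Subgroup.index_comap]
    intro h0
    have h1 : r.range = ⊤ := by
      rw [MonoidHom.range_eq_top]
      exact fun h => ⟨_, hr h⟩
    rw [h1, Subgroup.relIndex_top_right] at h0
    exact hc.index_ne_zero h0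
  have hinj : ∀ a b : ℤ, c ^ a = c ^ b → a = b := by
    intro a b h
    have : c ^ (a - b) = 1 := by rw [zpow_sub, h, mul_inv_cancel]
    have := hinf _ this
    omega
  refine ⟨((Subgroup.zpowers c).comap r).map K.subtype, ?_, ?_, ?_,
    fun x => if h : ∃ (hx : x ∈ K) (n : ℤ), c ^ n = r ⟨x, hx⟩ then h.choose_spec.choose else 0,
    ?_, ?_⟩
  · constructor
    rw [Subgroup.index_map_subtype]
    exact mul_ne_zero hfi.index_ne_zero hK.index_ne_zero
  · rintro h ⟨k, hk, hk'⟩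
    have h1 : k = ⟨φ h, hφK h⟩ := Subtype.ext hk'
    rw [h1] at hk
    have h2 : r ⟨φ h, hφK h⟩ ∈ Subgroup.zpowers c := hk
    rwa [hr] at h2
  · refine ⟨⟨φ c, hφK c⟩, ?_, rfl⟩
    show r ⟨φ c, hφK c⟩ ∈ Subgroup.zpowers c
    rw [hr]
    exact Subgroup.mem_zpowers c
  · have hspec : ∀ x ∈ ((Subgroup.zpowers c).comap r).map K.subtype,
        ∃ h : ∃ (hx : x ∈ K) (n : ℤ), c ^ n = r ⟨x, hx⟩, c ^ h.choose_spec.choose =
          r ⟨x, h.choose⟩ := by
      rintro _ ⟨k, hk, rfl⟩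
      obtain ⟨n, hn⟩ := hk
      have h : ∃ (hx : (k : P) ∈ K) (n : ℤ), c ^ n = r ⟨k, hx⟩ := ⟨k.2, n, hn⟩
      exact ⟨h, h.choose_spec.choose_spec⟩
    intro a ha b hb
    have hab := Subgroup.mul_mem _ ha hb
    obtain ⟨h1, h1'⟩ := hspec a ha
    obtain ⟨h2, h2'⟩ := hspec b hb
    obtain ⟨h3, h3'⟩ := hspec (a * b) hab
    simp only [dif_pos h1, dif_pos h2, dif_pos h3]
    apply hinj
    rw [h3', zpow_add, h1', h2', ← map_mul]
    rfl
  · have h : ∃ (hx : φ c ∈ K) (n : ℤ), c ^ n = r ⟨φ c, hx⟩ :=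
      ⟨hφK c, 1, by rw [hr, zpow_one]⟩
    simp only [dif_pos h]
    apply hinj
    rw [h.choose_spec.choose_spec, zpow_one]
    exact hr c

variable {ι : Type} [Fintype ι] [DecidableEq ι] [Nonempty ι] {G : ι → Type u} [∀ i, Group (G i)]
  {H : Type u} [Group H] {φ : ∀ i, H →* G i} {Γ : Type u} [Group Γ] {o : ∀ i, G i →* Γ}

/-- the action on the product of `Ω` with the integers -/
@[reducible] def wrAct {Ω : Type u} (ρ : Γ →* Wr Ω) : MulAction Γ (Ω × ℤ) where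
  smul γ x := ((ρ γ).s x.1, x.2 + (ρ γ).t x.1)
  one_smul x := by
    show ((ρ 1).s x.1, x.2 + (ρ 1).t x.1) = x
    rw [map_one]
    exact Prod.ext rfl (by show x.2 + 0 = x.2; rw [add_zero])
  mul_smul a b x := by
    show ((ρ (a * b)).s x.1, x.2 + (ρ (a * b)).t x.1) =
      ((ρ a).s ((ρ b).s x.1), x.2 + (ρ b).t x.1 + (ρ a).t ((ρ b).s x.1))
    rw [map_mul, Wr.mul_t]
    exact Prod.ext rfl (by show _ + _ = _; ring)

/-- Amalgams of virtually fibered groups over infinite virtually cyclic virtual retracts are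
virtually fibered. -/
theorem fibered_amalgam (hΓ : Amalg φ o) (c : H)
    (hinf : ∀ n : ℤ, c ^ n = 1 → n = 0) (hc : (Subgroup.zpowers c).FiniteIndex)
    (K : ∀ i, Subgroup (G i)) (hK : ∀ i, (K i).FiniteIndex) (hφK : ∀ i h, φ i h ∈ K i)
    (r : ∀ i, K i →* H) (hr : ∀ i h, r i ⟨φ i h, hφK i h⟩ = h)
    (L : ∀ i, Subgroup (G i)) (hL : ∀ i, (L i).FiniteIndex) (θ : ∀ i, G i → ℤ)
    (hθ : ∀ i, HomOn (L i) (θ i)) (hθ0 : ∀ i, ∃ x ∈ L i, θ i x ≠ 0)
    (hθfg : ∀ i, (kerOn (L i) (θ i) (hθ i)).FG) :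
    ∃ (Γ1 : Subgroup Γ) (F : Γ → ℤ) (hF : HomOn Γ1 F), Γ1.FiniteIndex ∧ (∃ x ∈ Γ1, F x ≠ 0) ∧
      (kerOn Γ1 F hF).FG := by
  classical
  have h1 := fun i => retract_hom (φ i) c hinf hc (K i) (hK i) (hφK i) (r i) (hr i)
  choose K' hK' hK'c hcK' f hf hfc using h1
  obtain ⟨A, hA, hAf, hAK, hAL, H0, c0, hH0, hc0, hinf0, hfc0⟩ := match_traces (φ := φ) c hinf
    K' hK' hK'c hcK' f hf (fun i => by rw [hfc]; exact one_ne_zero) L hL
  have hc0H : c0 ∈ H0 := (hc0 c0).mpr ⟨1, (zpow_one c0).symm⟩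
  have hc0A : ∀ i, φ i c0 ∈ A i := fun i => (hH0 i c0).mpr hc0H
  -- the fibrations
  have h2 : ∀ i, ∃ f' : G i → ℤ, ∃ hf' : HomOn (A i) f',
      (∀ p, f' (p⁻¹ * φ i c0 * p) ≠ 0) ∧ (kerOn (A i) f' hf').FG := by
    intro i
    have hAi := hA i
    obtain ⟨g, hg, hg0⟩ := generic (hAf i) ((hf i).mono (hAK i)) (hc0A i) (hfc0 i)
    have hθA := (hθ i).mono (hAL i)
    have hfgA := kerOn_restrict (hAL i) (hAf i) (hθ i) (hθfg i)
    have hθA0 : ∃ x ∈ A i, θ i x ≠ 0 := by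
      obtain ⟨x, hx, hx0⟩ := hθ0 i
      obtain ⟨m, hm0, _, hm⟩ := Subgroup.exists_pow_mem_of_index_ne_zero
        (hAf i).index_ne_zero x
      refine ⟨x ^ m, hm, ?_⟩
      rw [← zpow_natCast, (hθ i).zpow hx]
      exact mul_ne_zero (by exact_mod_cast hm0.ne') hx0
    obtain ⟨N0, hN0⟩ := open_fg hθA hg hfgA hθA0
    obtain ⟨N1, hN1⟩ := avoid (conj_finite (hAf i) hg hθA (hc0A i))
    refine ⟨fun x => g x + max N0 N1 * θ i x, hg.lin hθA _, fun p => ?_,
      hN0 _ (le_max_left _ _)⟩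
    refine hN1 _ (le_max_right _ _) (g (p⁻¹ * φ i c0 * p), θ i (p⁻¹ * φ i c0 * p)) ⟨p, rfl⟩ ?_
    intro h0
    exact hg0 p (congrArg Prod.fst h0)
  choose f' hf' hne hfg' using h2
  obtain ⟨i0⟩ := ‹Nonempty ι›
  obtain ⟨Ω, hΩ, ⟨ω0⟩, ρ, hρ⟩ := free_cocycle hΓ A hA hAf H0 hH0 c0 hc0 f' hf' hne i0
  let hact : MulAction Γ (Ω × ℤ) := wrAct ρ
  have hsm : ∀ (γ : Γ) (x : Ω × ℤ), γ • x = ((ρ γ).s x.1, x.2 + (ρ γ).t x.1) := fun _ _ => rfl
  -- the finite index subgroup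
  let Γ1 : Subgroup Γ :=
    { carrier := {γ | (ρ γ).s ω0 = ω0}
      mul_mem' := fun {a b} ha hb => by
        show (ρ (a * b)).s ω0 = ω0
        rw [rho_s, hb, ha]
      one_mem' := by
        show (ρ 1).s ω0 = ω0
        rw [map_one]
        rfl
      inv_mem' := fun {a} ha => by
        show (ρ a⁻¹).s ω0 = ω0
        have h3 : (ρ a).s ω0 = ω0 := ha
        conv_lhs => rw [← h3]
        rw [← rho_s, inv_mul_cancel, map_one]
        rfl }
  let F : Γ → ℤ := fun γ => (ρ γ).t ω0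
  have hF : HomOn Γ1 F := by
    intro a ha b hb
    show (ρ (a * b)).t ω0 = _
    have h3 : (ρ b).s ω0 = ω0 := hb
    rw [rho_t, h3]
  have hV : ∀ ω, ∃ V : ℤ, V ≠ 0 ∧ ∀ i, (ρ (o i (φ i c0))).s ω = ω ∧
      (ρ (o i (φ i c0))).t ω = V := by
    intro ω
    obtain ⟨p, μ, hμ, hp⟩ := (hρ i0 ω).2
    refine ⟨(ρ (o i0 (φ i0 c0))).t ω, ?_, fun i => ?_⟩
    · rw [hp _ (hc0A i0)]
      exact mul_ne_zero hμ (hne i0 p)
    · rw [hΓ.comp i i0]
      exact ⟨((hρ i0 ω).1 _).mpr (hc0A i0), rfl⟩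
  choose V hV0 hV using hV
  obtain ⟨M, hM⟩ : ∃ M : ℤ, ∀ ω, |V ω| ≤ M := by
    obtain ⟨M, hM⟩ := (Set.finite_range (fun ω => |V ω|)).bddAbove
    exact ⟨M, fun ω => hM ⟨ω, rfl⟩⟩
  refine ⟨Γ1, F, hF, ?_, ⟨o i0 (φ i0 c0), (hV ω0 i0).1, ?_⟩, ?_⟩
  · have h3 : ((Wr.perm.comp ρ).ker).FiniteIndex := inferInstance
    refine Subgroup.finiteIndex_of_le (H := (Wr.perm.comp ρ).ker) ?_
    intro x hx
    show (ρ x).s ω0 = ω0
    have h4 : (ρ x).s = 1 := hx
    rw [h4]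
    rfl
  · show (ρ (o i0 (φ i0 c0))).t ω0 ≠ 0
    rw [(hV ω0 i0).2]
    exact hV0 ω0
  · have h3 : kerOn Γ1 F hF = MulAction.stabilizer Γ ((ω0, 0) : Ω × ℤ) := by
      ext x
      constructor
      · rintro ⟨h4, h5⟩
        have h4' : (ρ x).s ω0 = ω0 := h4
        have h5' : (ρ x).t ω0 = 0 := h5
        show x • ((ω0, 0) : Ω × ℤ) = (ω0, 0)
        rw [hsm]
        exact Prod.ext h4' (by show 0 + (ρ x).t ω0 = 0; rw [h5']; rfl)
      · intro h4
        have h5 : x • ((ω0, 0) : Ω × ℤ) = (ω0, 0) := h4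
        rw [hsm] at h5
        have h6 : (ρ x).s ω0 = ω0 := congrArg Prod.fst h5
        have h7 : 0 + (ρ x).t ω0 = 0 := congrArg Prod.snd h5
        rw [zero_add] at h7
        exact ⟨h6, h7⟩
    rw [h3]
    refine stab_fg hΓ (ω0, 0) (Set.univ ×ˢ Set.Icc (-M) M)
      ((Set.finite_univ).prod (Set.finite_Icc _ _)) ?_ ?_
    · rintro ⟨ω, z⟩
      refine ⟨c0 ^ (-(z / V ω)), fun i => ?_⟩
      have h5 : ∀ z : ℤ, (o i (φ i c0)) • ((ω, z) : Ω × ℤ) = (ω, z + V ω) := by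
        intro z
        rw [hsm]
        exact Prod.ext (hV ω i).1 (by show z + (ρ (o i (φ i c0))).t ω = _; rw [(hV ω i).2])
      have h6 : ∀ z : ℤ, (o i (φ i c0))⁻¹ • ((ω, z) : Ω × ℤ) = (ω, z - V ω) := by
        intro z
        rw [inv_smul_eq_iff, h5, sub_add_cancel]
      have h4 : ∀ (n z : ℤ), (o i (φ i c0)) ^ n • ((ω, z) : Ω × ℤ) = (ω, z + n * V ω) := by
        intro n
        induction n using Int.induction_on with
        | zero => intro z; rw [zpow_zero, one_smul, zero_mul, add_zero]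
        | succ k ih =>
          intro z
          rw [zpow_add_one, mul_smul, h5, ih]
          exact Prod.ext rfl (by show _ + _ = _; ring)
        | pred k ih =>
          intro z
          rw [zpow_sub_one, mul_smul, h6, ih]
          exact Prod.ext rfl (by show _ + _ = _; ring)
      rw [map_zpow, map_zpow, h4]
      refine ⟨trivial, ?_⟩
      have h7 : z + -(z / V ω) * V ω = z % V ω := by
        have := Int.emod_add_mul_ediv z (V ω)
        linarith
      show z + -(z / V ω) * V ω ∈ Set.Icc (-M) M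
      rw [h7]
      have h8 := Int.emod_nonneg z (hV0 ω)
      have h9 := Int.emod_lt_abs z (hV0 ω)
      have h10 := hM ω
      exact ⟨by omega, by omega⟩
    · rintro i ⟨ω, z⟩ _
      obtain ⟨hst, p, μ, hμ, hp⟩ := hρ i ω
      have h4 : (MulAction.stabilizer Γ ((ω, z) : Ω × ℤ)).comap (o i) =
          (kerOn (A i) (f' i) (hf' i)).map (MulAut.conj p).toMonoidHom := by
        ext g
        constructor
        · intro hg
          have h5 : o i g • ((ω, z) : Ω × ℤ) = (ω, z) := hg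
          rw [hsm] at h5
          have h6 : (ρ (o i g)).s ω = ω := congrArg Prod.fst h5
          have h7 : z + (ρ (o i g)).t ω = z := congrArg Prod.snd h5
          have hgA := (hst g).mp h6
          rw [hp g hgA] at h7
          have h8 : f' i (p⁻¹ * g * p) = 0 := by
            have h9 : μ * f' i (p⁻¹ * g * p) = 0 := by linarith
            exact (mul_eq_zero.mp h9).resolve_left hμ
          have hAi := hA i
          refine ⟨p⁻¹ * g * p, ⟨conj_mem' hgA p, h8⟩, ?_⟩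
          show p * (p⁻¹ * g * p) * p⁻¹ = g
          group
        · rintro ⟨y, ⟨hy1, hy2⟩, rfl⟩
          have hgA : p * y * p⁻¹ ∈ A i := (hA i).conj_mem y hy1 p
          show o i (p * y * p⁻¹) • ((ω, z) : Ω × ℤ) = (ω, z)
          rw [hsm]
          refine Prod.ext ((hst _).mpr hgA) ?_
          show z + (ρ (o i (p * y * p⁻¹))).t ω = z
          rw [hp _ hgA]
          have h5 : p⁻¹ * (p * y * p⁻¹) * p = y := by group
          rw [h5, hy2, mul_zero, add_zero]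
      rw [h4]
      exact fg_map _ (hfg' i)

end Pool.Agent.R632.VRC
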