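import Mathlib

/-! Groups satisfying the Folner condition. -/

set_option linter.unusedSectionVars false
set_option linter.dupNamespace false

namespace Pool.Agent.R632.VRC

universe u v w

/-- the elements moved out of `F` by `s` -/
noncomputable def bad {G : Type u} [Group G] (F : Finset G) (s : G) : Finset G :=
  @Finset.filter G (fun x => s * x ∉ F) (Classical.decPred _) F

lemma mem_bad {G : Type u} [Group G] {F : Finset G} {s x : G} :
    x ∈ bad F s ↔ x ∈ F ∧ s * x ∉ F :=
  @Finset.mem_filter G (fun x => s * x ∉ F) (Classical.decPred _) F x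

/-- amenability: the Folner condition -/
def Fol (G : Type u) [Group G] : Prop :=
  ∀ (S : Finset G) (ε : ℝ), 0 < ε → ∃ F : Finset G, F.Nonempty ∧
    ∀ s ∈ S, ((bad F s).card : ℝ) ≤ ε * F.card

/-- groups exhausted by groups with the Folner condition -/
lemma Fol.local {G : Type u} [Group G]
    (h : ∀ S : Finset G, ∃ (H : Type u) (_ : Group H) (j : H →* G), Fol H ∧ Function.Injective j ∧
      ∀ s ∈ S, ∃ x, j x = s) : Fol G := by
  classical
  intro S ε hε
  obtain ⟨H, _, j, hH, hj, hS⟩ := h S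
  obtain ⟨F, hF, hF'⟩ := hH (S.preimage j hj.injOn) ε hε
  refine ⟨F.image j, hF.image j, fun s hs => ?_⟩
  obtain ⟨x, rfl⟩ := hS s hs
  have h1 := hF' x (Finset.mem_preimage.mpr hs)
  have h2 : bad (F.image j) (j x) = (bad F x).image j := by
    ext y
    simp only [mem_bad, Finset.mem_image]
    constructor
    · rintro ⟨⟨a, ha, rfl⟩, h3⟩
      refine ⟨a, ⟨ha, fun h4 => h3 ⟨x * a, h4, map_mul _ _ _⟩⟩, rfl⟩
    · rintro ⟨a, ⟨ha, h3⟩, rfl⟩
      refine ⟨⟨a, ha, rfl⟩, ?_⟩
      rintro ⟨b, hb, h4⟩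
      rw [← map_mul] at h4
      rw [hj h4] at hb
      exact h3 hb
  rw [h2, Finset.card_image_of_injective _ hj, Finset.card_image_of_injective _ hj]
  exact h1

/-- finite groups -/
lemma Fol.of_finite (G : Type u) [Group G] [Finite G] : Fol G := by
  classical
  have := Fintype.ofFinite G
  intro S ε hε
  refine ⟨Finset.univ, ⟨1, Finset.mem_univ _⟩, fun s _ => ?_⟩
  have h1 : bad Finset.univ s = ∅ := by
    ext x
    simp [mem_bad]
  rw [h1, Finset.card_empty, Nat.cast_zero]
  positivity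

/-- the integers -/
lemma Fol.int : Fol (Multiplicative ℤ) := by
  classical
  intro S ε hε
  obtain ⟨M, hM⟩ : ∃ M : ℕ, ∀ s ∈ S, (s.toAdd).natAbs ≤ M := by
    refine ⟨S.sup (fun s => (s.toAdd).natAbs), fun s hs => Finset.le_sup (f := fun s =>
      (Multiplicative.toAdd s).natAbs) hs⟩
  obtain ⟨n, hn⟩ := exists_nat_gt ((M : ℝ) / ε)
  have hn0 : 0 < n := by
    rcases Nat.eq_zero_or_pos n with h | h
    · rw [h] at hn
      have : (0 : ℝ) ≤ M / ε := by positivity
      push_cast at hn
      linarith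
    · exact h
  let F : Finset (Multiplicative ℤ) :=
    (Finset.Ico (0 : ℤ) n).image Multiplicative.ofAdd
  have hcard : F.card = n := by
    rw [Finset.card_image_of_injective _ Multiplicative.ofAdd.injective, Int.card_Ico]
    simp
  refine ⟨F, ⟨Multiplicative.ofAdd 0, Finset.mem_image.mpr ⟨0, by simp [hn0], rfl⟩⟩,
    fun s hs => ?_⟩
  have h1 : (bad F s).card ≤ M := by
    have h2 : bad F s ⊆
        ((Finset.Ico (0 : ℤ) (-s.toAdd)) ∪ (Finset.Ico ((n : ℤ) - s.toAdd) n)).image
          Multiplicative.ofAdd := by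
      intro x hx
      rw [mem_bad] at hx
      obtain ⟨hx1, hx2⟩ := hx
      obtain ⟨y, hy, rfl⟩ := Finset.mem_image.mp hx1
      rw [Finset.mem_Ico] at hy
      refine Finset.mem_image.mpr ⟨y, ?_, rfl⟩
      by_contra h3
      apply hx2
      refine Finset.mem_image.mpr ⟨s.toAdd + y, ?_, rfl⟩
      rw [Finset.mem_union, Finset.mem_Ico, Finset.mem_Ico] at h3
      rw [Finset.mem_Ico]
      omega
    refine (Finset.card_le_card h2).trans ?_
    refine Finset.card_image_le.trans ?_
    have h3 := hM s hs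
    rcases le_or_gt 0 s.toAdd with h | h
    · have h4 : Finset.Ico (0 : ℤ) (-s.toAdd) = ∅ := Finset.Ico_eq_empty (by omega)
      rw [h4, Finset.empty_union, Int.card_Ico]
      omega
    · have h4 : Finset.Ico ((n : ℤ) - s.toAdd) n = ∅ := Finset.Ico_eq_empty (by omega)
      rw [h4, Finset.union_empty, Int.card_Ico]
      omega
  rw [hcard]
  have h2 : (M : ℝ) < n * ε := by rwa [div_lt_iff₀ hε] at hn
  have h3 : ((bad F s).card : ℝ) ≤ M := by exact_mod_cast h1
  linarith

/-- subgroups -/
lemma Fol.of_injective {G : Type u} {H : Type v} [Group G] [Group H] (hG : Fol G) (j : H →* G)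
    (hj : Function.Injective j) : Fol H := by
  classical
  intro S ε hε
  obtain ⟨F, hF, hF'⟩ := hG (S.image j) (ε / (S.card + 1)) (by positivity)
  let r : Setoid G := QuotientGroup.rightRel j.range
  let q : G → Quotient r := fun x => Quotient.mk r x
  have hq : ∀ (h : H) (x : G), q (j h * x) = q x := by
    intro h x
    apply Quotient.sound
    show QuotientGroup.rightRel j.range (j h * x) x
    rw [QuotientGroup.rightRel_apply]
    refine ⟨h⁻¹, ?_⟩
    rw [map_inv, mul_inv_rev]
    group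
  have hq' : ∀ x y : G, q x = q y → ∃ h, y = j h * x := by
    intro x y hxy
    have h1 : QuotientGroup.rightRel j.range x y := Quotient.exact hxy
    rw [QuotientGroup.rightRel_apply] at h1
    obtain ⟨h, hh⟩ := h1
    exact ⟨h, by rw [hh]; group⟩
  -- averaging
  obtain ⟨c, hc, hc'⟩ : ∃ c ∈ F.image q,
      (∑ s ∈ S, ((bad F (j s)).filter (fun x => q x = c)).card : ℝ) ≤
        ε * (F.filter (fun x => q x = c)).card := by
    by_contra hcon
    push Not at hcon
    have h1 : ∑ c ∈ F.image q, ε * ((F.filter (fun x => q x = c)).card : ℝ) <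
        ∑ c ∈ F.image q, ∑ s ∈ S,
          (((bad F (j s)).filter (fun x => q x = c)).card : ℝ) :=
      Finset.sum_lt_sum_of_nonempty (hF.image q) hcon
    rw [← Finset.mul_sum, Finset.sum_comm] at h1
    have h2 : ∑ c ∈ F.image q, ((F.filter (fun x => q x = c)).card : ℝ) = F.card := by
      rw [← Nat.cast_sum, ← Finset.card_eq_sum_card_image]
    have h3 : ∀ s ∈ S, ∑ c ∈ F.image q,
        (((bad F (j s)).filter (fun x => q x = c)).card : ℝ) ≤
          ε / (S.card + 1) * F.card := by
      intro s hs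
      rw [← Nat.cast_sum]
      have h4 : ∑ c ∈ F.image q, ((bad F (j s)).filter (fun x => q x = c)).card =
            (bad F (j s)).card := by
        symm
        apply Finset.card_eq_sum_card_fiberwise
        intro x hx
        exact Finset.mem_coe.mpr (Finset.mem_image_of_mem _
          (mem_bad.mp (Finset.mem_coe.mp hx)).1)
      rw [h4]
      exact hF' (j s) (Finset.mem_image_of_mem _ hs)
    have h4 := Finset.sum_le_sum h3
    rw [Finset.sum_const, nsmul_eq_mul] at h4
    rw [h2] at h1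
    have h5 : (0 : ℝ) < F.card := by exact_mod_cast hF.card_pos
    have h6 : (S.card : ℝ) * (ε / (S.card + 1) * F.card) ≤ ε * F.card := by
      have h7 : (S.card : ℝ) * (ε / (S.card + 1) * F.card) =
        (S.card / (S.card + 1)) * (ε * F.card) := by ring
      rw [h7]
      have h8 : (S.card : ℝ) / (S.card + 1) ≤ 1 := by
        rw [div_le_one (by positivity)]
        linarith
      have h9 : 0 ≤ ε * F.card := by positivity
      nlinarith
    linarith
  obtain ⟨x, hx, rfl⟩ := Finset.mem_image.mp hc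
  have hinj : Function.Injective (fun h : H => j h * x) := fun a b hab =>
    hj (mul_right_cancel hab)
  let F₁ : Finset H := F.preimage (fun h => j h * x) hinj.injOn
  have hmem : ∀ h, h ∈ F₁ ↔ j h * x ∈ F := fun h => Finset.mem_preimage
  have hcard : F₁.card = (F.filter (fun y => q y = q x)).card := by
    rw [← Finset.card_image_of_injective F₁ hinj]
    congr 1
    ext y
    simp only [Finset.mem_image, Finset.mem_filter]
    constructor
    · rintro ⟨h, hh, rfl⟩
      exact ⟨(hmem h).mp hh, hq h x⟩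
    · rintro ⟨hy, hy'⟩
      obtain ⟨h, hh⟩ := hq' x y hy'.symm
      exact ⟨h, (hmem h).mpr (by rw [← hh]; exact hy), hh.symm⟩
  refine ⟨F₁, ⟨1, (hmem 1).mpr (by rw [map_one, one_mul]; exact hx)⟩, fun s hs => ?_⟩
  have h1 : (bad F₁ s).card = ((bad F (j s)).filter (fun y => q y = q x)).card := by
    rw [← Finset.card_image_of_injective _ hinj]
    congr 1
    ext y
    simp only [Finset.mem_image, Finset.mem_filter, mem_bad, hmem]
    constructor
    · rintro ⟨h, ⟨hh, hh'⟩, rfl⟩
      rw [map_mul, mul_assoc] at hh'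
      exact ⟨⟨hh, hh'⟩, hq h x⟩
    · rintro ⟨⟨hy, hy'⟩, hy''⟩
      obtain ⟨h, hh⟩ := hq' x y hy''.symm
      refine ⟨h, ⟨by rw [← hh]; exact hy, ?_⟩, hh.symm⟩
      rw [map_mul, mul_assoc, ← hh]
      exact hy'
  rw [h1, hcard]
  refine le_trans ?_ hc'
  exact Finset.single_le_sum (f := fun s => (((bad F (j s)).filter
    (fun y => q y = q x)).card : ℝ)) (fun _ _ => by positivity) hs

/-- extensions -/
lemma Fol.ext_surj {G : Type u} {Q : Type v} [Group G] [Group Q] (π : G →* Q) (hπ : Function.Surjective π)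
    (hQ : Fol Q) (hN : Fol π.ker) : Fol G := by
  classical
  intro S ε hε
  obtain ⟨FQ, hFQ, hFQ'⟩ := hQ (S.image π) (ε / 2) (by positivity)
  let σ : Q → G := Function.surjInv hπ
  have hσ : ∀ x, π (σ x) = x := Function.surjInv_eq hπ
  have hnmem : ∀ s x, (σ (π s * x))⁻¹ * s * σ x ∈ π.ker := by
    intro s x
    rw [MonoidHom.mem_ker, map_mul, map_mul, map_inv, hσ, hσ]
    group
  let nn : G × Q → π.ker := fun p => ⟨(σ (π p.1 * p.2))⁻¹ * p.1 * σ p.2, hnmem _ _⟩
  obtain ⟨FN, hFN, hFN'⟩ := hN ((S ×ˢ FQ).image nn) (ε / 2) (by positivity)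
  let m : Q × π.ker → G := fun p => σ p.1 * p.2
  have hm : Function.Injective m := by
    rintro ⟨a, b⟩ ⟨a', b'⟩ h
    have h1 : π (σ a * b) = π (σ a' * b') := congrArg π h
    rw [map_mul, map_mul, hσ, hσ, b.2, b'.2, mul_one, mul_one] at h1
    subst h1
    have h2 : σ a * b = σ a * b' := h
    rw [Subtype.ext (mul_left_cancel h2)]
  refine ⟨(FQ ×ˢ FN).image m, (hFQ.product hFN).image m, fun s hs => ?_⟩
  have h1 : bad ((FQ ×ˢ FN).image m) s ⊆
      ((bad FQ (π s) ×ˢ FN) ∪
        FQ.biUnion (fun x => {x} ×ˢ bad FN (nn (s, x)))).image m := by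
    intro z hz
    rw [mem_bad] at hz
    obtain ⟨hz1, hz2⟩ := hz
    obtain ⟨⟨x, y⟩, hxy, rfl⟩ := Finset.mem_image.mp hz1
    rw [Finset.mem_product] at hxy
    refine Finset.mem_image.mpr ⟨(x, y), ?_, rfl⟩
    rw [Finset.mem_union]
    by_contra hcon
    push Not at hcon
    obtain ⟨hc1, hc2⟩ := hcon
    have hx : π s * x ∈ FQ := by
      by_contra h
      exact hc1 (Finset.mem_product.mpr ⟨mem_bad.mpr ⟨hxy.1, h⟩, hxy.2⟩)
    have hy : nn (s, x) * y ∈ FN := by
      by_contra h
      exact hc2 (Finset.mem_biUnion.mpr ⟨x, hxy.1, Finset.mem_product.mpr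
        ⟨Finset.mem_singleton_self x, mem_bad.mpr ⟨hxy.2, h⟩⟩⟩)
    apply hz2
    refine Finset.mem_image.mpr ⟨(π s * x, nn (s, x) * y), Finset.mem_product.mpr ⟨hx, hy⟩, ?_⟩
    show σ (π s * x) * ((σ (π s * x))⁻¹ * s * σ x * y) = s * (σ x * y)
    group
  have h2 : (bad ((FQ ×ˢ FN).image m) s).card ≤
      (bad FQ (π s)).card * FN.card + ∑ x ∈ FQ, (bad FN (nn (s, x))).card := by
    have h3 := (Finset.card_le_card h1).trans (Finset.card_image_le.trans
      ((Finset.card_union_le _ _).trans (Nat.add_le_add_left Finset.card_biUnion_le _)))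
    refine h3.trans (le_of_eq ?_)
    rw [Finset.card_product]
    congr 1
    apply Finset.sum_congr rfl
    intro x _
    rw [Finset.card_product, Finset.card_singleton, one_mul]
  rw [Finset.card_image_of_injective _ hm, Finset.card_product]
  have h3 := hFQ' (π s) (Finset.mem_image_of_mem _ hs)
  have h4 : ∑ x ∈ FQ, ((bad FN (nn (s, x))).card : ℝ) ≤ ∑ x ∈ FQ, ε / 2 * (FN.card : ℝ) := by
    apply Finset.sum_le_sum
    intro x hx
    exact hFN' _ (Finset.mem_image_of_mem _ (Finset.mem_product.mpr ⟨hs, hx⟩))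
  rw [Finset.sum_const, nsmul_eq_mul] at h4
  have h5 : (0 : ℝ) ≤ FN.card := by positivity
  have h6 : ((bad ((FQ ×ˢ FN).image m) s).card : ℝ) ≤
      (bad FQ (π s)).card * FN.card + ∑ x ∈ FQ, ((bad FN (nn (s, x))).card : ℝ) := by
    exact_mod_cast h2
  refine h6.trans ?_
  generalize ∑ x ∈ FQ, ((bad FN (nn (s, x))).card : ℝ) = a1 at h4 ⊢
  generalize ((bad FQ (π s)).card : ℝ) = a2 at h3 ⊢
  have h7 := mul_le_mul_of_nonneg_right h3 h5
  push_cast
  linarith

/-- extensions -/
lemma Fol.extn {G : Type u} {Q : Type v} [Group G] [Group Q] (π : G →* Q)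
    (hQ : Fol Q) (hN : Fol π.ker) : Fol G := by
  refine Fol.ext_surj π.rangeRestrict π.rangeRestrict_surjective
    (hQ.of_injective π.range.subtype π.range.subtype_injective) ?_
  rw [MonoidHom.ker_rangeRestrict]
  exact hN

/-- extensions, with the kernel embedded in a group with the Folner condition -/
lemma Fol.ext' {G : Type u} {Q : Type v} {N : Type w} [Group G] [Group Q] [Group N] (π : G →* Q)
    (hQ : Fol Q) (hN : Fol N) (j : π.ker →* N) (hj : Function.Injective j) : Fol G :=
  Fol.extn π hQ (hN.of_injective j hj)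

lemma Fol.trivial (G : Type u) [Group G] [Subsingleton G] : Fol G := Fol.of_finite G

lemma Fol.prod {G : Type u} {Q : Type v} [Group G] [Group Q] (hG : Fol G) (hQ : Fol Q) : Fol (G × Q) := by
  refine Fol.ext' (MonoidHom.snd G Q) hQ hG
    ((MonoidHom.fst G Q).comp (MonoidHom.snd G Q).ker.subtype) ?_
  rintro ⟨⟨a, b⟩, hb⟩ ⟨⟨a', b'⟩, hb'⟩ h
  have h1 : a = a' := h
  have h2 : b = 1 := hb
  have h3 : b' = 1 := hb'
  subst h1 h2 h3
  rfl

section finsupp

variable {X : Type v} {C : X → Type w} [∀ x, Group (C x)]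

/-- functions supported in `Y` -/
def Fs (C : X → Type w) [∀ x, Group (C x)] (Y : Set X) : Subgroup (∀ x, C x) where
  carrier := {f | ∀ x, x ∉ Y → f x = 1}
  mul_mem' := fun {a b} ha hb x hx => by
    show a x * b x = 1
    rw [ha x hx, hb x hx, one_mul]
  one_mem' := fun x _ => rfl
  inv_mem' := fun {a} ha x hx => by
    show (a x)⁻¹ = 1
    rw [ha x hx, inv_one]

lemma Fol.fs (hC : ∀ x, Fol (C x)) {Y : Set X} (hY : Y.Finite) : Fol (Fs C Y) := by
  induction Y, hY using Set.Finite.induction_on with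
  | empty =>
    have : Subsingleton (Fs C (∅ : Set X)) := ⟨fun a b => by
      apply Subtype.ext
      funext x
      rw [a.2 x (Set.notMem_empty x), b.2 x (Set.notMem_empty x)]⟩
    exact Fol.trivial _
  | @insert a Y _ _ ih =>
    let π : Fs C (insert a Y) →* C a := (Pi.evalMonoidHom C a).comp (Fs C (insert a Y)).subtype
    let j : π.ker →* Fs C Y :=
      { toFun := fun f => ⟨f.1.1, fun x hx => by
          by_cases hxa : x = a
          · subst hxa
            exact f.2
          · exact f.1.2 x (fun h => hx ((Set.mem_insert_iff.mp h).resolve_left hxa))⟩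
        map_one' := rfl
        map_mul' := fun _ _ => rfl }
    refine Fol.ext' π (hC a) ih j ?_
    intro f g h
    have h1 := congrArg Subtype.val h
    have h2 : f.1.1 = g.1.1 := h1
    exact Subtype.ext (Subtype.ext h2)

/-- groups of finitely supported functions -/
lemma Fol.finsupp (hC : ∀ x, Fol (C x)) {N : Type u} [Group N] (j : N →* (∀ x, C x))
    (hj : Function.Injective j) (hf : ∀ n, {x | j n x ≠ 1}.Finite) : Fol N := by
  apply Fol.local
  intro S
  let Y : Set X := ⋃ s ∈ S, {x | j s x ≠ 1}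
  have hY : Y.Finite := S.finite_toSet.biUnion fun s _ => hf s
  refine ⟨(Fs C Y).comap j, inferInstance, ((Fs C Y).comap j).subtype, ?_,
    Subgroup.subtype_injective _, fun s hs => ⟨⟨s, ?_⟩, rfl⟩⟩
  · refine (Fol.fs hC hY).of_injective ((j.comp ((Fs C Y).comap j).subtype).codRestrict (Fs C Y)
      (fun x => x.2)) ?_
    intro a b hab
    exact Subtype.ext (hj (congrArg Subtype.val hab))
  · intro x hx
    by_contra h
    exact hx (Set.mem_biUnion hs h)

end finsupp

lemma Fol.pi {ι : Type v} [Finite ι] {C : ι → Type u} [∀ i, Group (C i)] (hC : ∀ i, Fol (C i)) :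
    Fol (∀ i, C i) :=
  Fol.finsupp hC (MonoidHom.id _) (fun _ _ h => h) (fun _ => Set.toFinite _)

/-! ### wreath products -/

/-- the wreath product of `C` with the permutations of `Ω` -/
@[ext] structure WrG (C : Type u) (Ω : Type v) where
  /-- the permutation -/
  s : Equiv.Perm Ω
  /-- the coefficients -/
  t : Ω → C

namespace WrG

variable {C : Type u} [Group C] {Ω : Type v}

instance : Mul (WrG C Ω) := ⟨fun x y => ⟨x.s * y.s, fun ω => x.t (y.s ω) * y.t ω⟩⟩
instance : One (WrG C Ω) := ⟨⟨1, fun _ => 1⟩⟩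
instance : Inv (WrG C Ω) := ⟨fun x => ⟨x.s⁻¹, fun ω => (x.t (x.s⁻¹ ω))⁻¹⟩⟩

lemma mul_s (x y : WrG C Ω) : (x * y).s = x.s * y.s := rfl
lemma mul_t (x y : WrG C Ω) (ω : Ω) : (x * y).t ω = x.t (y.s ω) * y.t ω := rfl
lemma one_s : (1 : WrG C Ω).s = 1 := rfl
lemma one_t (ω : Ω) : (1 : WrG C Ω).t ω = 1 := rfl
lemma inv_s (x : WrG C Ω) : (x⁻¹).s = x.s⁻¹ := rfl
lemma inv_t (x : WrG C Ω) (ω : Ω) : (x⁻¹).t ω = (x.t (x.s⁻¹ ω))⁻¹ := rfl

instance : Group (WrG C Ω) where
  mul_assoc x y z := WrG.ext (mul_assoc _ _ _) (by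
    funext ω
    simp only [mul_t, mul_s, Equiv.Perm.mul_apply, mul_assoc])
  one_mul x := WrG.ext (one_mul _) (by
    funext ω
    simp only [mul_t, one_t, one_mul])
  mul_one x := WrG.ext (mul_one _) (by
    funext ω
    simp only [mul_t, one_t, one_s, Equiv.Perm.one_apply, mul_one])
  inv_mul_cancel x := WrG.ext (inv_mul_cancel _) (by
    funext ω
    simp only [mul_t, inv_t, one_t]
    have : x.s⁻¹ (x.s ω) = ω := x.s.symm_apply_apply ω
    rw [this, inv_mul_cancel])

/-- the permutation part -/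
def perm : WrG C Ω →* Equiv.Perm Ω where
  toFun := s
  map_one' := rfl
  map_mul' _ _ := rfl

/-- the kernel of the map to the permutations -/
def kerHom : (perm : WrG C Ω →* Equiv.Perm Ω).ker →* (Ω → C) where
  toFun x := x.1.t
  map_one' := rfl
  map_mul' x y := by
    funext ω
    show x.1.t (y.1.s ω) * y.1.t ω = _
    have h : y.1.s = 1 := y.2
    rw [h]
    rfl

lemma kerHom_injective : Function.Injective (kerHom (C := C) (Ω := Ω)) := by
  intro x y h
  have h1 : x.1.s = 1 := x.2
  have h2 : y.1.s = 1 := y.2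
  exact Subtype.ext (WrG.ext (h1.trans h2.symm) h)

/-- functoriality -/
def map {C' : Type w} [Group C'] (j : C →* C') : WrG C Ω →* WrG C' Ω where
  toFun x := ⟨x.s, fun ω => j (x.t ω)⟩
  map_one' := WrG.ext rfl (by
    funext ω
    exact map_one j)
  map_mul' x y := WrG.ext rfl (by
    funext ω
    exact map_mul j _ _)

end WrG

lemma Fol.wr {C : Type u} [Group C] (hC : Fol C) (Ω : Type v) [Finite Ω] : Fol (WrG C Ω) :=
  Fol.ext' WrG.perm (Fol.of_finite _) (Fol.pi fun _ => hC) WrG.kerHom WrG.kerHom_injective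

end Pool.Agent.R632.VRC
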