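import Pool.Agent.R632.VRC.Fol

/-! Making elements conjugate in amenable groups. -/

set_option linter.unusedSectionVars false
set_option linter.dupNamespace false

namespace Pool.Agent.R632.VRC

universe u v w

section hnn

variable {B : Type u} [Group B] (F : B →* Multiplicative ℤ) (t b : B)

/-- the coordinates of the embedding -/
def emb (k : ℤ) : B →* B where
  toFun g := if k < 0 then t ^ (F g).toAdd else if k = 0 then g else b ^ (F g).toAdd
  map_one' := by
    simp only [map_one, toAdd_one, zpow_zero]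
    split_ifs <;> rfl
  map_mul' x y := by
    simp only [map_mul, toAdd_mul, zpow_add]
    split_ifs <;> rfl

/-- the ambient group -/
def Big : Subgroup (WrG B ℤ) where
  carrier := {w | (∃ n : ℤ, ∀ k, w.s k = k + n) ∧ ∃ m : ℤ, (∀ k, F (w.t k) = Multiplicative.ofAdd m) ∧
    ∃ N : ℤ, ∀ k, (k < -N → w.t k = t ^ m) ∧ (N < k → w.t k = b ^ m)}
  mul_mem' := by
    rintro x y ⟨⟨n, hn⟩, m, hm, N, hN⟩ ⟨⟨n', hn'⟩, m', hm', N', hN'⟩
    refine ⟨⟨n' + n, fun k => ?_⟩, m + m', fun k => ?_, |N| + |n'| + |N'|, fun k => ⟨fun hk => ?_,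
      fun hk => ?_⟩⟩
    · show x.s (y.s k) = _
      rw [hn', hn, add_assoc]
    · rw [WrG.mul_t, map_mul, hm, hm', ofAdd_add]
    · have h1 := le_abs_self N
      have h2 := neg_abs_le N
      have h3 := le_abs_self n'
      have h4 := neg_abs_le n'
      have h5 := le_abs_self N'
      have h6 := neg_abs_le N'
      have h7 := abs_nonneg N
      have h8 := abs_nonneg n'
      have h9 := abs_nonneg N'
      rw [WrG.mul_t, hn', (hN (k + n')).1 (by linarith), (hN' k).1 (by linarith), zpow_add]
    · have h1 := le_abs_self N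
      have h2 := neg_abs_le N
      have h3 := le_abs_self n'
      have h4 := neg_abs_le n'
      have h5 := le_abs_self N'
      have h6 := neg_abs_le N'
      have h7 := abs_nonneg N
      have h8 := abs_nonneg n'
      have h9 := abs_nonneg N'
      rw [WrG.mul_t, hn', (hN (k + n')).2 (by linarith), (hN' k).2 (by linarith), zpow_add]
  one_mem' := ⟨⟨0, fun k => by rw [add_zero]; rfl⟩, 0, fun k => by rw [WrG.one_t, map_one]; rfl,
    0, fun k => ⟨fun _ => by rw [WrG.one_t, zpow_zero], fun _ => by rw [WrG.one_t, zpow_zero]⟩⟩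
  inv_mem' := by
    rintro x ⟨⟨n, hn⟩, m, hm, N, hN⟩
    have hinv : ∀ k, x.s⁻¹ k = k - n := by
      intro k
      rw [Equiv.Perm.inv_eq_iff_eq, hn, sub_add_cancel]
    refine ⟨⟨-n, fun k => ?_⟩, -m, fun k => ?_, |N| + |n|, fun k => ⟨fun hk => ?_,
      fun hk => ?_⟩⟩
    · rw [WrG.inv_s, hinv, sub_eq_add_neg]
    · rw [WrG.inv_t, map_inv, hm, ofAdd_neg]
    · have h1 := le_abs_self N
      have h2 := neg_abs_le N
      have h3 := le_abs_self n
      have h4 := neg_abs_le n
      rw [WrG.inv_t, hinv, (hN (k - n)).1 (by linarith), zpow_neg]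
    · have h1 := le_abs_self N
      have h2 := neg_abs_le N
      have h3 := le_abs_self n
      have h4 := neg_abs_le n
      rw [WrG.inv_t, hinv, (hN (k - n)).2 (by linarith), zpow_neg]

/-- the height -/
def Big.height : Big F t b →* Multiplicative ℤ where
  toFun w := F (w.1.t 0)
  map_one' := by
    show F 1 = 1
    exact map_one F
  map_mul' x y := by
    show F (x.1.t (y.1.s 0) * y.1.t 0) = _
    obtain ⟨_, m, hm, _⟩ := x.2
    rw [map_mul, hm, hm]

/-- the shift -/
def Big.shift : Big F t b →* Multiplicative ℤ where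
  toFun w := Multiplicative.ofAdd (w.1.s 0)
  map_one' := rfl
  map_mul' x y := by
    obtain ⟨⟨n, hn⟩, _⟩ := x.2
    show Multiplicative.ofAdd (x.1.s (y.1.s 0)) = _
    rw [hn, hn, zero_add, ← ofAdd_add, add_comm]

lemma Big.fol (hB : Fol B) : Fol (Big F t b) := by
  let π : Big F t b →* Multiplicative ℤ × Multiplicative ℤ :=
    (Big.height F t b).prod (Big.shift F t b)
  refine Fol.extn π (Fol.int.prod Fol.int) ?_
  have hs : ∀ w : π.ker, w.1.1.s = 1 := by
    intro w
    have h1 : π w.1 = 1 := w.2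
    have h2 : Multiplicative.ofAdd (w.1.1.s 0) = 1 := congrArg Prod.snd h1
    have h3 : w.1.1.s 0 = 0 := h2
    obtain ⟨⟨n, hn⟩, _⟩ := w.1.2
    rw [hn, zero_add] at h3
    apply Equiv.ext
    intro k
    rw [hn, h3, add_zero]
    rfl
  let j : π.ker →* (ℤ → B) :=
    { toFun := fun w => w.1.1.t
      map_one' := rfl
      map_mul' := fun x y => by
        funext k
        show x.1.1.t (y.1.1.s k) * y.1.1.t k = _
        rw [hs y]
        rfl }
  refine Fol.finsupp (X := ℤ) (C := fun _ => B) (fun _ => hB) j ?_ ?_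
  · intro x y h
    exact Subtype.ext (Subtype.ext (WrG.ext ((hs x).trans (hs y).symm) h))
  · intro w
    have h1 : π w.1 = 1 := w.2
    have h2 : F (w.1.1.t 0) = 1 := congrArg Prod.fst h1
    obtain ⟨_, m, hm, N, hN⟩ := w.1.2
    have h3 : m = 0 := by
      rw [hm] at h2
      exact h2
    refine (Set.finite_Icc (-N) N).subset ?_
    intro k hk
    by_contra h4
    apply hk
    rw [Set.mem_Icc, not_and_or, not_le, not_le] at h4
    rcases h4 with h4 | h4
    · show w.1.1.t k = 1
      rw [(hN k).1 h4, h3, zpow_zero]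
    · show w.1.1.t k = 1
      rw [(hN k).2 h4, h3, zpow_zero]

end hnn

/-- One step: making two elements conjugate. -/
theorem hnn_step {B : Type u} [Group B] (hB : Fol B) (F : B →* Multiplicative ℤ) (t b : B)
    (ht : F t = Multiplicative.ofAdd 1) (hb : F b = Multiplicative.ofAdd 1) :
    ∃ (B' : Type u) (_ : Group B') (j : B →* B') (F' : B' →* Multiplicative ℤ), Fol B' ∧
      Function.Injective j ∧ (∀ x, F' (j x) = F x) ∧ ∃ y, y * j t * y⁻¹ = j b := by
  let ι : B →* WrG B ℤ :=
    { toFun := fun g => ⟨1, fun k => emb F t b k g⟩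
      map_one' := WrG.ext rfl (by
        funext k
        exact map_one _)
      map_mul' := fun x y => WrG.ext rfl (by
        funext k
        exact map_mul _ _ _) }
  have hι : ∀ g k, (ι g).t k = if k < 0 then t ^ (F g).toAdd else if k = 0 then g
      else b ^ (F g).toAdd := fun _ _ => rfl
  have hιs : ∀ g, (ι g).s = 1 := fun _ => rfl
  have hmem : ∀ g, ι g ∈ Big F t b := by
    intro g
    refine ⟨⟨0, fun k => by rw [hιs, add_zero]; rfl⟩, (F g).toAdd, fun k => ?_, 0,
      fun k => ⟨fun hk => ?_, fun hk => ?_⟩⟩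
    · rw [hι]
      split_ifs with h1 h2
      · rw [map_zpow, ht, ← ofAdd_zsmul]
        simp
      · rfl
      · rw [map_zpow, hb, ← ofAdd_zsmul]
        simp
    · rw [hι, if_pos (by omega)]
    · rw [hι, if_neg (by omega), if_neg (by omega)]
  let j : B →* Big F t b := ι.codRestrict (Big F t b) hmem
  have hj : ∀ g k, (j g).1.t k = if k < 0 then t ^ (F g).toAdd else if k = 0 then g
      else b ^ (F g).toAdd := fun _ _ => rfl
  have hjs : ∀ g, (j g).1.s = 1 := fun _ => rfl
  have hy : (⟨Equiv.addRight (-1), fun _ => 1⟩ : WrG B ℤ) ∈ Big F t b := by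
    refine ⟨⟨-1, fun k => rfl⟩, 0, fun k => map_one F, 0, fun k => ⟨fun _ => ?_, fun _ => ?_⟩⟩
    · rw [zpow_zero]
    · rw [zpow_zero]
  refine ⟨Big F t b, inferInstance, j, Big.height F t b, Big.fol F t b hB, ?_, ?_, ⟨_, hy⟩, ?_⟩
  · intro x y h
    have h1 : (j x).1.t 0 = (j y).1.t 0 := by rw [h]
    rw [hj, hj, if_neg (lt_irrefl 0), if_pos rfl, if_neg (lt_irrefl 0), if_pos rfl] at h1
    exact h1
  · intro x
    show F ((j x).1.t 0) = F x
    rw [hj, if_neg (lt_irrefl 0), if_pos rfl]
  · rw [mul_inv_eq_iff_eq_mul]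
    apply Subtype.ext
    apply WrG.ext
    · show (Equiv.addRight (-1) : Equiv.Perm ℤ) * (j t).1.s = (j b).1.s * _
      rw [hjs, hjs, mul_one, one_mul]
    · funext k
      show (1 : B) * (j t).1.t k = (j b).1.t ((Equiv.addRight (-1) : Equiv.Perm ℤ) k) * 1
      rw [one_mul, mul_one, hj, hj, ht, hb]
      show _ = if k + -1 < 0 then _ else if k + -1 = 0 then _ else _
      simp only [toAdd_ofAdd, zpow_one]
      rcases lt_trichotomy k 0 with h | h | h
      · rw [if_pos h, if_pos (by omega)]
      · rw [if_neg (by omega), if_pos h, if_pos (by omega)]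
      · rw [if_neg (by omega), if_neg (by omega), if_neg (by omega)]
        split_ifs <;> rfl

/-- Making finitely many elements conjugate. -/
theorem hnn_multi {B : Type u} [Group B] (hB : Fol B) (F : B →* Multiplicative ℤ) (t : B)
    (ht : F t = Multiplicative.ofAdd 1) (l : List B) (hl : ∀ b ∈ l, F b = Multiplicative.ofAdd 1) :
    ∃ (B' : Type u) (_ : Group B') (j : B →* B') (F' : B' →* Multiplicative ℤ), Fol B' ∧
      Function.Injective j ∧ (∀ x, F' (j x) = F x) ∧ ∀ b ∈ l, ∃ y, y * j t * y⁻¹ = j b := by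
  induction l with
  | nil => exact ⟨B, _, MonoidHom.id B, F, hB, fun _ _ h => h, fun _ => rfl, fun b hb =>
      absurd hb (List.not_mem_nil)⟩
  | cons b l ih =>
    obtain ⟨B', _, j, F', hB', hj, hF', hc⟩ := ih (fun x hx => hl x (List.mem_cons_of_mem _ hx))
    obtain ⟨B'', _, j', F'', hB'', hj', hF'', y, hy⟩ := hnn_step hB' F' (j t) (j b)
      (by rw [hF', ht]) (by rw [hF', hl b List.mem_cons_self])
    refine ⟨B'', _, j'.comp j, F'', hB'', hj'.comp hj, fun x => ?_, fun x hx => ?_⟩
    · show F'' (j' (j x)) = F x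
      rw [hF'', hF']
    · rcases List.mem_cons.mp hx with rfl | hx
      · exact ⟨y, hy⟩
      · obtain ⟨z, hz⟩ := hc x hx
        refine ⟨j' z, ?_⟩
        show j' z * j' (j t) * (j' z)⁻¹ = j' (j x)
        rw [← hz, map_mul, map_mul, map_inv]

end Pool.Agent.R632.VRC
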