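import Pool.Agent.R632.VRC.Gen
import Pool.Agent.R632.VRC.Hnn

/-! Gauge transformations over an amalgam. -/

set_option linter.unusedSectionVars false
set_option linter.dupNamespace false

namespace Pool.Agent.R632.VRC

universe u

/-- Making all the periods equal to one. -/
theorem uniform {Γ H : Type u} [Group Γ] [Group H] (e : H →* Γ) {Ω : Type u} [Finite Ω]
    [Nonempty Ω] (ρ : Γ →* Wr Ω) (c : Ω → H)
    (hc : ∀ ω h, (ρ (e h)).s ω = ω ↔ ∃ n : ℤ, h = c ω ^ n)
    (hV : ∀ ω, (ρ (e (c ω))).t ω ≠ 0) :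
    ∃ (X : Type u) (_ : Finite X) (_ : Nonempty X) (ρ' : Γ →* Wr X) (c' : X → H), ∀ x,
      (∀ h, (ρ' (e h)).s x = x → ∃ n : ℤ, h = c' x ^ n) ∧
      (ρ' (e (c' x))).s x = x ∧ (ρ' (e (c' x))).t x = 1 := by
  classical
  have := Fintype.ofFinite Ω
  let V : Ω → ℤ := fun ω => (ρ (e (c ω))).t ω
  let M : ℕ := ∏ ω, (V ω).natAbs
  have hM0 : M ≠ 0 := Finset.prod_ne_zero_iff.mpr fun ω _ => Int.natAbs_ne_zero.mpr (hV ω)
  have hMne : NeZero M := ⟨hM0⟩
  have hVM : ∀ ω, V ω ∣ (M : ℤ) := by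
    intro ω
    rw [← Int.natAbs_dvd, Int.natCast_dvd_natCast]
    exact Finset.dvd_prod_of_mem _ (Finset.mem_univ ω)
  have hMpos : (0 : ℤ) < M := by exact_mod_cast Nat.pos_of_ne_zero hM0
  have hval : ∀ (z : ZMod M) (k : ℤ), ((z + (k : ZMod M)).val : ℤ) = ((z.val : ℤ) + k) % M := by
    intro z k
    rw [← ZMod.val_intCast]
    congr 2
    push_cast
    rw [ZMod.natCast_zmod_val]
  have hvlt : ∀ z : ZMod M, (z.val : ℤ) < M := fun z => by exact_mod_cast ZMod.val_lt z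
  let act : Γ → Ω × ZMod M → Ω × ZMod M := fun γ x =>
    ((ρ γ).s x.1, x.2 + (((ρ γ).t x.1 : ℤ) : ZMod M))
  have hact : ∀ a b x, act (a * b) x = act a (act b x) := by
    intro a b x
    show ((ρ (a * b)).s x.1, x.2 + (((ρ (a * b)).t x.1 : ℤ) : ZMod M)) =
      ((ρ a).s ((ρ b).s x.1), x.2 + (((ρ b).t x.1 : ℤ) : ZMod M) +
        (((ρ a).t ((ρ b).s x.1) : ℤ) : ZMod M))
    rw [rho_s, rho_t]
    refine Prod.ext rfl ?_
    show _ + _ = _
    push_cast
    ring
  have hact1 : ∀ x, act 1 x = x := by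
    intro x
    show ((ρ 1).s x.1, x.2 + (((ρ 1).t x.1 : ℤ) : ZMod M)) = x
    rw [map_one, Wr.one_t]
    refine Prod.ext rfl ?_
    show x.2 + _ = x.2
    push_cast
    rw [add_zero]
  let ρ' : Γ →* Wr (Ω × ZMod M) := MonoidHom.mk' (fun γ =>
    { s := ⟨act γ, act γ⁻¹, fun x => by rw [← hact, inv_mul_cancel, hact1],
        fun x => by rw [← hact, mul_inv_cancel, hact1]⟩
      t := fun x => ((x.2.val : ℤ) + (ρ γ).t x.1) / M }) (by
    intro a b
    apply Wr.ext
    · apply Equiv.ext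
      intro x
      exact hact a b x
    · funext x
      rw [Wr.mul_t]
      show ((x.2.val : ℤ) + (ρ (a * b)).t x.1) / M =
        (((x.2 + (((ρ b).t x.1 : ℤ) : ZMod M)).val : ℤ) + (ρ a).t ((ρ b).s x.1)) / M +
          ((x.2.val : ℤ) + (ρ b).t x.1) / M
      rw [hval, rho_t]
      have h1 := Int.emod_add_mul_ediv ((x.2.val : ℤ) + (ρ b).t x.1) M
      have h2 : (x.2.val : ℤ) + ((ρ a).t ((ρ b).s x.1) + (ρ b).t x.1) =
          ((x.2.val : ℤ) + (ρ b).t x.1) % M + (ρ a).t ((ρ b).s x.1) +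
            (((x.2.val : ℤ) + (ρ b).t x.1) / M) * M := by linarith
      rw [h2, Int.add_mul_ediv_right _ _ hMpos.ne'])
  have hs : ∀ γ x, (ρ' γ).s x = ((ρ γ).s x.1, x.2 + (((ρ γ).t x.1 : ℤ) : ZMod M)) := fun _ _ => rfl
  have ht : ∀ γ x, (ρ' γ).t x = ((x.2.val : ℤ) + (ρ γ).t x.1) / M := fun _ _ => rfl
  have hfix : ∀ ω, (ρ (e (c ω))).s ω = ω := fun ω => (hc ω _).mpr ⟨1, (zpow_one _).symm⟩
  -- the translation of a power
  have hpow : ∀ ω (n : ℤ), (ρ (e (c ω ^ n))).s ω = ω ∧ (ρ (e (c ω ^ n))).t ω = n * V ω := by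
    intro ω n
    have h0 : ∀ n : ℤ, (ρ (e (c ω ^ n))).s ω = ω := fun n => (hc ω _).mpr ⟨n, rfl⟩
    refine ⟨h0 n, ?_⟩
    induction n using Int.induction_on with
    | zero => rw [zpow_zero, map_one, map_one, Wr.one_t, zero_mul]
    | succ k ih =>
      rw [zpow_add_one, map_mul, rho_t, hfix, ih]
      show _ + V ω = _
      ring
    | pred k ih =>
      have h1 : (ρ (e (c ω ^ (-(k : ℤ)))) ).t ω = (ρ (e (c ω ^ (-(k : ℤ) - 1)))).t ω + V ω := by
        have h2 : c ω ^ (-(k : ℤ)) = c ω ^ (-(k : ℤ) - 1) * c ω := by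
          rw [← zpow_add_one]
          congr 1
          ring
        rw [h2, map_mul, rho_t, hfix]
      rw [ih] at h1
      linarith
  refine ⟨Ω × ZMod M, inferInstance, inferInstance, ρ', fun x => c x.1 ^ ((M : ℤ) / V x.1), ?_⟩
  rintro ⟨ω, z⟩
  have hk : (M : ℤ) / V ω * V ω = M := Int.ediv_mul_cancel (hVM ω)
  refine ⟨fun h hh => ?_, ?_, ?_⟩
  · rw [hs] at hh
    have h1 : (ρ (e h)).s ω = ω := congrArg Prod.fst hh
    have h2 : z + (((ρ (e h)).t ω : ℤ) : ZMod M) = z := congrArg Prod.snd hh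
    obtain ⟨n, rfl⟩ := (hc ω h).mp h1
    rw [(hpow ω n).2] at h2
    have h3 : ((n * V ω : ℤ) : ZMod M) = 0 := by
      have := add_left_cancel (h2.trans (add_zero z).symm)
      exact this
    rw [ZMod.intCast_zmod_eq_zero_iff_dvd] at h3
    have h4 : (M : ℤ) / V ω ∣ n := by
      have h5 : (M : ℤ) / V ω * V ω ∣ n * V ω := by rw [hk]; exact h3
      exact Int.dvd_of_mul_dvd_mul_right (hV ω) h5
    obtain ⟨q, hq⟩ := h4
    exact ⟨q, by rw [← zpow_mul, ← hq]⟩
  · rw [hs]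
    show ((ρ (e (c ω ^ ((M : ℤ) / V ω)))).s ω, z + (((ρ (e (c ω ^ ((M : ℤ) / V ω)))).t ω : ℤ) :
      ZMod M)) = (ω, z)
    rw [(hpow ω _).1, (hpow ω _).2, hk]
    refine Prod.ext rfl ?_
    show z + _ = z
    push_cast
    rw [ZMod.natCast_self, add_zero]
  · rw [ht]
    show ((z.val : ℤ) + (ρ (e (c ω ^ ((M : ℤ) / V ω)))).t ω) / M = 1
    rw [(hpow ω _).2, hk]
    have h1 : (z.val : ℤ) + M = (z.val : ℤ) + 1 * M := by ring
    rw [h1, Int.add_mul_ediv_right _ _ hMpos.ne', Int.ediv_eq_zero_of_lt (by positivity) (hvlt z)]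
    rfl

section gauge

variable {ι : Type} [Fintype ι] [DecidableEq ι] [Nonempty ι] {G : ι → Type u} [∀ i, Group (G i)]
  {H : Type u} [Group H] {φ : ∀ i, H →* G i} {Γ : Type u} [Group Γ] {o : ∀ i, G i →* Γ}

/-- Gluing by gauge transformations. -/
theorem gauge (hΓ : Amalg φ o) {X : Type u} (σ : Γ →* Equiv.Perm X) {B : Type u} [Group B]
    (β : ∀ i, G i →* WrG B X) (hβ : ∀ i g, (β i g).s = σ (o i g)) (c : X → H)
    (hc : ∀ i x h, σ (o i (φ i h)) x = x → ∃ n : ℤ, h = c x ^ n)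
    (hcx : ∀ i x, σ (o i (φ i (c x))) x = x) (e : X → B) (y : ι → X → B)
    (hy : ∀ i x, y i x * e x * (y i x)⁻¹ = (β i (φ i (c x))).t x) :
    ∃ ψ : Γ →* WrG B X, ∀ i, ∃ w : WrG B X, ∀ g, ψ (o i g) = w * β i g * w⁻¹ := by
  classical
  obtain ⟨i0⟩ := ‹Nonempty ι›
  let act : H → X → X := fun h x => σ (o i0 (φ i0 h)) x
  have hact : ∀ i h x, σ (o i (φ i h)) x = act h x := by
    intro i h x
    show _ = σ (o i0 (φ i0 h)) x
    rw [hΓ.comp i i0]
  have hactm : ∀ a b x, act (a * b) x = act a (act b x) := by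
    intro a b x
    show σ (o i0 (φ i0 (a * b))) x = σ (o i0 (φ i0 a)) (σ (o i0 (φ i0 b)) x)
    rw [map_mul, map_mul, map_mul]
    rfl
  have hact1 : ∀ x, act 1 x = x := by
    intro x
    show σ (o i0 (φ i0 1)) x = x
    rw [map_one, map_one, map_one]
    rfl
  let r : Setoid X :=
    { r := fun x x' => ∃ h, act h x = x'
      iseqv :=
        { refl := fun x => ⟨1, hact1 x⟩
          symm := by
            rintro x _ ⟨h, rfl⟩
            exact ⟨h⁻¹, by rw [← hactm, inv_mul_cancel, hact1]⟩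
          trans := by
            rintro x _ _ ⟨h, rfl⟩ ⟨h', rfl⟩
            exact ⟨h' * h, hactm _ _ _⟩ } }
  let rp : X → X := fun x => Quotient.out (Quotient.mk r x)
  have hrp : ∀ x, ∃ k, act k (rp x) = x := fun x => Quotient.exact (Quotient.out_eq (Quotient.mk r x))
  have hrp' : ∀ h x, rp (act h x) = rp x := by
    intro h x
    have h1 : (Quotient.mk r (act h x)) = Quotient.mk r x :=
      (Quotient.sound (s := r) (show r.r x (act h x) from ⟨h, rfl⟩)).symm
    show Quotient.out (Quotient.mk r (act h x)) = Quotient.out (Quotient.mk r x)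
    rw [h1]
  choose k hk using hrp
  have hback : ∀ h x, act (k (act h x))⁻¹ (act h x) = rp x := by
    intro h x
    have h5 := hk (act h x)
    rw [hrp'] at h5
    have h6 := congrArg (act (k (act h x))⁻¹) h5
    rw [← hactm, inv_mul_cancel, hact1] at h6
    exact h6.symm
  let b : ι → X → B := fun i x => (β i (φ i (k x))).t (rp x) * y i (rp x)
  let w : ι → WrG B X := fun i => ⟨1, b i⟩
  have hβs : ∀ i h x, (β i (φ i h)).s x = act h x := by
    intro i h x
    rw [hβ, hact]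
  have hmul : ∀ i (a a' : G i) x, (β i (a * a')).t x = (β i a).t ((β i a').s x) * (β i a').t x := by
    intro i a a' x
    rw [map_mul]
    rfl
  -- powers of the stabilizer
  have hpow : ∀ i x (n : ℤ), (β i (φ i (c x ^ n))).t x = y i x * e x ^ n * (y i x)⁻¹ := by
    intro i x n
    have hfix : act (c x) x = x := hcx i0 x
    induction n using Int.induction_on with
    | zero =>
      rw [zpow_zero, map_one, map_one, WrG.one_t, zpow_zero, mul_one, mul_inv_cancel]
    | succ m ih =>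
      rw [zpow_add_one, map_mul, hmul, hβs, hfix, ih, ← hy, zpow_add_one]
      group
    | pred m ih =>
      have h2 : c x ^ (-(m : ℤ)) = c x ^ (-(m : ℤ) - 1) * c x := by
        rw [← zpow_add_one]
        congr 1
        ring
      rw [h2, map_mul, hmul, hβs, hfix, ← hy] at ih
      have h3 : (β i (φ i (c x ^ (-(m : ℤ) - 1)))).t x =
          (y i x * e x ^ (-(m : ℤ)) * (y i x)⁻¹) * (y i x * e x * (y i x)⁻¹)⁻¹ := by
        rw [← ih]
        group
      rw [h3, zpow_sub_one]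
      group
  have key : ∀ i h x, ∀ n : ℤ, (k (act h x))⁻¹ * h * k x = c (rp x) ^ n →
      ((w i)⁻¹ * β i (φ i h) * w i).t x = e (rp x) ^ n := by
    intro i h x n hn
    have h1 : ((w i)⁻¹ * β i (φ i h) * w i).t x =
        (b i (act h x))⁻¹ * (β i (φ i h)).t x * b i x := by
      have h2 : ((w i)⁻¹ * β i (φ i h) * w i).t x =
        (b i ((β i (φ i h)).s x))⁻¹ * (β i (φ i h)).t x * b i x := rfl
      rw [h2, hβs]
    rw [h1]
    show ((β i (φ i (k (act h x)))).t (rp (act h x)) * y i (rp (act h x)))⁻¹ *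
      (β i (φ i h)).t x * ((β i (φ i (k x))).t (rp x) * y i (rp x)) = _
    rw [hrp']
    have h3 : (β i (φ i h)).t x * (β i (φ i (k x))).t (rp x) = (β i (φ i (h * k x))).t (rp x) := by
      rw [map_mul, hmul, hβs, hk]
    have h4 : h * k x = k (act h x) * c (rp x) ^ n := by
      rw [← hn]
      group
    have hfixn : act (c (rp x) ^ n) (rp x) = rp x := by
      rw [← hn, hactm, hactm, hk]
      exact hback h x
    rw [h4, map_mul, hmul, hβs, hfixn, hpow] at h3
    have h6 : (β i (φ i h)).t x = (β i (φ i (k (act h x)))).t (rp x) *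
        (y i (rp x) * e (rp x) ^ n * (y i (rp x))⁻¹) * ((β i (φ i (k x))).t (rp x))⁻¹ := by
      rw [← h3]
      group
    rw [h6]
    group
  let ρ : ∀ i, G i →* WrG B X := fun i => (MulAut.conj (w i)⁻¹).toMonoidHom.comp (β i)
  have hρ : ∀ i g, ρ i g = (w i)⁻¹ * β i g * w i := by
    intro i g
    show (w i)⁻¹ * β i g * (w i)⁻¹⁻¹ = _
    rw [inv_inv]
  obtain ⟨ψ, hψ⟩ := hΓ.lift (WrG B X) ρ (by
    intro i j h
    apply WrG.ext
    · rw [hρ, hρ]
      apply Equiv.ext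
      intro x
      show (β i (φ i h)).s x = (β j (φ j h)).s x
      rw [hβs, hβs]
    · funext x
      obtain ⟨n, hn⟩ := hc i0 (rp x) ((k (act h x))⁻¹ * h * k x) (by
        rw [hact, hactm, hactm, hk]
        exact hback h x)
      rw [hρ, hρ, key i h x n hn, key j h x n hn])
  refine ⟨ψ, fun i => ⟨(w i)⁻¹, fun g => ?_⟩⟩
  rw [hψ, hρ, inv_inv]

end gauge

end Pool.Agent.R632.VRC
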