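import Pool.Agent.R632.VRC.Ell

/-! Generic homomorphisms and free cocycles. -/

set_option linter.unusedSectionVars false
set_option linter.dupNamespace false

namespace Pool.Agent.R632.VRC

universe u

/-- avoiding finitely many lines -/
lemma avoid {S : Set (ℤ × ℤ)} (hS : S.Finite) :
    ∃ N0 : ℤ, ∀ N : ℤ, N0 ≤ N → ∀ p ∈ S, p ≠ 0 → p.1 + N * p.2 ≠ 0 := by
  induction S, hS using Set.Finite.induction_on with
  | empty => exact ⟨0, fun N _ p hp => absurd hp (Set.notMem_empty p)⟩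
  | @insert a S _ _ ih =>
    obtain ⟨N0, h⟩ := ih
    refine ⟨max N0 (|a.1| + 1), fun N hN p hp hp0 => ?_⟩
    rcases Set.mem_insert_iff.mp hp with rfl | hp
    · intro h0
      have h1 : |p.1| + 1 ≤ N := (le_max_right _ _).trans hN
      have h2 : p.1 = - (N * p.2) := by linarith
      have hN0 : 0 < N := by
        have := abs_nonneg p.1
        omega
      by_cases h3 : p.2 = 0
      · rw [h3] at h2
        apply hp0
        exact Prod.ext (by rw [h2]; simp) h3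
      · have h4 : |p.1| = N * |p.2| := by
          rw [h2, abs_neg, abs_mul, abs_of_pos hN0]
        have h5 : 1 ≤ |p.2| := Int.one_le_abs h3
        nlinarith
    · exact h N ((le_max_left _ _).trans hN) p hp hp0

section generic

variable {P : Type u} [Group P] {A : Subgroup P} [hA : A.Normal]

lemma HomOn.conj' {f : P → ℤ} (hf : HomOn A f) {a b : P} (ha : a ∈ A) (hb : b ∈ A) :
    f (a⁻¹ * b * a) = f b := by
  have := hf.conj (A.inv_mem ha) hb
  rwa [inv_inv] at this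

lemma conj_mem' {b : P} (hb : b ∈ A) (p : P) : p⁻¹ * b * p ∈ A := by
  have := hA.conj_mem b hb p⁻¹
  rwa [inv_inv] at this

/-- the value on a conjugate depends only on the coset -/
lemma conj_out {f : P → ℤ} (hf : HomOn A f) {c : P} (hc : c ∈ A) (p : P) :
    f ((Quotient.out (QuotientGroup.mk p : P ⧸ A))⁻¹ * c *
      Quotient.out (QuotientGroup.mk p : P ⧸ A)) = f (p⁻¹ * c * p) := by
  have h1 : (QuotientGroup.mk (Quotient.out (QuotientGroup.mk p : P ⧸ A)) : P ⧸ A) =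
    QuotientGroup.mk p := QuotientGroup.out_eq' _
  have h2 := QuotientGroup.eq.mp h1.symm
  have h3 := hf.conj' h2 (conj_mem' hc p)
  rw [← h3]
  congr 1
  group

lemma conj_finite (hAf : A.FiniteIndex) {f g : P → ℤ} (hf : HomOn A f) (hg : HomOn A g) {c : P}
    (hc : c ∈ A) : (Set.range fun p : P => (f (p⁻¹ * c * p), g (p⁻¹ * c * p))).Finite := by
  have h1 : Finite (P ⧸ A) := Subgroup.finite_quotient_of_finiteIndex
  refine (Set.finite_range (fun q : P ⧸ A => (f ((Quotient.out q)⁻¹ * c * Quotient.out q),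
    g ((Quotient.out q)⁻¹ * c * Quotient.out q)))).subset ?_
  rintro _ ⟨p, rfl⟩
  exact ⟨QuotientGroup.mk p, by
    show (f _, g _) = (f _, g _)
    rw [conj_out hf hc, conj_out hg hc]⟩

/-- a homomorphism that does not vanish on the conjugates -/
lemma generic (hAf : A.FiniteIndex) {f : P → ℤ} (hf : HomOn A f) {c : P} (hc : c ∈ A)
    (hfc : f c ≠ 0) : ∃ f' : P → ℤ, HomOn A f' ∧ ∀ p : P, f' (p⁻¹ * c * p) ≠ 0 := by
  have key : ∀ S : Set P, S.Finite → ∃ f' : P → ℤ, HomOn A f' ∧ ∀ p ∈ S, f' (p⁻¹ * c * p) ≠ 0 := by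
    intro S hS
    induction S, hS using Set.Finite.induction_on with
    | empty => exact ⟨f, hf, fun p hp => absurd hp (Set.notMem_empty p)⟩
    | @insert p0 S _ hS ih =>
      obtain ⟨f', hf', h⟩ := ih
      let f1 : P → ℤ := fun x => f (p0 * x * p0⁻¹)
      have hf1 : HomOn A f1 := by
        intro a ha b hb
        show f (p0 * (a * b) * p0⁻¹) = _
        have h1 : p0 * (a * b) * p0⁻¹ = (p0 * a * p0⁻¹) * (p0 * b * p0⁻¹) := by group
        rw [h1, hf _ (hA.conj_mem a ha p0) _ (hA.conj_mem b hb p0)]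
      obtain ⟨N0, hN0⟩ := avoid (conj_finite hAf hf' hf1 hc)
      refine ⟨fun x => f' x + N0 * f1 x, hf'.lin hf1 N0, fun p hp => ?_⟩
      apply hN0 N0 le_rfl (f' (p⁻¹ * c * p), f1 (p⁻¹ * c * p)) ⟨p, rfl⟩
      intro h0
      have h2 : f' (p⁻¹ * c * p) = 0 := congrArg Prod.fst h0
      have h3 : f1 (p⁻¹ * c * p) = 0 := congrArg Prod.snd h0
      rcases Set.mem_insert_iff.mp hp with rfl | hp
      · apply hfc
        rw [← h3]
        show _ = f (p * (p⁻¹ * c * p) * p⁻¹)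
        congr 1
        group
      · exact h p hp h2
  have h1 : Finite (P ⧸ A) := Subgroup.finite_quotient_of_finiteIndex
  obtain ⟨f', hf', h⟩ := key (Set.range (fun q : P ⧸ A => Quotient.out q)) (Set.finite_range _)
  refine ⟨f', hf', fun p => ?_⟩
  rw [← conj_out hf' hc]
  exact h _ ⟨_, rfl⟩

end generic

variable {ι : Type} [Fintype ι] [DecidableEq ι] {G : ι → Type u} [∀ i, Group (G i)] {H : Type u}
  [Group H] {φ : ∀ i, H →* G i} {Γ : Type u} [Group Γ] {o : ∀ i, G i →* Γ}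

/-- Matching the traces on the amalgamated subgroup. -/
theorem match_traces (c : H)
    (hinf : ∀ n : ℤ, c ^ n = 1 → n = 0) (K : ∀ i, Subgroup (G i)) (hK : ∀ i, (K i).FiniteIndex)
    (hKc : ∀ i h, φ i h ∈ K i → h ∈ Subgroup.zpowers c)
    (hcK : ∀ i, φ i c ∈ K i) (f : ∀ i, G i → ℤ) (hf : ∀ i, HomOn (K i) (f i))
    (hfc : ∀ i, f i (φ i c) ≠ 0) (L : ∀ i, Subgroup (G i)) (hL : ∀ i, (L i).FiniteIndex) :
    ∃ A : ∀ i, Subgroup (G i), (∀ i, (A i).Normal) ∧ (∀ i, (A i).FiniteIndex) ∧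
      (∀ i, A i ≤ K i) ∧ (∀ i, A i ≤ L i) ∧
      ∃ (H0 : Subgroup H) (c0 : H), (∀ i h, φ i h ∈ A i ↔ h ∈ H0) ∧
        (∀ h, h ∈ H0 ↔ ∃ n : ℤ, h = c0 ^ n) ∧ (∀ n : ℤ, c0 ^ n = 1 → n = 0) ∧
        ∀ i, f i (φ i c0) ≠ 0 := by
  classical
  let A : ∀ i, Subgroup (G i) := fun i => (K i ⊓ L i).normalCore
  have hA : ∀ i, (A i).Normal := fun i => inferInstanceAs ((K i ⊓ L i).normalCore.Normal)
  have hAf : ∀ i, (A i).FiniteIndex := fun i => by
    have := hK i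
    have := hL i
    exact inferInstanceAs ((K i ⊓ L i).normalCore.FiniteIndex)
  have hAK : ∀ i, A i ≤ K i := fun i => ((K i ⊓ L i).normalCore_le).trans inf_le_left
  have hAL : ∀ i, A i ≤ L i := fun i => ((K i ⊓ L i).normalCore_le).trans inf_le_right
  -- the exponents
  have h3 : ∀ i, ∃ k : ℤ, k ≠ 0 ∧ ∀ h, φ i h ∈ A i ↔ ∃ n : ℤ, h = c ^ (k * n) := by
    intro i
    let V : AddSubgroup ℤ :=
      { carrier := {n | φ i (c ^ n) ∈ A i}
        add_mem' := fun {a b} ha hb => by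
          show φ i (c ^ (a + b)) ∈ A i
          rw [zpow_add, map_mul]
          exact (A i).mul_mem ha hb
        zero_mem' := by
          show φ i (c ^ (0 : ℤ)) ∈ A i
          rw [zpow_zero, map_one]
          exact (A i).one_mem
        neg_mem' := fun {a} ha => by
          show φ i (c ^ (-a)) ∈ A i
          rw [zpow_neg, map_inv]
          exact (A i).inv_mem ha }
    obtain ⟨k, hk⟩ := Int.subgroup_cyclic V
    have hmem : ∀ n : ℤ, φ i (c ^ n) ∈ A i ↔ ∃ q : ℤ, n = k * q := by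
      intro n
      have h4 : φ i (c ^ n) ∈ A i ↔ n ∈ V := Iff.rfl
      rw [h4, hk, AddSubgroup.mem_closure_singleton]
      constructor
      · rintro ⟨q, hq⟩
        exact ⟨q, by rw [← hq, smul_eq_mul, mul_comm]⟩
      · rintro ⟨q, hq⟩
        exact ⟨q, by rw [hq, smul_eq_mul, mul_comm]⟩
    refine ⟨k, ?_, fun h => ⟨fun hh => ?_, ?_⟩⟩
    · rintro rfl
      obtain ⟨m, hm0, hm⟩ : ∃ m : ℕ, m ≠ 0 ∧ (φ i c) ^ m ∈ A i := by
        obtain ⟨m, hm0, _, hm⟩ := Subgroup.exists_pow_mem_of_index_ne_zero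
          (hAf i).index_ne_zero (φ i c)
        exact ⟨m, by omega, hm⟩
      have h5 : φ i (c ^ (m : ℤ)) ∈ A i := by
        rw [zpow_natCast, map_pow]
        exact hm
      obtain ⟨q, hq⟩ := (hmem _).mp h5
      rw [zero_mul] at hq
      exact hm0 (by exact_mod_cast hq)
    · obtain ⟨n, hn⟩ := hKc i h (hAK i hh)
      have hn' : c ^ n = h := hn
      rw [← hn'] at hh
      obtain ⟨q, hq⟩ := (hmem n).mp hh
      exact ⟨q, by rw [← hn', hq]⟩
    · rintro ⟨n, rfl⟩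
      exact (hmem _).mpr ⟨n, rfl⟩
  choose k hk0 hk using h3
  have hfn : ∀ i (n : ℤ), n ≠ 0 → f i (φ i (c ^ n)) ≠ 0 := by
    intro i n hn
    rw [map_zpow, (hf i).zpow (hcK i)]
    exact mul_ne_zero hn (hfc i)
  have h4 := fun i => refine_trace (φ i) c (A i) (hA := hA i) (hAf i) (f i)
    ((hf i).mono (hAK i)) (k i) (∏ j : {j // j ≠ i}, k j) (hk i)
    (hfn i _ (hk0 i)) (Finset.prod_ne_zero_iff.mpr fun j _ => hk0 j)
  choose A' hA' hAf' hAL' hAc' using h4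
  have hprod : ∀ i, k i * ∏ j : {j // j ≠ i}, k j = ∏ j, k j := fun i =>
    (Fintype.prod_eq_mul_prod_subtype_ne k i).symm
  have hprod0 : ∏ j, k j ≠ 0 := Finset.prod_ne_zero_iff.mpr fun j _ => hk0 j
  refine ⟨A', hA', hAf', fun i => (hAL' i).trans (hAK i), fun i => (hAL' i).trans (hAL i),
    Subgroup.zpowers (c ^ (∏ j, k j)),
    c ^ (∏ j, k j), fun i h => ?_, fun h => ?_, fun n hn => ?_, fun i => hfn i _ hprod0⟩
  · rw [hAc' i h, hprod i]
    constructor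
    · rintro ⟨n, rfl⟩
      exact ⟨n, by show (c ^ _) ^ n = _; rw [zpow_mul]⟩
    · rintro ⟨n, hn⟩
      have hn' : (c ^ (∏ j, k j)) ^ n = h := hn
      exact ⟨n, by rw [← hn', zpow_mul]⟩
  · constructor
    · rintro ⟨n, hn⟩
      exact ⟨n, hn.symm⟩
    · rintro ⟨n, hn⟩
      exact ⟨n, hn.symm⟩
  · rw [← zpow_mul] at hn
    exact (mul_eq_zero.mp (hinf _ hn)).resolve_left hprod0

/-- A homomorphism to a wreath product with the integers in which the amalgamated subgroup acts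
freely. -/
theorem free_cocycle (hΓ : Amalg φ o) (A : ∀ i, Subgroup (G i)) (hA : ∀ i, (A i).Normal)
    (hAf : ∀ i, (A i).FiniteIndex) (H0 : Subgroup H) (hH0 : ∀ i h, φ i h ∈ A i ↔ h ∈ H0) (c0 : H)
    (hc0 : ∀ h, h ∈ H0 ↔ ∃ n : ℤ, h = c0 ^ n) (f : ∀ i, G i → ℤ) (hf : ∀ i, HomOn (A i) (f i))
    (hne : ∀ i p, f i (p⁻¹ * φ i c0 * p) ≠ 0) (i1 : ι) :
    ∃ (Ω : Type u) (_ : Finite Ω) (_ : Nonempty Ω) (ρ : Γ →* Wr Ω), ∀ i ω,
      (∀ g, (ρ (o i g)).s ω = ω ↔ g ∈ A i) ∧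
      ∃ (p : G i) (μ : ℤ), μ ≠ 0 ∧ ∀ g ∈ A i, (ρ (o i g)).t ω = μ * f i (p⁻¹ * g * p) := by
  classical
  let t : ∀ i, (∀ k, DC (φ k) (A k)) → G i := fun i π => rep (φ i) (A i) (π i)
  let lam : ∀ i, (∀ k, DC (φ k) (A k)) → DC (φ i) (A i) × (∀ k : {k // k ≠ i}, DC (φ k) (A k)) :=
    fun i => Equiv.piSplitAt i (fun k => DC (φ k) (A k))
  have hlam : ∀ i, Function.Bijective (lam i) := fun i =>
    (Equiv.piSplitAt i (fun k => DC (φ k) (A k))).bijective
  have hlam1 : ∀ i π, (lam i π).1 = π i := fun _ _ => rfl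
  have hlam2 : ∀ i π (k : {k // k ≠ i}), (lam i π).2 k = π k := fun _ _ _ => rfl
  have ht : ∀ i π, cls (φ i) (A i) (t i π) = (lam i π).1 := fun i π => cls_rep _ _ _
  let α : ∀ k, DC (φ k) (A k) → ℤ :=
    fun k d => f k ((rep (φ k) (A k) d)⁻¹ * φ k c0 * rep (φ k) (A k) d)
  have hα0 : ∀ k d, α k d ≠ 0 := fun k d => hne k _
  have hc0mem : c0 ∈ H0 := (hc0 c0).mpr ⟨1, (zpow_one c0).symm⟩
  have hconj : ∀ k (x y : G k), x ∈ A k → y⁻¹ * x * y ∈ A k := by
    intro k x y hx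
    have := (hA k).conj_mem x hx y⁻¹
    rwa [inv_inv] at this
  have hα : ∀ k (p : G k) (n : ℤ), f k (p⁻¹ * φ k (c0 ^ n) * p) = n * f k (p⁻¹ * φ k c0 * p) := by
    intro k p n
    have h1 : p⁻¹ * φ k (c0 ^ n) * p = (p⁻¹ * φ k c0 * p) ^ n := by
      have h2 := conj_zpow (a := p⁻¹) (b := φ k c0) (i := n)
      rw [inv_inv] at h2
      rw [h2, map_zpow]
    rw [h1, (hf k).zpow (hconj k _ _ ((hH0 k c0).mpr hc0mem))]
  -- multipliers
  let μ : ∀ i, (∀ k : {k // k ≠ i}, DC (φ k) (A k)) → ℤ := fun i r =>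
    ∏ k : {k // k ≠ i}, α k.1 (r k)
  let nn : H → ℤ := fun h => if hh : ∃ n : ℤ, h = c0 ^ n then hh.choose else 0
  have hnn : ∀ h ∈ H0, h = c0 ^ (nn h) := by
    intro h hh
    have h1 := (hc0 h).mp hh
    show h = c0 ^ (if hh : ∃ n : ℤ, h = c0 ^ n then hh.choose else 0)
    rw [dif_pos h1]
    exact h1.choose_spec
  let V : (∀ k, DC (φ k) (A k)) → H → ℤ := fun π h => nn h * ∏ k, α k (π k)
  have hV : ∀ i π, ∀ h ∈ H0, μ i (lam i π).2 * f i ((t i π)⁻¹ * φ i h * t i π) = V π h := by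
    intro i π h hh
    have h1 := hnn h hh
    have h3 : V π h = nn h * ∏ k, α k (π k) := rfl
    have h4 : μ i (lam i π).2 = ∏ k : {k // k ≠ i}, α k (π k) := rfl
    have h5 : f i ((t i π)⁻¹ * φ i h * t i π) = nn h * α i (π i) := by
      conv_lhs => rw [h1]
      exact hα i _ _
    rw [h3, h4, h5, Fintype.prod_eq_mul_prod_subtype_ne (fun k => α k (π k)) i]
    ring
  obtain ⟨ρ, hρ⟩ := glue hΓ A hA H0 hH0 t lam hlam ht (fun i r x => μ i r * f i x)
    (fun i r => (hf i).smul _) V hV (fun _ _ => 0)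
  have hfin : Finite (H ⧸ H0) := finite_quot A hAf hA H0 hH0 i1
  have hfin2 : ∀ k, Finite (DC (φ k) (A k)) := fun k => finite_DC (φ k) (A k) (hAf k)
  refine ⟨(H ⧸ H0) × (∀ k, DC (φ k) (A k)), inferInstance,
    ⟨(QuotientGroup.mk 1, fun k => cls (φ k) (A k) 1)⟩, ρ, fun i ω => ⟨fun g => ⟨fun hg => ?_,
    fun hg => ?_⟩, sg (φ i) H0 (t i) ω, μ i (lam i ω.2).2, ?_, fun g hg => ?_⟩⟩
  · obtain ⟨ω', hω1', hω2'⟩ := exists_base (φ i) (A i) H0 (hH0 i) (t i) (lam i) (hlam i)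
      (ht i) (g * sg (φ i) H0 (t i) ω) (lam i ω.2).2
    have h1 : (sg (φ i) H0 (t i) ω')⁻¹ * g * sg (φ i) H0 (t i) ω ∈ A i := by
      have := (A i).inv_mem hω2'
      convert this using 1
      group
    obtain ⟨h2, _⟩ := hρ i g ω ω' hω1' h1
    rw [hg] at h2
    rw [← h2] at h1
    have := (hA i).conj_mem _ h1 (sg (φ i) H0 (t i) ω)
    convert this using 1
    group
  · exact (hρ i g ω ω rfl (hconj i _ _ hg)).1
  · exact Finset.prod_ne_zero_iff.mpr fun k _ => hα0 _ _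
  · rw [(hρ i g ω ω rfl (hconj i _ _ hg)).2]
    ring

end Pool.Agent.R632.VRC
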