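import Pool.Agent.R632.VRC.Sep

/-! Gluing homomorphisms to wreath products over an amalgamated subgroup. -/

set_option linter.unusedSectionVars false
set_option linter.dupNamespace false

namespace Pool.Agent.R632.VRC

universe u

section local_hom

variable {P H : Type u} [Group P] [Group H] (φ : H →* P) (A : Subgroup P) [hA : A.Normal]
  (H0 : Subgroup H) {J R : Type u} (t : J → P) (r : J → R)

/-- the base points -/
noncomputable def sg (ω : (H ⧸ H0) × J) : P := φ (Quotient.out ω.1) * t ω.2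

/-- the map to the cosets -/
noncomputable def EE (ω : (H ⧸ H0) × J) : (P ⧸ A) × R := (QuotientGroup.mk (sg φ H0 t ω), r ω.2)

variable (hbij : Function.Bijective (EE φ A H0 t r))

/-- the induced permutation action -/
noncomputable def nxt (g : P) (ω : (H ⧸ H0) × J) : (H ⧸ H0) × J :=
  (Equiv.ofBijective _ hbij).symm (g • (EE φ A H0 t r ω).1, (EE φ A H0 t r ω).2)

lemma EE_nxt (g : P) (ω : (H ⧸ H0) × J) : EE φ A H0 t r (nxt φ A H0 t r hbij g ω) =
    (g • (EE φ A H0 t r ω).1, (EE φ A H0 t r ω).2) :=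
  (Equiv.ofBijective _ hbij).apply_symm_apply _

lemma nxt_spec (g : P) (ω : (H ⧸ H0) × J) : r (nxt φ A H0 t r hbij g ω).2 = r ω.2 ∧
    (sg φ H0 t (nxt φ A H0 t r hbij g ω))⁻¹ * g * sg φ H0 t ω ∈ A := by
  have h := EE_nxt φ A H0 t r hbij g ω
  refine ⟨congrArg Prod.snd h, ?_⟩
  have h1 : (QuotientGroup.mk (sg φ H0 t (nxt φ A H0 t r hbij g ω)) : P ⧸ A) =
      QuotientGroup.mk (g * sg φ H0 t ω) := congrArg Prod.fst h
  rw [QuotientGroup.eq, ← mul_assoc] at h1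
  exact h1

lemma nxt_uniq {g : P} {ω ω' : (H ⧸ H0) × J} (hr : r ω'.2 = r ω.2)
    (h : (sg φ H0 t ω')⁻¹ * g * sg φ H0 t ω ∈ A) : nxt φ A H0 t r hbij g ω = ω' := by
  apply hbij.1
  rw [EE_nxt]
  refine Prod.ext ?_ hr.symm
  show (QuotientGroup.mk (g * sg φ H0 t ω) : P ⧸ A) = QuotientGroup.mk (sg φ H0 t ω')
  symm
  rw [QuotientGroup.eq, ← mul_assoc]
  exact h

lemma nxt_one (ω : (H ⧸ H0) × J) : nxt φ A H0 t r hbij 1 ω = ω :=
  nxt_uniq φ A H0 t r hbij rfl (by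
    rw [mul_one, inv_mul_cancel]
    exact A.one_mem)

lemma nxt_mul (g h : P) (ω : (H ⧸ H0) × J) : nxt φ A H0 t r hbij (g * h) ω =
    nxt φ A H0 t r hbij g (nxt φ A H0 t r hbij h ω) := by
  obtain ⟨h1, h2⟩ := nxt_spec φ A H0 t r hbij h ω
  obtain ⟨h3, h4⟩ := nxt_spec φ A H0 t r hbij g (nxt φ A H0 t r hbij h ω)
  refine nxt_uniq φ A H0 t r hbij (h3.trans h1) ?_
  have := A.mul_mem h4 h2
  convert this using 1
  group

include hbij in
/-- The homomorphism to the wreath product. -/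
theorem local_hom (v : R → P → ℤ) (hv : ∀ x, HomOn A (v x)) (z : J → ℤ) :
    ∃ ρ : P →* Wr ((H ⧸ H0) × J), ∀ (g : P) (ω ω' : (H ⧸ H0) × J), r ω'.2 = r ω.2 →
      (sg φ H0 t ω')⁻¹ * g * sg φ H0 t ω ∈ A → (ρ g).s ω = ω' ∧
        (ρ g).t ω = v (r ω.2) ((sg φ H0 t ω')⁻¹ * g * sg φ H0 t ω) + z ω'.2 - z ω.2 := by
  let N := nxt φ A H0 t r hbij
  let ρ : P →* Wr ((H ⧸ H0) × J) := MonoidHom.mk' (fun g =>
    { s := ⟨N g, N g⁻¹, fun ω => by
          have h0 := nxt_mul φ A H0 t r hbij g⁻¹ g ω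
          rw [inv_mul_cancel, nxt_one] at h0
          exact h0.symm, fun ω => by
          have h0 := nxt_mul φ A H0 t r hbij g g⁻¹ ω
          rw [mul_inv_cancel, nxt_one] at h0
          exact h0.symm⟩
      t := fun ω => v (r ω.2) ((sg φ H0 t (N g ω))⁻¹ * g * sg φ H0 t ω) + z (N g ω).2 - z ω.2 }) (by
    intro g h
    apply Wr.ext
    · apply Equiv.ext
      intro ω
      exact nxt_mul φ A H0 t r hbij g h ω
    · funext ω
      rw [Wr.mul_t]
      show v (r ω.2) ((sg φ H0 t (N (g * h) ω))⁻¹ * (g * h) * sg φ H0 t ω) + z (N (g * h) ω).2 -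
        z ω.2 = (v (r (N h ω).2) ((sg φ H0 t (N g (N h ω)))⁻¹ * g * sg φ H0 t (N h ω)) +
          z (N g (N h ω)).2 - z (N h ω).2) + (v (r ω.2) ((sg φ H0 t (N h ω))⁻¹ * h * sg φ H0 t ω) +
          z (N h ω).2 - z ω.2)
      obtain ⟨h1, h2⟩ := nxt_spec φ A H0 t r hbij h ω
      obtain ⟨h3, h4⟩ := nxt_spec φ A H0 t r hbij g (nxt φ A H0 t r hbij h ω)
      have h5 := hv (r ω.2) _ h4 _ h2
      have h6 : (sg φ H0 t (N (g * h) ω))⁻¹ * (g * h) * sg φ H0 t ω =
          (sg φ H0 t (N g (N h ω)))⁻¹ * g * sg φ H0 t (N h ω) *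
            ((sg φ H0 t (N h ω))⁻¹ * h * sg φ H0 t ω) := by
        have h7 : N (g * h) ω = N g (N h ω) := nxt_mul φ A H0 t r hbij g h ω
        rw [h7]
        group
      have h8 : r (N h ω).2 = r ω.2 := h1
      have h9 : N (g * h) ω = N g (N h ω) := nxt_mul φ A H0 t r hbij g h ω
      rw [h6, h8, h9]
      have h10 : v (r ω.2) ((sg φ H0 t (N g (N h ω)))⁻¹ * g * sg φ H0 t (N h ω) *
            ((sg φ H0 t (N h ω))⁻¹ * h * sg φ H0 t ω)) =
          v (r ω.2) ((sg φ H0 t (N g (N h ω)))⁻¹ * g * sg φ H0 t (N h ω)) +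
            v (r ω.2) ((sg φ H0 t (N h ω))⁻¹ * h * sg φ H0 t ω) := h5
      rw [h10]
      ring)
  refine ⟨ρ, fun g ω ω' hr h => ?_⟩
  have h1 : N g ω = ω' := nxt_uniq φ A H0 t r hbij hr h
  refine ⟨h1, ?_⟩
  show v (r ω.2) ((sg φ H0 t (N g ω))⁻¹ * g * sg φ H0 t ω) + z (N g ω).2 - z ω.2 = _
  rw [h1]

end local_hom

section classes

variable {P H : Type u} [Group P] [Group H] (φ : H →* P) (A : Subgroup P) [hA : A.Normal]

/-- the double cosets `φ H \ P / A` -/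
def dcSetoid : Setoid P where
  r p q := ∃ h : H, ∃ a ∈ A, p = φ h * q * a
  iseqv :=
    { refl := fun p => ⟨1, 1, A.one_mem, by simp⟩
      symm := by
        rintro p q ⟨h, a, ha, rfl⟩
        refine ⟨h⁻¹, a⁻¹, A.inv_mem ha, ?_⟩
        rw [map_inv]
        group
      trans := by
        rintro p q s ⟨h, a, ha, rfl⟩ ⟨h', a', ha', rfl⟩
        refine ⟨h * h', a' * a, A.mul_mem ha' ha, ?_⟩
        rw [map_mul]
        group }

/-- the type of double cosets -/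
def DC : Type u := Quotient (dcSetoid φ A)

/-- the double coset of an element -/
def cls (p : P) : DC φ A := Quotient.mk (dcSetoid φ A) p

lemma cls_eq {p q : P} : cls φ A p = cls φ A q ↔ ∃ h : H, ∃ a ∈ A, p = φ h * q * a :=
  ⟨fun h => Quotient.exact h, fun h => Quotient.sound (s := dcSetoid φ A) h⟩

lemma cls_surj (d : DC φ A) : ∃ p, cls φ A p = d := Quotient.exists_rep d

lemma finite_DC (hf : A.FiniteIndex) : Finite (DC φ A) := by
  have h1 : Finite (P ⧸ A) := Subgroup.finite_quotient_of_finiteIndex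
  let f : P ⧸ A → DC φ A := fun x => cls φ A (Quotient.out x)
  apply Finite.of_surjective f
  intro d
  obtain ⟨p, rfl⟩ := cls_surj φ A d
  refine ⟨QuotientGroup.mk p, ?_⟩
  show cls φ A (Quotient.out (QuotientGroup.mk p : P ⧸ A)) = _
  rw [cls_eq]
  have h2 : (QuotientGroup.mk (Quotient.out (QuotientGroup.mk p : P ⧸ A)) : P ⧸ A) =
      QuotientGroup.mk p := QuotientGroup.out_eq' _
  have h3 := QuotientGroup.eq.mp h2.symm
  exact ⟨1, _, h3, by rw [map_one]; group⟩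

variable (H0 : Subgroup H) (hH0 : ∀ h, φ h ∈ A ↔ h ∈ H0) {J R : Type u}
  (t : J → P) (lam : J → DC φ A × R) (hlam : Function.Bijective lam)
  (ht : ∀ π, cls φ A (t π) = (lam π).1)

include hH0 hlam ht in
lemma bij_EE : Function.Bijective (EE φ A H0 t (fun π => (lam π).2)) := by
  constructor
  · rintro ⟨κ, π⟩ ⟨κ', π'⟩ h
    have h1 : (QuotientGroup.mk (φ (Quotient.out κ) * t π) : P ⧸ A) =
        QuotientGroup.mk (φ (Quotient.out κ') * t π') :=
      congrArg (fun q : (P ⧸ A) × R => q.1) h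
    have h2 : (lam π).2 = (lam π').2 := congrArg (fun q : (P ⧸ A) × R => q.2) h
    rw [QuotientGroup.eq] at h1
    have h3 : cls φ A (t π') = cls φ A (t π) := by
      rw [cls_eq]
      refine ⟨(Quotient.out κ')⁻¹ * Quotient.out κ, _, h1, ?_⟩
      rw [map_mul, map_inv]
      group
    have h4 : π = π' := by
      apply hlam.1
      refine Prod.ext ?_ h2
      rw [← ht, ← ht, h3]
    subst h4
    have h5 : φ ((Quotient.out κ)⁻¹ * Quotient.out κ') ∈ A := by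
      have h6 := hA.conj_mem _ h1 (t π)
      rw [map_mul, map_inv]
      convert h6 using 1
      group
    rw [hH0] at h5
    have h6 : (QuotientGroup.mk (Quotient.out κ) : H ⧸ H0) = QuotientGroup.mk (Quotient.out κ') :=
      QuotientGroup.eq.mpr h5
    rw [QuotientGroup.out_eq', QuotientGroup.out_eq'] at h6
    rw [h6]
  · rintro ⟨x, r⟩
    obtain ⟨p, rfl⟩ := QuotientGroup.mk_surjective x
    obtain ⟨π, hπ⟩ := hlam.2 (cls φ A p, r)
    have h1 : cls φ A p = cls φ A (t π) := by rw [ht, hπ]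
    rw [cls_eq] at h1
    obtain ⟨h, a, ha, hp⟩ := h1
    refine ⟨(QuotientGroup.mk h, π), Prod.ext ?_ (by show (lam π).2 = r; rw [hπ])⟩
    show (QuotientGroup.mk (φ (Quotient.out (QuotientGroup.mk h : H ⧸ H0)) * t π) : P ⧸ A) =
      QuotientGroup.mk p
    rw [QuotientGroup.eq, hp]
    have h2 : (QuotientGroup.mk (Quotient.out (QuotientGroup.mk h : H ⧸ H0)) : H ⧸ H0) =
      QuotientGroup.mk h := QuotientGroup.out_eq' _
    rw [QuotientGroup.eq, ← hH0] at h2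
    have h3 := hA.conj_mem _ h2 (t π)⁻¹
    have h4 := A.mul_mem h3 ha
    convert h4 using 1
    rw [map_mul, map_inv]
    group

end classes

/-! ### amalgams -/

section amalg

variable {ι : Type} {G : ι → Type u} [∀ i, Group (G i)] {H : Type u} [Group H]
  (φ : ∀ i, H →* G i) {Γ : Type u} [Group Γ] (o : ∀ i, G i →* Γ)

/-- `Γ` is the amalgam of the groups `G i` over `H` -/
structure Amalg : Prop where
  comp : ∀ i j h, o i (φ i h) = o j (φ j h)
  lift : ∀ (W : Type u) [Group W] (ρ : ∀ i, G i →* W), (∀ i j h, ρ i (φ i h) = ρ j (φ j h)) →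
    ∃ F : Γ →* W, ∀ i g, F (o i g) = ρ i g
  gen : ∀ x : Γ, ∃ L : List (Σ i, G i), x = (L.map (fun p => o p.1 p.2)).prod

variable {φ o}

/-- Gluing. -/
theorem glue (hΓ : Amalg φ o) (A : ∀ i, Subgroup (G i)) (hA : ∀ i, (A i).Normal)
    (H0 : Subgroup H) (hH0 : ∀ i h, φ i h ∈ A i ↔ h ∈ H0) {J : Type u} {R : ι → Type u}
    (t : ∀ i, J → G i) (lam : ∀ i, J → DC (φ i) (A i) × R i)
    (hlam : ∀ i, Function.Bijective (lam i)) (ht : ∀ i π, cls (φ i) (A i) (t i π) = (lam i π).1)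
    (v : ∀ i, R i → G i → ℤ) (hv : ∀ i x, HomOn (A i) (v i x)) (V : J → H → ℤ)
    (hV : ∀ i π, ∀ h ∈ H0, v i (lam i π).2 ((t i π)⁻¹ * φ i h * t i π) = V π h)
    (z : ι → J → ℤ) :
    ∃ ρ : Γ →* Wr ((H ⧸ H0) × J), ∀ i (g : G i) (ω ω' : (H ⧸ H0) × J),
      (lam i ω'.2).2 = (lam i ω.2).2 →
      (sg (φ i) H0 (t i) ω')⁻¹ * g * sg (φ i) H0 (t i) ω ∈ A i → (ρ (o i g)).s ω = ω' ∧
        (ρ (o i g)).t ω = v i (lam i ω.2).2 ((sg (φ i) H0 (t i) ω')⁻¹ * g * sg (φ i) H0 (t i) ω)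
          + z i ω'.2 - z i ω.2 := by
  have hloc := fun i => local_hom (φ i) (A i) H0 (t i) (fun π => (lam i π).2)
    (bij_EE (φ i) (A i) H0 (hH0 i) (t i) (lam i) (hlam i) (ht i)) (v i) (hv i) (z i)
  choose ρ hρ using hloc
  have key : ∀ i (y : H) (κ : H ⧸ H0) (π : J), (ρ i (φ i y)).s (κ, π) = (y • κ, π) ∧
      (ρ i (φ i y)).t (κ, π) = V π ((Quotient.out (y • κ))⁻¹ * y * Quotient.out κ) := by
    intro i y κ π
    have h1 : (Quotient.out (y • κ))⁻¹ * y * Quotient.out κ ∈ H0 := by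
      rw [mul_assoc, ← QuotientGroup.eq, QuotientGroup.out_eq']
      conv_lhs => rw [← QuotientGroup.out_eq' κ]
      rfl
    have h2 : (sg (φ i) H0 (t i) (y • κ, π))⁻¹ * φ i y * sg (φ i) H0 (t i) (κ, π) =
        (t i π)⁻¹ * φ i ((Quotient.out (y • κ))⁻¹ * y * Quotient.out κ) * t i π := by
      unfold sg
      simp only [map_mul, map_inv]
      group
    have h3 : (sg (φ i) H0 (t i) (y • κ, π))⁻¹ * φ i y * sg (φ i) H0 (t i) (κ, π) ∈ A i := by
      rw [h2]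
      have := (hA i).conj_mem _ ((hH0 i _).mpr h1) (t i π)⁻¹
      rwa [inv_inv] at this
    obtain ⟨h4, h5⟩ := hρ i (φ i y) (κ, π) (y • κ, π) rfl h3
    refine ⟨h4, ?_⟩
    rw [h5, h2, hV i π _ h1]
    ring
  obtain ⟨F, hF⟩ := hΓ.lift (Wr ((H ⧸ H0) × J)) ρ (by
    intro i j y
    apply Wr.ext
    · apply Equiv.ext
      rintro ⟨κ, π⟩
      rw [(key i y κ π).1, (key j y κ π).1]
    · funext ⟨κ, π⟩
      rw [(key i y κ π).2, (key j y κ π).2])
  refine ⟨F, fun i g ω ω' h1 h2 => ?_⟩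
  rw [hF]
  exact hρ i g ω ω' h1 h2

end amalg

end Pool.Agent.R632.VRC
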