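import Pool.Agent.R632.VRC.Ell

/-! Hyperbolic elements of amalgams. -/

set_option linter.unusedSectionVars false
set_option linter.dupNamespace false

namespace Pool.Agent.R632.VRC

universe u

variable {ι : Type} [Fintype ι] [DecidableEq ι] {G : ι → Type u} [∀ i, Group (G i)] {H : Type u}
  [Group H] {φ : ∀ i, H →* G i} {Γ : Type u} [Group Γ] {o : ∀ i, G i →* Γ}

/-- extending a partial injection to a bijection -/
lemma extend_equiv {X Y : Type u} [Finite X] (e : X ≃ Y) (S : Set X) (F : X → Y)
    (hF : S.InjOn F) : ∃ g : X ≃ Y, ∀ x ∈ S, g x = F x := by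
  classical
  have : Fintype X := Fintype.ofFinite X
  have : Fintype Y := Fintype.ofEquiv X e
  obtain ⟨g, hg⟩ := Set.MapsTo.exists_equiv_extend_of_card_eq (α := X) (β := Y)
    (t := Finset.univ) (by rw [Finset.card_univ]; exact Fintype.card_congr e) (s := S) (f := F)
    (fun x _ => Finset.mem_coe.mpr (Finset.mem_univ _)) hF
  exact ⟨g.trans (Equiv.subtypeUnivEquiv (fun y => Finset.mem_univ y)), fun x hx => hg x hx⟩

/-- products of the last terms -/
def tailProd (n : ℕ) (x : ℕ → Γ) : ℕ → Γ
  | 0 => 1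
  | l + 1 => x (n - (l + 1)) * tailProd n x l

/-- Cyclically reduced words of length at least two. -/
theorem hyperbolic (hΓ : Amalg φ o) (A : ∀ i, Subgroup (G i)) (hA : ∀ i, (A i).Normal)
    (hAf : ∀ i, (A i).FiniteIndex) (H0 : Subgroup H) (hH0 : ∀ i h, φ i h ∈ A i ↔ h ∈ H0)
    (n : ℕ) (hn : 2 ≤ n) (idx : ZMod n → ι) (el : ∀ j, G (idx j))
    (hidx : ∀ j, idx j ≠ idx (j + 1))
    (hel : ∀ j, cls (φ (idx j)) (A (idx j)) (el j) ≠ cls (φ (idx j)) (A (idx j)) 1) :
    IsVirtRetract (Subgroup.zpowers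
      (tailProd n (fun k : ℕ => o (idx (k : ZMod n)) (el (k : ZMod n))) n)) := by
  classical
  have hne : NeZero n := ⟨by omega⟩
  let B := ∀ k, DC (φ k) (A k)
  let Bi : ι → Type u := fun i => ∀ k : {k // k ≠ i}, DC (φ k) (A k)
  let base : B := fun k => cls (φ k) (A k) 1
  let basei : ∀ i, Bi i := fun i k => cls (φ k) (A k) 1
  let pt : ZMod n → ZMod n × B := fun j => (j, base)
  let E' : ∀ i, ZMod n → G i := fun i j => if h : idx j = i then h ▸ el j else 1
  have hE' : ∀ j, E' (idx j) j = el j := fun j => dif_pos rfl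
  have hE'' : ∀ i j, idx j = i → cls (φ i) (A i) (E' i j) ≠ cls (φ i) (A i) 1 := by
    rintro i j rfl
    rw [hE']
    exact hel j
  have hfinD : ∀ k, Finite (DC (φ k) (A k)) := fun k => finite_DC (φ k) (A k) (hAf k)
  have hfinB : Finite B := Pi.finite
  let lam0 : ∀ i, (ZMod n × B) ≃ DC (φ i) (A i) × (ZMod n × Bi i) := fun i =>
    { toFun := fun p => (p.2 i, (p.1, fun k => p.2 k))
      invFun := fun q => (q.2.1, (Equiv.piSplitAt i (fun k => DC (φ k) (A k))).symm (q.1, q.2.2))
      left_inv := fun p => Prod.ext rfl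
        ((Equiv.piSplitAt i (fun k => DC (φ k) (A k))).symm_apply_apply p.2)
      right_inv := fun q => by
        have h1 := (Equiv.piSplitAt i (fun k => DC (φ k) (A k))).apply_symm_apply (q.1, q.2.2)
        have h2 := congrArg Prod.fst h1
        have h3 := congrArg Prod.snd h1
        exact Prod.ext h2 (Prod.ext rfl h3) }
  let F : ∀ i, ZMod n × B → DC (φ i) (A i) × (ZMod n × Bi i) := fun i p =>
    if idx p.1 = i then (cls (φ i) (A i) (E' i p.1), (p.1, basei i))
    else (cls (φ i) (A i) 1, (p.1 - 1, basei i))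
  let S : ι → Set (ZMod n × B) := fun i => {p | p.2 = base ∧ (idx p.1 = i ∨ idx (p.1 - 1) = i)}
  have hF : ∀ i, (S i).InjOn (F i) := by
    rintro i ⟨j, b⟩ ⟨hb, hj⟩ ⟨j', b'⟩ ⟨hb', hj'⟩ h
    simp only at hb hb' hj hj'
    subst hb
    subst hb'
    by_cases h1 : idx j = i
    · by_cases h2 : idx j' = i
      · simp only [F, if_pos h1, if_pos h2, Prod.mk.injEq, and_true] at h
        rw [h.2]
      · simp only [F, if_pos h1, if_neg h2, Prod.mk.injEq, and_true] at h
        exact absurd h.1 (hE'' i j h1)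
    · by_cases h2 : idx j' = i
      · simp only [F, if_neg h1, if_pos h2, Prod.mk.injEq, and_true] at h
        exact absurd h.1.symm (hE'' i j' h2)
      · simp only [F, if_neg h1, if_neg h2, Prod.mk.injEq, and_true, true_and] at h
        rw [sub_left_inj] at h
        rw [h]
  have hext := fun i => extend_equiv (X := ZMod n × B) (lam0 i) (S i) (F i) (hF i)
  choose lam hlamS using hext
  let t : ∀ i, ZMod n × B → G i := fun i p =>
    if p ∈ S i then (if idx p.1 = i then E' i p.1 else 1) else rep (φ i) (A i) (lam i p).1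
  have ht : ∀ i p, cls (φ i) (A i) (t i p) = (lam i p).1 := by
    intro i p
    by_cases h1 : p ∈ S i
    · rw [hlamS i p h1]
      by_cases h2 : idx p.1 = i
      · simp only [t, F, if_pos h1, if_pos h2]
      · simp only [t, F, if_pos h1, if_neg h2]
    · simp only [t, if_neg h1]
      exact cls_rep _ _ _
  let z : ι → ZMod n × B → ℤ := fun i p => if i = idx 0 ∧ p = pt 0 then 1 else 0
  obtain ⟨ρ, hρ⟩ := glue hΓ A hA H0 hH0 t (fun i => lam i) (fun i => (lam i).bijective) ht
    (fun i r x => 0) (fun i r => HomOn.zero) (fun _ _ => 0) (fun _ _ _ _ => rfl) z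
  let κ0 : H ⧸ H0 := QuotientGroup.mk 1
  have hfin : Finite (H ⧸ H0) := finite_quot A hAf hA H0 hH0 (idx 0)
  have hfin1 : Finite (ZMod n × B) := Finite.instProd
  have hfin2 : Finite ((H ⧸ H0) × ZMod n × B) := Finite.instProd
  -- one step
  have hstep : ∀ j : ZMod n, (ρ (o (idx j) (el j))).s (κ0, pt (j + 1)) = (κ0, pt j) ∧
      (ρ (o (idx j) (el j))).t (κ0, pt (j + 1)) = if j = 0 then 1 else 0 := by
    intro j
    have hS1 : pt j ∈ S (idx j) := ⟨rfl, Or.inl rfl⟩
    have hS2 : pt (j + 1) ∈ S (idx j) := ⟨rfl, Or.inr (by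
      show idx (j + 1 - 1) = idx j
      rw [add_sub_cancel_right])⟩
    have hneq : idx (j + 1) ≠ idx j := (hidx j).symm
    have hl1 : lam (idx j) (pt j) = (cls (φ (idx j)) (A (idx j)) (el j), (j, basei (idx j))) := by
      rw [hlamS _ _ hS1]
      show (if idx j = idx j then _ else _) = _
      rw [if_pos rfl, hE']
    have hl2 : lam (idx j) (pt (j + 1)) =
        (cls (φ (idx j)) (A (idx j)) 1, (j, basei (idx j))) := by
      rw [hlamS _ _ hS2]
      show (if idx (j + 1) = idx j then _ else _) = _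
      rw [if_neg hneq]
      show (_, (j + 1 - 1, _)) = _
      rw [add_sub_cancel_right]
    have ht1 : t (idx j) (pt j) = el j := by
      show (if pt j ∈ S (idx j) then (if idx j = idx j then E' (idx j) j else 1) else _) = _
      rw [if_pos hS1, if_pos rfl, hE']
    have ht2 : t (idx j) (pt (j + 1)) = 1 := by
      show (if pt (j + 1) ∈ S (idx j) then (if idx (j + 1) = idx j then _ else 1) else _) = _
      rw [if_pos hS2, if_neg hneq]
    have hk : Quotient.out κ0 ∈ H0 := by
      have h1 : (QuotientGroup.mk (Quotient.out κ0) : H ⧸ H0) = QuotientGroup.mk 1 :=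
        QuotientGroup.out_eq' κ0
      have h2 := QuotientGroup.eq.mp h1.symm
      rwa [inv_one, one_mul] at h2
    have hmem : (sg (φ (idx j)) H0 (t (idx j)) (κ0, pt j))⁻¹ * el j *
        sg (φ (idx j)) H0 (t (idx j)) (κ0, pt (j + 1)) ∈ A (idx j) := by
      unfold sg
      show (φ (idx j) (Quotient.out κ0) * t (idx j) (pt j))⁻¹ * el j *
        (φ (idx j) (Quotient.out κ0) * t (idx j) (pt (j + 1))) ∈ _
      rw [ht1, ht2, mul_one]
      have h3 := (hH0 (idx j) _).mpr hk
      have h4 := (hA (idx j)).conj_mem _ ((A (idx j)).inv_mem h3) (el j)⁻¹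
      have h5 := (A (idx j)).mul_mem h4 h3
      convert h5 using 1
      group
    obtain ⟨h6, h7⟩ := hρ (idx j) (el j) (κ0, pt (j + 1)) (κ0, pt j) (by
      show (lam (idx j) (pt j)).2 = (lam (idx j) (pt (j + 1))).2
      rw [hl1, hl2]) hmem
    refine ⟨h6, ?_⟩
    rw [h7]
    show 0 + z (idx j) (pt j) - z (idx j) (pt (j + 1)) = _
    have hz1 : z (idx j) (pt j) = if j = 0 then 1 else 0 := by
      by_cases hj : j = 0
      · rw [if_pos hj, hj]
        exact if_pos ⟨rfl, rfl⟩
      · rw [if_neg hj]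
        exact if_neg (fun h => hj (congrArg Prod.fst h.2))
    have hz2 : z (idx j) (pt (j + 1)) = 0 := by
      refine if_neg (fun h => ?_)
      have h8 : j + 1 = 0 := congrArg Prod.fst h.2
      have h9 := hidx j
      rw [h8] at h9
      exact h9 h.1
    rw [hz1, hz2, zero_add, sub_zero]
  -- the suffixes
  have hsuf : ∀ l ≤ n, (ρ (tailProd n (fun k : ℕ => o (idx (k : ZMod n)) (el (k : ZMod n))) l)).s
      (κ0, pt 0) = (κ0, pt ((n - l : ℕ) : ZMod n)) ∧
      (ρ (tailProd n (fun k : ℕ => o (idx (k : ZMod n)) (el (k : ZMod n))) l)).t (κ0, pt 0) =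
        if l = n then 1 else 0 := by
    intro l
    induction l with
    | zero =>
      intro _
      rw [tailProd, map_one, Nat.sub_zero, ZMod.natCast_self, if_neg (by omega)]
      exact ⟨rfl, rfl⟩
    | succ l ih =>
      intro hl
      obtain ⟨h1, h2⟩ := ih (by omega)
      rw [tailProd]
      have h3 : ((n - (l + 1) : ℕ) : ZMod n) + 1 = ((n - l : ℕ) : ZMod n) := by
        rw [← Nat.cast_add_one]
        congr 1
        omega
      obtain ⟨h4, h5⟩ := hstep ((n - (l + 1) : ℕ) : ZMod n)
      rw [h3] at h4 h5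
      constructor
      · rw [rho_s, h1]
        exact h4
      · rw [rho_t, h1, h2, if_neg (show l ≠ n by omega), add_zero]
        rw [h5]
        have h6 : ((n - (l + 1) : ℕ) : ZMod n) = 0 ↔ l + 1 = n := by
          rw [ZMod.natCast_eq_zero_iff]
          constructor
          · intro h
            have := Nat.eq_zero_of_dvd_of_lt h (by omega)
            omega
          · intro h
            rw [h, Nat.sub_self]
            exact dvd_zero _
        by_cases h7 : l + 1 = n
        · rw [if_pos h7, if_pos (h6.mpr h7)]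
        · rw [if_neg h7, if_neg (fun h => h7 (h6.mp h))]
  obtain ⟨h1, h2⟩ := hsuf n le_rfl
  apply virtRetract_of_hom ρ _ (κ0, pt 0) 1
  · rw [pow_one, h1, Nat.sub_self, Nat.cast_zero]
  · rw [pow_one, h2, if_pos rfl]
    exact one_ne_zero

end Pool.Agent.R632.VRC
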