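import Pool.Agent.R632.VRC.Hyp

/-! Property (VRC) for amalgams over virtually cyclic subgroups. -/

set_option linter.unusedSectionVars false
set_option linter.dupNamespace false

namespace Pool.Agent.R632.VRC

universe u

variable {ι : Type} [Fintype ι] [DecidableEq ι] {G : ι → Type u} [∀ i, Group (G i)] {H : Type u}
  [Group H] {φ : ∀ i, H →* G i} {Γ : Type u} [Group Γ] {o : ∀ i, G i →* Γ}

/-- The choice of compatible normal subgroups of finite index. -/
theorem exists_data (hG : ∀ i, VRC (G i)) (hφ : ∀ i, Function.Injective (φ i)) (c : H)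
    (hc : (Subgroup.zpowers c).FiniteIndex) (L : ∀ i, Subgroup (G i))
    (hL : ∀ i, (L i).FiniteIndex) (S : ∀ i, Set (G i)) (hS : ∀ i, (S i).Finite)
    (hS' : ∀ i, ∀ p ∈ S i, p ∉ (φ i).range) :
    ∃ A : ∀ i, Subgroup (G i), (∀ i, (A i).Normal) ∧ (∀ i, (A i).FiniteIndex) ∧
      (∀ i, A i ≤ L i) ∧ (∀ i, ∀ p ∈ S i, ∀ h : H, φ i h * p ∉ A i) ∧
      ∃ (H0 : Subgroup H) (c0 : H) (f : ∀ i, G i → ℤ), (∀ i h, φ i h ∈ A i ↔ h ∈ H0) ∧
        (∀ h, h ∈ H0 ↔ ∃ n : ℤ, h = c0 ^ n) ∧ (∀ i, HomOn (A i) (f i)) ∧
        (c0 = 1 ∨ ∀ i, f i (φ i c0) ≠ 0) := by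
  classical
  by_cases hfin : IsOfFinOrder c
  · -- the finite case
    have h1 : (Subgroup.zpowers (1 : H)).FiniteIndex := by
      have h2 : Finite (Subgroup.zpowers c) := (finite_zpowers.mpr hfin).to_subtype
      have h3 : Finite (H ⧸ Subgroup.zpowers c) := Subgroup.finite_quotient_of_finiteIndex
      have h4 : Finite H := by
        have : Finite ((H ⧸ Subgroup.zpowers c) × Subgroup.zpowers c) := inferInstance
        exact Finite.of_equiv _ (Subgroup.groupEquivQuotientProdSubgroup (s := Subgroup.zpowers c)).symm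
      infer_instance
    have h2 := fun i => exists_small (hG i) (φ i) (hφ i) 1 h1 (L i) (hL i) (hS i) (hS' i)
    choose A hA hAf hAL hAc hAS using h2
    refine ⟨A, hA, hAf, hAL, hAS, ⊥, 1, fun _ _ => 0, fun i h => ⟨fun hh => ?_, fun hh => ?_⟩,
      fun h => ?_, fun i => HomOn.zero, Or.inl rfl⟩
    · have := hAc i h hh
      rwa [Subgroup.zpowers_one_eq_bot] at this
    · rw [Subgroup.mem_bot] at hh
      rw [hh, map_one]
      exact (A i).one_mem
    · rw [Subgroup.mem_bot]
      simp
  · -- the infinite case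
    have hinf : ∀ n : ℤ, c ^ n = 1 → n = 0 := by
      intro n hn
      by_contra h0
      exact hfin (isOfFinOrder_iff_zpow_eq_one.mpr ⟨n, h0, hn⟩)
    have hinf' : ∀ i, ∀ n : ℤ, φ i c ^ n = 1 → n = 0 := by
      intro i n hn
      apply hinf
      apply hφ i
      rw [map_zpow, hn, map_one]
    have h1 := fun i => exists_homOn (hG i) (hinf' i)
    choose K hK hcK f hf hfc using h1
    have h2 := fun i => exists_small (hG i) (φ i) (hφ i) c hc (L i ⊓ K i)
      (by have := hL i; have := hK i; infer_instance) (hS i) (hS' i)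
    choose A hA hAf hAL hAc hAS using h2
    -- the exponents
    have h3 : ∀ i, ∃ k : ℤ, k ≠ 0 ∧ ∀ h, φ i h ∈ A i ↔ ∃ n : ℤ, h = c ^ (k * n) := by
      intro i
      let V : AddSubgroup ℤ :=
        { carrier := {n | φ i (c ^ n) ∈ A i}
          add_mem' := fun {a b} ha hb => by
            show φ i (c ^ (a + b)) ∈ A i
            rw [zpow_add, map_mul]
            exact (A i).mul_mem ha hb
          zero_mem' := by
            show φ i (c ^ (0 : ℤ)) ∈ A i
            rw [zpow_zero, map_one]
            exact (A i).one_mem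
          neg_mem' := fun {a} ha => by
            show φ i (c ^ (-a)) ∈ A i
            rw [zpow_neg, map_inv]
            exact (A i).inv_mem ha }
      obtain ⟨k, hk⟩ := Int.subgroup_cyclic V
      have hmem : ∀ n : ℤ, φ i (c ^ n) ∈ A i ↔ ∃ q : ℤ, n = k * q := by
        intro n
        have h4 : φ i (c ^ n) ∈ A i ↔ n ∈ V := Iff.rfl
        rw [h4, hk, AddSubgroup.mem_closure_singleton]
        constructor
        · rintro ⟨q, hq⟩
          exact ⟨q, by rw [← hq, smul_eq_mul, mul_comm]⟩
        · rintro ⟨q, hq⟩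
          exact ⟨q, by rw [hq, smul_eq_mul, mul_comm]⟩
      refine ⟨k, ?_, fun h => ⟨fun hh => ?_, ?_⟩⟩
      · rintro rfl
        obtain ⟨m, hm0, hm⟩ : ∃ m : ℕ, m ≠ 0 ∧ (φ i c) ^ m ∈ A i := by
          obtain ⟨m, hm0, _, hm⟩ := Subgroup.exists_pow_mem_of_index_ne_zero
            (hAf i).index_ne_zero (φ i c)
          exact ⟨m, by omega, hm⟩
        have h5 : φ i (c ^ (m : ℤ)) ∈ A i := by
          rw [zpow_natCast, map_pow]
          exact hm
        obtain ⟨q, hq⟩ := (hmem _).mp h5
        rw [zero_mul] at hq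
        exact hm0 (by exact_mod_cast hq)
      · obtain ⟨n, hn⟩ := hAc i h hh
        have hn' : c ^ n = h := hn
        rw [← hn'] at hh
        obtain ⟨q, hq⟩ := (hmem n).mp hh
        exact ⟨q, by rw [← hn', hq]⟩
      · rintro ⟨n, rfl⟩
        exact (hmem _).mpr ⟨n, rfl⟩
    choose k hk0 hk using h3
    have hfn : ∀ i (n : ℤ), f i (φ i (c ^ n)) = n := by
      intro i n
      rw [map_zpow, (hf i).zpow (hcK i), hfc, mul_one]
    have h4 := fun i => refine_trace (φ i) c (A i) (hA := hA i) (hAf i) (f i)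
      ((hf i).mono ((hAL i).trans inf_le_right)) (k i) (∏ j : {j // j ≠ i}, k j) (hk i)
      (by rw [hfn]; exact hk0 i) (Finset.prod_ne_zero_iff.mpr fun j _ => hk0 j)
    choose A' hA' hAf' hAL' hAc' using h4
    have hprod : ∀ i, k i * ∏ j : {j // j ≠ i}, k j = ∏ j, k j := fun i =>
      (Fintype.prod_eq_mul_prod_subtype_ne k i).symm
    refine ⟨A', hA', hAf', fun i => (hAL' i).trans ((hAL i).trans inf_le_left),
      fun i p hp h hh => hAS i p hp h (hAL' i hh), Subgroup.zpowers (c ^ (∏ j, k j)),
      c ^ (∏ j, k j), f, fun i h => ?_, fun h => ?_,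
      fun i => (hf i).mono ((hAL' i).trans ((hAL i).trans inf_le_right)), Or.inr fun i => ?_⟩
    · rw [hAc' i h, hprod i]
      constructor
      · rintro ⟨n, rfl⟩
        exact ⟨n, by show (c ^ _) ^ n = _; rw [zpow_mul]⟩
      · rintro ⟨n, hn⟩
        have hn' : (c ^ (∏ j, k j)) ^ n = h := hn
        exact ⟨n, by rw [← hn', zpow_mul]⟩
    · constructor
      · rintro ⟨n, hn⟩
        exact ⟨n, hn.symm⟩
      · rintro ⟨n, hn⟩
        exact ⟨n, hn.symm⟩
    · rw [hfn]
      exact Finset.prod_ne_zero_iff.mpr fun j _ => hk0 j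

/-- elements of the factors -/
theorem factor_case (hΓ : Amalg φ o) (hG : ∀ i, VRC (G i)) (hφ : ∀ i, Function.Injective (φ i))
    (c : H) (hc : (Subgroup.zpowers c).FiniteIndex) (i0 : ι) (g : G i0) :
    IsVirtRetract (Subgroup.zpowers (o i0 g)) := by
  classical
  by_cases hfin : IsOfFinOrder g
  · have h1 : (Subgroup.zpowers g : Set (G i0)).Finite := finite_zpowers.mpr hfin
    obtain ⟨N, hN1, hN2, hN3⟩ := rf_finite (hG i0)
      (h1.subset (Set.sdiff_subset (t := {1}))) (fun x hx h => hx.2 h)
    obtain ⟨A, hA, hAf, hAL, -, H0, c0, f, hH0, hc0, hf, hcase⟩ := exists_data hG hφ c hc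
      (Function.update (fun _ => ⊤) i0 N) (fun i => by
        by_cases h : i = i0
        · subst h
          rw [Function.update_self]
          exact hN2
        · rw [Function.update_of_ne h]
          infer_instance) (fun _ => ∅) (fun _ => Set.finite_empty)
      (fun i p hp => absurd hp (Set.notMem_empty p))
    apply torsion hΓ A hA hAf H0 hH0 i0 g
    intro n hn
    by_contra h2
    apply hN3 (g ^ n) ⟨⟨n, rfl⟩, h2⟩
    have h3 := hAL i0 hn
    rwa [Function.update_self] at h3
  · have hinf : ∀ n : ℤ, g ^ n = 1 → n = 0 := by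
      intro n hn
      by_contra h0
      exact hfin (isOfFinOrder_iff_zpow_eq_one.mpr ⟨n, h0, hn⟩)
    obtain ⟨K, hK, hgK, fg, hfg, hfg1⟩ := exists_homOn (hG i0) hinf
    obtain ⟨A, hA, hAf, hAL, -, H0, c0, f, hH0, hc0, hf, hcase⟩ := exists_data hG hφ c hc
      (Function.update (fun _ => ⊤) i0 K) (fun i => by
        by_cases h : i = i0
        · subst h
          rw [Function.update_self]
          exact hK
        · rw [Function.update_of_ne h]
          infer_instance) (fun _ => ∅) (fun _ => Set.finite_empty)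
      (fun i p hp => absurd hp (Set.notMem_empty p))
    have hAK : A i0 ≤ K := by
      have h3 := hAL i0
      rwa [Function.update_self] at h3
    obtain ⟨m, hm0, hm⟩ : ∃ m : ℕ, 0 < m ∧ g ^ m ∈ A i0 := by
      obtain ⟨m, hm0, _, hm⟩ := Subgroup.exists_pow_mem_of_index_ne_zero
        (hAf i0).index_ne_zero g
      exact ⟨m, hm0, hm⟩
    have hfgm : fg (g ^ m) = m := by
      have := hfg.zpow hgK m
      rwa [zpow_natCast, hfg1, mul_one] at this
    -- the multiplier
    obtain ⟨t, ht1, ht2⟩ : ∃ t : ℤ, (c0 = 1 ∨ f i0 (φ i0 c0) + t * fg (φ i0 c0) ≠ 0) ∧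
        f i0 (g ^ m) + t * fg (g ^ m) ≠ 0 := by
      rw [hfgm]
      have hm' : (m : ℤ) ≠ 0 := by exact_mod_cast hm0.ne'
      by_cases h1 : f i0 (g ^ m) = 0
      · rw [h1]
        by_cases h2 : c0 = 1
        · exact ⟨1, Or.inl h2, by rw [zero_add, one_mul]; exact hm'⟩
        · have h3 : f i0 (φ i0 c0) ≠ 0 := (hcase.resolve_left h2) i0
          by_cases h4 : f i0 (φ i0 c0) + 1 * fg (φ i0 c0) = 0
          · refine ⟨2, Or.inr ?_, ?_⟩
            · intro h5
              apply h3
              linarith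
            · rw [zero_add]
              exact mul_ne_zero two_ne_zero hm'
          · exact ⟨1, Or.inr h4, by rw [zero_add, one_mul]; exact hm'⟩
      · refine ⟨0, ?_, by rw [zero_mul, add_zero]; exact h1⟩
        rcases hcase with h2 | h2
        · exact Or.inl h2
        · exact Or.inr (by rw [zero_mul, add_zero]; exact h2 i0)
    refine elliptic hΓ A hA hAf H0 hH0 c0 hc0
      (Function.update f i0 (fun x => f i0 x + t * fg x)) (fun i => ?_) ?_ i0 g m hm ?_
    · by_cases h : i = i0
      · subst h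
        rw [Function.update_self]
        exact (hf i).lin (hfg.mono hAK) t
      · rw [Function.update_of_ne h]
        exact hf i
    · rcases ht1 with h1 | h1
      · exact Or.inl h1
      · rcases hcase with h2 | h2
        · exact Or.inl h2
        · refine Or.inr fun i => ?_
          by_cases h : i = i0
          · subst h
            rw [Function.update_self]
            exact h1
          · rw [Function.update_of_ne h]
            exact h2 i
    · rw [Function.update_self]
      exact ht2

/-! ### reduction of words -/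

/-- the value of a word -/
def ev (o : ∀ i, G i →* Γ) (L : List (Σ i, G i)) : Γ := (L.map (fun p => o p.1 p.2)).prod

lemma ev_cons (a : Σ i, G i) (L : List (Σ i, G i)) : ev o (a :: L) = o a.1 a.2 * ev o L := by
  unfold ev
  rw [List.map_cons, List.prod_cons]

lemma ev_append (L L' : List (Σ i, G i)) : ev o (L ++ L') = ev o L * ev o L' := by
  unfold ev
  rw [List.map_append, List.prod_append]

lemma ev_nil : ev o ([] : List (Σ i, G i)) = 1 := rfl

/-- rotation is conjugation -/
lemma ev_rotate (L : List (Σ i, G i)) (k : ℕ) : ∃ y : Γ, ev o (L.rotate k) = y * ev o L * y⁻¹ := by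
  induction k with
  | zero => exact ⟨1, by simp⟩
  | succ k ih =>
    obtain ⟨y, hy⟩ := ih
    have h1 : L.rotate (k + 1) = (L.rotate k).rotate 1 := (List.rotate_rotate L k 1).symm
    rw [h1]
    rcases h2 : L.rotate k with _ | ⟨a, t⟩
    · refine ⟨y, ?_⟩
      rw [List.rotate_nil, ← hy, h2]
    · refine ⟨(o a.1 a.2)⁻¹ * y, ?_⟩
      have h3 : (a :: t).rotate 1 = t ++ [a] := by simp
      rw [h3, ev_append, ev_cons, ev_nil, mul_one]
      rw [h2, ev_cons] at hy
      have h4 : ev o L = y⁻¹ * (o a.1 a.2 * ev o t) * y := by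
        rw [hy]
        group
      rw [h4]
      group

/-- the number of letters of the shortest word in the conjugacy class -/
def MinWord (o : ∀ i, G i →* Γ) (L : List (Σ i, G i)) : Prop :=
  ∀ L' : List (Σ i, G i), (∃ y : Γ, ev o L' = y * ev o L * y⁻¹) → L.length ≤ L'.length

lemma MinWord.rotate {L : List (Σ i, G i)} (h : MinWord o L) (k : ℕ) : MinWord o (L.rotate k) := by
  rintro L' ⟨y, hy⟩
  obtain ⟨z, hz⟩ := ev_rotate (o := o) L k
  rw [List.length_rotate]
  apply h L'
  refine ⟨y * z, ?_⟩
  rw [hy, hz]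
  group

lemma minWord_head (hΓ : Amalg φ o) {a b : Σ i, G i} {t : List (Σ i, G i)}
    (h : MinWord o (a :: b :: t)) : a.1 ≠ b.1 ∧ a.2 ∉ (φ a.1).range := by
  obtain ⟨i, g⟩ := a
  obtain ⟨j, g'⟩ := b
  constructor
  · intro hij
    simp only at hij
    subst hij
    have h1 := h (⟨i, g * g'⟩ :: t) ⟨1, by
      rw [ev_cons, ev_cons, ev_cons]
      simp only [map_mul]
      group⟩
    simp at h1
  · rintro ⟨y, hy⟩
    simp only at hy
    have h1 := h (⟨j, φ j y * g'⟩ :: t) ⟨1, by
      rw [ev_cons, ev_cons, ev_cons]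
      simp only [map_mul, ← hy, hΓ.comp j i y]
      group⟩
    simp at h1

lemma tailProd_eq (n : ℕ) (L : List (Σ i, G i)) (hL : L.length = n) (x : ℕ → Γ)
    (hx : ∀ k (hk : k < L.length), x k = o (L[k]).1 (L[k]).2) :
    ∀ l ≤ n, tailProd n x l = ev o (L.drop (n - l)) := by
  intro l
  induction l with
  | zero =>
    intro _
    rw [tailProd, Nat.sub_zero, ← hL, List.drop_length, ev_nil]
  | succ l ih =>
    intro hl
    have h1 : n - (l + 1) < L.length := by omega
    rw [tailProd, ih (by omega), List.drop_eq_getElem_cons h1, ev_cons, hx _ h1]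
    congr 3
    omega

/-- Property (VRC) for amalgams over virtually cyclic subgroups. -/
theorem main [Nonempty ι] (hΓ : Amalg φ o) (hG : ∀ i, VRC (G i))
    (hφ : ∀ i, Function.Injective (φ i)) (c : H) (hc : (Subgroup.zpowers c).FiniteIndex) :
    VRC Γ := by
  classical
  intro x
  -- a word of minimal length
  obtain ⟨L, ⟨y, hy⟩, hL⟩ : ∃ L : List (Σ i, G i), (∃ y : Γ, x = y * ev o L * y⁻¹) ∧
      MinWord o L := by
    have hex : ∃ n : ℕ, ∃ L : List (Σ i, G i), (∃ y : Γ, x = y * ev o L * y⁻¹) ∧ L.length = n := by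
      obtain ⟨L, hL⟩ := hΓ.gen x
      exact ⟨L.length, L, ⟨1, by rw [hL]; unfold ev; group⟩, rfl⟩
    obtain ⟨L, ⟨y, hy⟩, hLn⟩ := Nat.find_spec hex
    refine ⟨L, ⟨y, hy⟩, ?_⟩
    rintro L' ⟨z, hz⟩
    rw [hLn]
    apply Nat.find_min' hex
    refine ⟨L', ⟨y * z⁻¹, ?_⟩, rfl⟩
    rw [hz, hy]
    group
  rw [hy]
  apply virtRetract_conj
  rcases hn : L with _ | ⟨a, _ | ⟨b, t⟩⟩
  · obtain ⟨i0⟩ := ‹Nonempty ι›
    have h1 := factor_case hΓ hG hφ c hc i0 1
    rw [map_one] at h1
    exact h1
  · rw [ev_cons, ev_nil, mul_one]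
    exact factor_case hΓ hG hφ c hc a.1 a.2
  · rw [← hn]
    have hlen : 2 ≤ L.length := by
      rw [hn]
      simp
    have hne : NeZero L.length := ⟨by omega⟩
    let q : ZMod L.length → Σ i, G i := fun j => L[j.val]'(ZMod.val_lt j)
    have hrot : ∀ j : ZMod L.length, (q j).1 ≠ (q (j + 1)).1 ∧ (q j).2 ∉ (φ (q j).1).range := by
      intro j
      have h1 := hL.rotate j.val
      have hlen' : (L.rotate j.val).length = L.length := List.length_rotate ..
      rcases h2 : L.rotate j.val with _ | ⟨a', _ | ⟨b', t'⟩⟩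
      · rw [h2] at hlen'
        simp at hlen'
        omega
      · rw [h2] at hlen'
        simp at hlen'
        omega
      · rw [h2] at h1
        have h3 := minWord_head hΓ h1
        have h4 : a' = q j := by
          have h5 : (L.rotate j.val)[0]'(by omega) = a' := by simp [h2]
          rw [← h5, List.getElem_rotate]
          show _ = L[j.val]'(ZMod.val_lt j)
          congr 1
          rw [zero_add]
          exact Nat.mod_eq_of_lt (ZMod.val_lt j)
        have h6 : b' = q (j + 1) := by
          have h5 : (L.rotate j.val)[1]'(by omega) = b' := by simp [h2]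
          rw [← h5, List.getElem_rotate]
          show _ = L[(j + 1).val]'(ZMod.val_lt (j + 1))
          congr 1
          rw [ZMod.val_add, ZMod.val_one_eq_one_mod]
          rw [Nat.mod_eq_of_lt (show 1 < L.length by omega), add_comm]
        rw [← h4, ← h6]
        exact h3
    obtain ⟨A, hA, hAf, hAL, hAS, H0, c0, f, hH0, hc0, hf, hcase⟩ := exists_data hG hφ c hc
      (fun _ => ⊤) (fun i => inferInstance) (fun i => {p | ∃ j, q j = ⟨i, p⟩})
      (fun i => by
        have h1 : (Sigma.mk i ⁻¹' (Set.range q)).Finite :=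
          (Set.finite_range q).preimage (sigma_mk_injective.injOn)
        exact h1)
      (by
        rintro i p ⟨j, hj⟩
        have := (hrot j).2
        rw [hj] at this
        exact this)
    have h1 := hyperbolic hΓ A hA hAf H0 hH0 L.length hlen (fun j => (q j).1) (fun j => (q j).2)
      (fun j => (hrot j).1) (by
        intro j h0
        rw [cls_eq] at h0
        obtain ⟨h, a, ha, hp⟩ := h0
        apply hAS (q j).1 (q j).2 ⟨j, rfl⟩ h⁻¹
        rw [hp, map_inv]
        convert ha using 1
        group)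
    have h2 := tailProd_eq (o := o) L.length L rfl
      (fun k : ℕ => o (q (k : ZMod L.length)).1 (q (k : ZMod L.length)).2) (by
        intro k hk
        have h3 : q (k : ZMod L.length) = L[k] := by
          show L[((k : ZMod L.length)).val]'(ZMod.val_lt _) = _
          congr 1
          exact ZMod.val_cast_of_lt hk
        show o (q (k : ZMod L.length)).1 (q (k : ZMod L.length)).2 = _
        rw [h3]) L.length le_rfl
    rw [Nat.sub_self, List.drop_zero] at h2
    rw [← h2]
    exact h1

end Pool.Agent.R632.VRC
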