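import Pool.Agent.R632.VRC.Twist
import Pool.Agent.R632.VRC.Fib3

/-! Residual amenability of amalgams. -/

set_option linter.unusedSectionVars false
set_option linter.dupNamespace false

namespace Pool.Agent.R632.VRC

universe u v

/-- residual amenability -/
def RA (G : Type u) [Group G] : Prop :=
  ∀ g : G, g ≠ 1 → ∃ (Q : Type u) (_ : Group Q) (θ : G →* Q), Fol Q ∧ θ g ≠ 1

section induced

variable {P : Type u} [Group P] (K : Subgroup P) {C : Type v} [Group C] (α : K →* C)

lemma ind_mem (g : P) (x : P ⧸ K) : (Quotient.out (g • x))⁻¹ * g * Quotient.out x ∈ K := by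
  rw [mul_assoc, ← QuotientGroup.eq, QuotientGroup.out_eq']
  conv_lhs => rw [← QuotientGroup.out_eq' x]
  rfl

/-- the induced homomorphism -/
noncomputable def ind : P →* WrG C (P ⧸ K) where
  toFun g := ⟨MulAction.toPermHom P (P ⧸ K) g, fun x =>
    α ⟨(Quotient.out (g • x))⁻¹ * g * Quotient.out x, ind_mem K g x⟩⟩
  map_one' := by
    refine WrG.ext (map_one _) ?_
    funext x
    show α _ = 1
    rw [← map_one α]
    congr 1
    apply Subtype.ext
    show (Quotient.out ((1 : P) • x))⁻¹ * 1 * Quotient.out x = 1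
    rw [one_smul, mul_one, inv_mul_cancel]
  map_mul' a b := by
    refine WrG.ext (map_mul _ _ _) ?_
    funext x
    show α _ = α _ * α _
    rw [← map_mul]
    congr 1
    apply Subtype.ext
    show (Quotient.out ((a * b) • x))⁻¹ * (a * b) * Quotient.out x =
      ((Quotient.out (a • b • x))⁻¹ * a * Quotient.out (b • x)) *
        ((Quotient.out (b • x))⁻¹ * b * Quotient.out x)
    rw [mul_smul]
    group

lemma ind_s (g : P) (x : P ⧸ K) : (ind K α g).s x = g • x := rfl

lemma out_one_mem : Quotient.out (QuotientGroup.mk 1 : P ⧸ K) ∈ K := by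
  have h1 : (QuotientGroup.mk (Quotient.out (QuotientGroup.mk 1 : P ⧸ K)) : P ⧸ K) =
    QuotientGroup.mk 1 := QuotientGroup.out_eq' _
  have h2 := QuotientGroup.eq.mp h1.symm
  rwa [inv_one, one_mul] at h2

lemma smul_one_eq {g : P} : g • (QuotientGroup.mk 1 : P ⧸ K) = QuotientGroup.mk 1 ↔ g ∈ K := by
  have h1 : g • (QuotientGroup.mk 1 : P ⧸ K) = QuotientGroup.mk (g * 1) := rfl
  rw [h1, mul_one]
  constructor
  · intro h
    have h2 := QuotientGroup.eq.mp h.symm
    rwa [inv_one, one_mul] at h2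
  · intro h
    symm
    rw [QuotientGroup.eq, inv_one, one_mul]
    exact h

lemma ind_t_one {g : P} (hg : g ∈ K) : (ind K α g).t (QuotientGroup.mk 1) =
    α (⟨_, out_one_mem K⟩⁻¹ * ⟨g, hg⟩ * ⟨_, out_one_mem K⟩) := by
  show α _ = α _
  congr 1
  apply Subtype.ext
  show (Quotient.out (g • (QuotientGroup.mk 1 : P ⧸ K)))⁻¹ * g * _ = _
  rw [(smul_one_eq K).mpr hg]
  rfl

lemma ind_eq_one {g : P} (h : ind K α g = 1) : ∃ hg : g ∈ K, α ⟨g, hg⟩ = 1 := by
  have h1 : g ∈ K := by
    rw [← smul_one_eq K, ← ind_s K α, h]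
    rfl
  refine ⟨h1, ?_⟩
  have h2 := ind_t_one K α h1
  rw [h, WrG.one_t, map_mul, map_mul, map_inv] at h2
  have h3 : α ⟨g, h1⟩ = α ⟨_, out_one_mem K⟩ * ((α ⟨_, out_one_mem K⟩)⁻¹ * α ⟨g, h1⟩ *
    α ⟨_, out_one_mem K⟩) * (α ⟨_, out_one_mem K⟩)⁻¹ := by group
  rw [h3, ← h2]
  group

end induced

/-- separation from a virtual retract -/
lemma sep_fol {P H : Type u} [Group P] [Group H] (hP : RA P) (φ : H →* P) (K : Subgroup P)
    (hK : K.FiniteIndex) (hφK : ∀ h, φ h ∈ K) (r : K →* H)
    (hr : ∀ h, r ⟨φ h, hφK h⟩ = h) {S : Set P} (hS : S.Finite) (hS' : ∀ s ∈ S, s ∉ φ.range) :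
    ∃ (Q : Type u) (_ : Group Q) (q : P →* Q), Fol Q ∧ ∀ s ∈ S, ∀ h, q s ≠ q (φ h) := by
  induction S, hS using Set.Finite.induction_on with
  | empty => exact ⟨PUnit.{u + 1}, inferInstance, 1, Fol.of_finite _, fun s hs =>
      absurd hs (Set.notMem_empty s)⟩
  | @insert s S _ _ ih =>
    obtain ⟨Q₁, _, q₁, hQ₁, h₁⟩ := ih (fun s hs => hS' s (Set.mem_insert_of_mem _ hs))
    obtain ⟨Q₂, _, q₂, hQ₂, h₂⟩ : ∃ (Q : Type u) (_ : Group Q) (q : P →* Q), Fol Q ∧
        ∀ h, q s ≠ q (φ h) := by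
      have hsr := hS' s (Set.mem_insert _ _)
      by_cases hsK : s ∈ K
      · have hy : (φ (r ⟨s, hsK⟩))⁻¹ * s ≠ 1 := by
          intro h
          rw [inv_mul_eq_one] at h
          exact hsr ⟨_, h⟩
        obtain ⟨Q, _, θ, hQ, hθ⟩ := hP _ hy
        let α : K →* Q × Q := (θ.comp K.subtype).prod (θ.comp (φ.comp r))
        have hfin : Finite (P ⧸ K) := Subgroup.finite_quotient_of_finiteIndex
        refine ⟨WrG (Q × Q) (P ⧸ K), inferInstance, ind K α, (hQ.prod hQ).wr _, fun h hh => ?_⟩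
        have h1 : ind K α (s⁻¹ * φ h) = 1 := by
          rw [map_mul, map_inv, hh, inv_mul_cancel]
        obtain ⟨hg, hα⟩ := ind_eq_one K α h1
        have h2 : θ (s⁻¹ * φ h) = 1 := congrArg Prod.fst hα
        have h3 : θ (φ (r ⟨s⁻¹ * φ h, hg⟩)) = 1 := congrArg Prod.snd hα
        have h4 : (⟨s⁻¹ * φ h, hg⟩ : K) = (⟨s, hsK⟩ : K)⁻¹ * ⟨φ h, hφK h⟩ := Subtype.ext rfl
        rw [h4, map_mul, map_inv, hr, map_mul, map_inv, map_mul, map_inv] at h3
        rw [map_mul, map_inv] at h2
        apply hθ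
        rw [map_mul, map_inv]
        rw [inv_mul_eq_one] at h2 h3 ⊢
        rw [h2, h3]
      · have hfin : Finite (P ⧸ K.normalCore) := Subgroup.finite_quotient_of_finiteIndex
        refine ⟨P ⧸ K.normalCore, inferInstance, QuotientGroup.mk' _, Fol.of_finite _,
          fun h hh => ?_⟩
        have h1 : (QuotientGroup.mk s : P ⧸ K.normalCore) = QuotientGroup.mk (φ h) := hh
        rw [QuotientGroup.eq] at h1
        have h2 := K.normalCore_le h1
        have h3 := K.mul_mem h2 (K.inv_mem (hφK h))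
        rw [mul_inv_cancel_right] at h3
        exact hsK (by simpa using K.inv_mem h3)
    refine ⟨Q₁ × Q₂, inferInstance, q₁.prod q₂, hQ₁.prod hQ₂, fun s' hs' h hh => ?_⟩
    rcases Set.mem_insert_iff.mp hs' with rfl | hs'
    · exact h₂ h (congrArg Prod.snd hh)
    · exact h₁ s' hs' h (congrArg Prod.fst hh)

/-- pushouts are amalgams -/
lemma pushout_amalg {ι : Type} [Nonempty ι] {G : ι → Type u} [∀ i, Group (G i)] {H : Type u}
    [Group H] (φ : ∀ i, H →* G i) :
    Amalg φ (fun i => (Monoid.PushoutI.of i : G i →* Monoid.PushoutI φ)) := by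
  obtain ⟨i0⟩ := ‹Nonempty ι›
  constructor
  · intro i j h
    rw [Monoid.PushoutI.of_apply_eq_base, Monoid.PushoutI.of_apply_eq_base]
  · intro W _ ρ hρ
    refine ⟨Monoid.PushoutI.lift ρ ((ρ i0).comp (φ i0)) (fun i => ?_), fun i g => ?_⟩
    · ext h
      exact hρ i i0 h
    · exact Monoid.PushoutI.lift_of ..
  · intro x
    induction x using Monoid.PushoutI.induction_on with
    | of i g => exact ⟨[⟨i, g⟩], by simp⟩
    | base h =>
      refine ⟨[⟨i0, φ i0 h⟩], ?_⟩
      rw [List.map_cons, List.map_nil, List.prod_singleton, Monoid.PushoutI.of_apply_eq_base]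
    | mul x y hx hy =>
      obtain ⟨L, hL⟩ := hx
      obtain ⟨L', hL'⟩ := hy
      exact ⟨L ++ L', by rw [List.map_append, List.prod_append, hL, hL']⟩

variable {ι : Type} [Fintype ι] [DecidableEq ι] [Nonempty ι] {G : ι → Type u} [∀ i, Group (G i)]
  {H : Type u} [Group H] {φ : ∀ i, H →* G i} {Γ : Type u} [Group Γ] {o : ∀ i, G i →* Γ}

/-- the reduction to amenable factors -/
theorem ra_of_quot (hΓ : Amalg φ o)
    (key : ∀ S : ∀ i, Set (G i), (∀ i, (S i).Finite) → (∀ i, ∀ s ∈ S i, s ∉ (φ i).range) →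
      ∃ (Q : ι → Type u) (_ : ∀ i, Group (Q i)) (q : ∀ i, G i →* Q i), 
        (∀ i, Function.Injective (fun h => q i (φ i h))) ∧
        (∀ i, ∀ s ∈ S i, ∀ h, q i s ≠ q i (φ i h)) ∧
        ∃ (B : Type u) (_ : Group B)
          (ψ : Monoid.PushoutI (fun i => (q i).comp (φ i)) →* B), Fol B ∧
          ∀ i, Function.Injective (fun g => ψ (Monoid.PushoutI.of i g))) : RA Γ := by
  classical
  obtain ⟨i0⟩ := ‹Nonempty ι›
  intro x hx
  rcases exists_red hΓ i0 x with ⟨h, rfl⟩ | ⟨L, hne, hred, rfl⟩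
  · obtain ⟨Q, _, q, hq, hsep, B, _, ψ, hB, hψ⟩ := key (fun _ => ∅) (fun _ => Set.finite_empty)
      (fun i s hs => absurd hs (Set.notMem_empty s))
    have hP := pushout_amalg (fun i => (q i).comp (φ i))
    obtain ⟨F, hF⟩ := hΓ.lift _ (fun i => (Monoid.PushoutI.of i :
      Q i →* Monoid.PushoutI (fun i => (q i).comp (φ i))).comp (q i)) (fun i j h => hP.comp i j h)
    refine ⟨B, _, ψ.comp F, hB, ?_⟩
    show ψ (F (o i0 (φ i0 h))) ≠ 1
    rw [hF]
    intro h1
    apply hx
    have h2 : ψ (Monoid.PushoutI.of i0 (q i0 (φ i0 h))) = ψ (Monoid.PushoutI.of i0 1) := by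
      rw [map_one, map_one]
      exact h1
    have h3 := hψ i0 h2
    have h4 : (fun h => q i0 (φ i0 h)) h = (fun h => q i0 (φ i0 h)) 1 := by
      show q i0 (φ i0 h) = q i0 (φ i0 1)
      rw [h3, map_one, map_one]
    rw [hq i0 h4, map_one, map_one]
  · obtain ⟨Q, _, q, hq, hsep, B, _, ψ, hB, hψ⟩ := key (fun i => {s | (⟨i, s⟩ : Σ i, G i) ∈ L})
      (fun i => by
        have h1 : (Sigma.mk i ⁻¹' {a | a ∈ L}).Finite :=
          (List.finite_toSet L).preimage (sigma_mk_injective.injOn)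
        exact h1)
      (fun i s hs => hred.1 ⟨i, s⟩ hs)
    have hP := pushout_amalg (fun i => (q i).comp (φ i))
    obtain ⟨F, hF⟩ := hΓ.lift _ (fun i => (Monoid.PushoutI.of i :
      Q i →* Monoid.PushoutI (fun i => (q i).comp (φ i))).comp (q i)) (fun i j h => hP.comp i j h)
    let m : (Σ i, G i) → Σ i, Q i := fun a => ⟨a.1, q a.1 a.2⟩
    obtain ⟨B', _, ψ', hB', hψ', hsep'⟩ := separate hP i0 ψ hB hψ (L.map m).length
    have hev : F (ev o L) = ev (fun i => (Monoid.PushoutI.of i :
        Q i →* Monoid.PushoutI (fun i => (q i).comp (φ i)))) (L.map m) := by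
      clear hne hred hsep hsep' hx
      induction L with
      | nil => rw [ev_nil, map_one]; rfl
      | cons a L ih =>
        rw [ev_cons, map_mul, ih, hF, List.map_cons, ev_cons]
        rfl
    refine ⟨B', _, ψ'.comp F, hB', ?_⟩
    have h1 := hsep' (L.map m) (by simpa using hne) le_rfl ⟨?_, ?_⟩ 1
    · rw [map_one, map_one, map_one, ← hev] at h1
      exact h1
    · intro b hb
      obtain ⟨a, ha, rfl⟩ := List.mem_map.mp hb
      rintro ⟨h, hh⟩
      exact hsep a.1 a.2 ha h hh.symm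
    · rw [List.isChain_map]
      exact hred.2

/-- the target of the induced homomorphism -/
abbrev TT {P : Type u} [Group P] (A : Subgroup P) : Type u := WrG (Multiplicative ℤ) (P ⧸ A)

/-- Amalgams of residually amenable groups over virtually cyclic virtual retracts are residually
amenable. -/
theorem ra_amalgam (hΓ : Amalg φ o) (hG : ∀ i, RA (G i))
    (c : H) (hc : (Subgroup.zpowers c).FiniteIndex)
    (K : ∀ i, Subgroup (G i)) (hK : ∀ i, (K i).FiniteIndex) (hφK : ∀ i h, φ i h ∈ K i)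
    (r : ∀ i, K i →* H) (hr : ∀ i h, r i ⟨φ i h, hφK i h⟩ = h) : RA Γ := by
  classical
  apply ra_of_quot hΓ
  intro S hS hS'
  have h1 := fun i => sep_fol (hG i) (φ i) (K i) (hK i) (hφK i) (r i) (hr i) (hS i) (hS' i)
  choose Qa iQa qa hQa hsepa using h1
  by_cases hfin : IsOfFinOrder c
  · -- the finite case
    have hH : Finite H := by
      have h2 : Finite (Subgroup.zpowers c) := (finite_zpowers.mpr hfin).to_subtype
      have h3 : Finite (H ⧸ Subgroup.zpowers c) := Subgroup.finite_quotient_of_finiteIndex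
      have : Finite ((H ⧸ Subgroup.zpowers c) × Subgroup.zpowers c) := inferInstance
      exact Finite.of_equiv _
        (Subgroup.groupEquivQuotientProdSubgroup (s := Subgroup.zpowers c)).symm
    let M : ∀ i, Subgroup (G i) := fun i => (r i).ker.map (K i).subtype
    have hM : ∀ i, (M i).FiniteIndex := by
      intro i
      have h2 : ((r i).ker).FiniteIndex := inferInstance
      constructor
      show (Subgroup.map _ _).index ≠ 0
      rw [Subgroup.index_map_subtype]
      exact mul_ne_zero h2.index_ne_zero (hK i).index_ne_zero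
    let A : ∀ i, Subgroup (G i) := fun i => (M i).normalCore
    have hA : ∀ i, (A i).Normal := fun i => inferInstanceAs ((M i).normalCore.Normal)
    have hAf : ∀ i, (A i).FiniteIndex := fun i => inferInstanceAs ((M i).normalCore.FiniteIndex)
    have hAh : ∀ i h, φ i h ∈ A i ↔ h = 1 := by
      intro i h
      constructor
      · intro hh
        obtain ⟨k, hk, hk'⟩ := (M i).normalCore_le hh
        have h2 : k = ⟨φ i h, hφK i h⟩ := Subtype.ext hk'
        rw [h2] at hk
        have h3 : r i ⟨φ i h, hφK i h⟩ = 1 := hk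
        rwa [hr] at h3
      · rintro rfl
        rw [map_one]
        exact (A i).one_mem
    have hfq : ∀ i, Finite (G i ⧸ A i) := fun i => Subgroup.finite_quotient_of_finiteIndex
    have hmk : ∀ i h, (QuotientGroup.mk (φ i h) : G i ⧸ A i) = 1 ↔ h = 1 := by
      intro i h
      rw [QuotientGroup.eq_one_iff, hAh]
    refine ⟨fun i => (G i ⧸ A i) × Qa i, fun i => inferInstance,
      fun i => (QuotientGroup.mk' (A i)).prod (qa i), fun i => ?_, fun i s hs h hh =>
        hsepa i s hs h (congrArg Prod.snd hh), ?_⟩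
    · have hinj : Function.Injective (((QuotientGroup.mk' (A i)).prod (qa i)).comp (φ i)) := by
        rw [injective_iff_map_eq_one]
        intro h hh
        exact (hmk i h).mp (congrArg Prod.fst hh)
      exact hinj
    · refine embed_fin (pushout_amalg _) (fun i => (Fol.of_finite _).prod (hQa i))
        (fun i => (MonoidHom.fst (G i ⧸ A i) (Qa i)).ker) (fun i => inferInstance)
        (fun i => inferInstance) (fun i h => ?_)
      exact hmk i h
  · -- the infinite case
    have hinf : ∀ n : ℤ, c ^ n = 1 → n = 0 := by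
      intro n hn
      by_contra h0
      exact hfin (isOfFinOrder_iff_zpow_eq_one.mpr ⟨n, h0, hn⟩)
    have h1 := fun i => retract_hom (φ i) c hinf hc (K i) (hK i) (hφK i) (r i) (hr i)
    choose K' hK' hK'c hcK' f hf hfc using h1
    obtain ⟨A, hA, hAf, hAK, -, H0, c0, hH0, hc0, hinf0, hfc0⟩ := match_traces (φ := φ) c hinf
      K' hK' hK'c hcK' f hf (fun i => by rw [hfc]; exact one_ne_zero) (fun _ => ⊤)
      (fun _ => inferInstance)
    have hfq : ∀ i, Finite (G i ⧸ A i) := fun i => Subgroup.finite_quotient_of_finiteIndex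
    let α : ∀ i, A i →* Multiplicative ℤ := fun i =>
      MonoidHom.mk' (fun a => Multiplicative.ofAdd (f i a)) (fun a b => by
        show Multiplicative.ofAdd (f i (a * b)) = _
        rw [hf i a (hAK i a.2) b (hAK i b.2)]
        rfl)
    let q : ∀ i, G i →* TT (A i) × Qa i := fun i => (ind (A i) (α i)).prod (qa i)
    have hqs : ∀ i g, (q i g).1.s = 1 ↔ g ∈ A i := by
      intro i g
      constructor
      · intro h
        rw [← smul_one_eq (A i)]
        have h2 : (q i g).1.s (QuotientGroup.mk 1) = QuotientGroup.mk 1 := by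
          rw [h]
          rfl
        exact h2
      · intro h
        apply Equiv.ext
        intro x
        obtain ⟨p, rfl⟩ := QuotientGroup.mk_surjective x
        show (QuotientGroup.mk (g * p) : G i ⧸ A i) = QuotientGroup.mk p
        symm
        rw [QuotientGroup.eq, ← mul_assoc]
        have := (hA i).conj_mem _ h p⁻¹
        rwa [inv_inv] at this
    let KQ : ∀ i, Subgroup (TT (A i) × Qa i) := fun i =>
      ((WrG.perm (C := Multiplicative ℤ) (Ω := G i ⧸ A i)).comp (MonoidHom.fst (TT (A i)) (Qa i))).ker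
    have hKQ : ∀ i, (KQ i).FiniteIndex := by
      intro i
      show (((WrG.perm (C := Multiplicative ℤ) (Ω := G i ⧸ A i)).comp
        (MonoidHom.fst (TT (A i)) (Qa i))).ker).FiniteIndex
      infer_instance
    have hKQmem : ∀ i w, w ∈ KQ i ↔ w.1.s = 1 := fun i w => Iff.rfl
    let fQ : ∀ i, TT (A i) × Qa i → ℤ := fun i w => (w.1.t (QuotientGroup.mk 1)).toAdd
    have hfQ : ∀ i, HomOn (KQ i) (fQ i) := by
      intro i a ha b hb
      have hb' : b.1.s = 1 := hb
      show (a.1.t (b.1.s (QuotientGroup.mk 1)) * b.1.t (QuotientGroup.mk 1)).toAdd = _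
      rw [hb', toAdd_mul]
      rfl
    have hfQq : ∀ i g, g ∈ A i → fQ i (q i g) = f i g := by
      intro i g hg
      show ((ind (A i) (α i) g).t (QuotientGroup.mk 1)).toAdd = f i g
      rw [ind_t_one (A i) (α i) hg, map_mul (α i), map_mul (α i), map_inv (α i),
        inv_mul_cancel_comm]
      rfl
    let φ' : ∀ i, H →* TT (A i) × Qa i := fun i => (q i).comp (φ i)
    have hφ'K : ∀ i h, φ' i h ∈ KQ i ↔ h ∈ H0 := by
      intro i h
      rw [hKQmem]
      show (q i (φ i h)).1.s = 1 ↔ _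
      rw [hqs, hH0]
    have hc0H : c0 ∈ H0 := (hc0 c0).mpr ⟨1, (zpow_one c0).symm⟩
    have hc0A : ∀ i, φ i c0 ∈ A i := fun i => (hH0 i c0).mpr hc0H
    have hfQc : ∀ i, fQ i (φ' i c0) ≠ 0 := by
      intro i
      show fQ i (q i (φ i c0)) ≠ 0
      rw [hfQq i _ (hc0A i)]
      exact hfc0 i
    have hφ'inj : ∀ i, Function.Injective (φ' i) := by
      intro i
      rw [injective_iff_map_eq_one]
      intro h hh
      have h2 : h ∈ H0 := by
        rw [← hφ'K i, hh]
        exact (KQ i).one_mem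
      obtain ⟨n, rfl⟩ := (hc0 h).mp h2
      have h3 : fQ i (φ' i (c0 ^ n)) = n * fQ i (φ' i c0) := by
        rw [map_zpow, (hfQ i).zpow ((hφ'K i c0).mpr hc0H)]
      rw [hh, (hfQ i).one] at h3
      rcases mul_eq_zero.mp h3.symm with h4 | h4
      · rw [h4, zpow_zero]
      · exact absurd h4 (hfQc i)
    obtain ⟨A', hA', hAf', hAK', -, H0', c0', hH0', hc0', hinf0', hfc0'⟩ :=
      match_traces (φ := φ') c0 hinf0 KQ hKQ (fun i h hh => by
        obtain ⟨n, hn⟩ := (hc0 h).mp ((hφ'K i h).mp hh)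
        exact ⟨n, hn.symm⟩) (fun i => (hφ'K i c0).mpr hc0H) fQ hfQ hfQc (fun _ => ⊤)
        (fun _ => inferInstance)
    have h2 : ∀ i, ∃ f' : TT (A i) × Qa i → ℤ, HomOn (A' i) f' ∧
        (∀ p, f' (p⁻¹ * φ' i c0' * p) ≠ 0) := by
      intro i
      have hAi := hA' i
      obtain ⟨g, hg, hg0⟩ := generic (hAf' i) ((hfQ i).mono (hAK' i))
        ((hH0' i c0').mpr ((hc0' c0').mpr ⟨1, (zpow_one c0').symm⟩)) (hfc0' i)
      exact ⟨g, hg, hg0⟩
    choose f' hf' hne' using h2
    refine ⟨fun i => TT (A i) × Qa i, fun i => inferInstance, q, fun i => hφ'inj i,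
      fun i s hs h hh => hsepa i s hs h (congrArg Prod.snd hh), ?_⟩
    exact embed_inf (pushout_amalg φ') (fun i => (Fol.int.wr _).prod (hQa i)) A' hA' hAf' H0' hH0'
      c0' hc0' f' hf' hne'

end Pool.Agent.R632.VRC
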