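import Pool.Agent.R632.VRC.Basic

/-! Separability properties of groups with (VRC). -/

set_option linter.unusedSectionVars false
set_option linter.dupNamespace false

namespace Pool.Agent.R632.VRC

variable {P : Type*} [Group P]

/-- `f` is additive on the subgroup `K` -/
def HomOn (K : Subgroup P) (f : P → ℤ) : Prop := ∀ a ∈ K, ∀ b ∈ K, f (a * b) = f a + f b

namespace HomOn

variable {K : Subgroup P} {f : P → ℤ}

lemma mono {L : Subgroup P} (h : HomOn K f) (hL : L ≤ K) : HomOn L f :=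
  fun a ha b hb => h a (hL ha) b (hL hb)

lemma one (h : HomOn K f) : f 1 = 0 := by
  have := h 1 K.one_mem 1 K.one_mem
  rw [mul_one] at this
  exact left_eq_add.mp this

lemma inv (h : HomOn K f) {a : P} (ha : a ∈ K) : f a⁻¹ = - f a := by
  have := h a⁻¹ (K.inv_mem ha) a ha
  rw [inv_mul_cancel, h.one] at this
  linarith

lemma zpow (h : HomOn K f) {a : P} (ha : a ∈ K) (n : ℤ) : f (a ^ n) = n * f a := by
  induction n using Int.induction_on with
  | zero => rw [zpow_zero, h.one, zero_mul]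
  | succ k ih => rw [zpow_add_one, h _ (K.zpow_mem ha _) _ ha, ih]; ring
  | pred k ih =>
    rw [zpow_sub_one, h _ (K.zpow_mem ha _) _ (K.inv_mem ha), ih, h.inv ha]
    ring

lemma conj (h : HomOn K f) {a b : P} (ha : a ∈ K) (hb : b ∈ K) : f (a * b * a⁻¹) = f b := by
  rw [h _ (K.mul_mem ha hb) _ (K.inv_mem ha), h _ ha _ hb, h.inv ha]
  ring

lemma lin {f' : P → ℤ} (h : HomOn K f) (h' : HomOn K f') (t : ℤ) :
    HomOn K (fun x => f x + t * f' x) := by
  intro a ha b hb
  simp only [h a ha b hb, h' a ha b hb]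
  ring

lemma smul (h : HomOn K f) (t : ℤ) : HomOn K (fun x => t * f x) := by
  intro a ha b hb
  simp only [h a ha b hb]
  ring

lemma zero : HomOn K (fun _ : P => (0 : ℤ)) := fun _ _ _ _ => rfl

end HomOn

/-- elements with a virtual retraction have a homomorphism to the integers -/
lemma exists_homOn (hP : VRC P) {g : P} (hg : ∀ n : ℤ, g ^ n = 1 → n = 0) :
    ∃ K : Subgroup P, K.FiniteIndex ∧ g ∈ K ∧ ∃ f : P → ℤ, HomOn K f ∧ f g = 1 := by
  classical
  obtain ⟨K, hK, hgK, r, hr, hr'⟩ := hP g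
  have hg' : g ∈ K := hgK (Subgroup.mem_zpowers g)
  refine ⟨K, hK, hg', ?_⟩
  have hch : ∀ k : K, ∃ n : ℤ, g ^ n = r k := fun k => hr k
  choose n hn using hch
  have hinj : ∀ a b : ℤ, g ^ a = g ^ b → a = b := by
    intro a b h
    have : g ^ (a - b) = 1 := by rw [zpow_sub, h, mul_inv_cancel]
    have := hg _ this
    omega
  refine ⟨fun x => if h : x ∈ K then n ⟨x, h⟩ else 0, ?_, ?_⟩
  · intro a ha b hb
    simp only [dif_pos ha, dif_pos hb, dif_pos (K.mul_mem ha hb)]
    apply hinj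
    rw [hn, zpow_add, hn, hn, ← map_mul]
    rfl
  · simp only [dif_pos hg']
    apply hinj
    rw [hn, hr' ⟨g, hg'⟩ (Subgroup.mem_zpowers g), zpow_one]

/-- groups with (VRC) are residually finite -/
lemma rf (hP : VRC P) {y : P} (hy : y ≠ 1) : ∃ N : Subgroup P, N.Normal ∧ N.FiniteIndex ∧ y ∉ N := by
  have key : ∃ M : Subgroup P, M.FiniteIndex ∧ y ∉ M := by
    obtain ⟨K, hK, hyK, r, hr, hr'⟩ := hP y
    have hy' : y ∈ K := hyK (Subgroup.mem_zpowers y)
    by_cases hinf : ∀ n : ℤ, y ^ n = 1 → n = 0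
    · obtain ⟨K, hK, hyK, f, hf, hfy⟩ := exists_homOn hP hinf
      let M : Subgroup P :=
        { carrier := {x | x ∈ K ∧ 2 ∣ f x}
          mul_mem' := fun {a b} ha hb => ⟨K.mul_mem ha.1 hb.1, by
            rw [hf a ha.1 b hb.1]; exact dvd_add ha.2 hb.2⟩
          one_mem' := ⟨K.one_mem, by rw [hf.one]; exact dvd_zero _⟩
          inv_mem' := fun {a} ha => ⟨K.inv_mem ha.1, by
            rw [hf.inv ha.1]; exact (dvd_neg).mpr ha.2⟩ }
      refine ⟨M, ?_, fun h => ?_⟩
      · let θ : K →* Multiplicative (ZMod 2) :=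
          { toFun := fun x => Multiplicative.ofAdd ((f x : ℤ) : ZMod 2)
            map_one' := by
              show Multiplicative.ofAdd ((f 1 : ℤ) : ZMod 2) = 1
              rw [hf.one]
              simp
            map_mul' := fun x y => by
              show Multiplicative.ofAdd ((f (x * y) : ℤ) : ZMod 2) = _
              rw [hf x x.2 y y.2]
              push_cast
              rfl }
        have hfin : Finite (Multiplicative (ZMod 2)) := inferInstanceAs (Finite (ZMod 2))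
        have h2 : (θ.ker).FiniteIndex := inferInstance
        have h3 : (θ.ker.map K.subtype).FiniteIndex := by
          constructor
          rw [Subgroup.index_map_subtype]
          exact mul_ne_zero h2.index_ne_zero hK.index_ne_zero
        refine Subgroup.finiteIndex_of_le (H := θ.ker.map K.subtype) ?_
        rintro _ ⟨x, hx, rfl⟩
        refine ⟨x.2, ?_⟩
        have h4 : ((f x : ℤ) : ZMod 2) = 0 := hx
        rw [ZMod.intCast_zmod_eq_zero_iff_dvd] at h4
        exact_mod_cast h4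
      · have h2 : (2 : ℤ) ∣ f y := h.2
        rw [hfy] at h2
        omega
    · push Not at hinf
      obtain ⟨n, hn, hn0⟩ := hinf
      have hfo : IsOfFinOrder y := isOfFinOrder_iff_zpow_eq_one.mpr ⟨n, hn0, hn⟩
      have hfin : Finite (Subgroup.zpowers y) := by
        exact (finite_zpowers.mpr hfo).to_subtype
      let r' : K →* Subgroup.zpowers y := r.codRestrict _ hr
      have h2 : (r'.ker).FiniteIndex := inferInstance
      have h3 : (r'.ker.map K.subtype).FiniteIndex := by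
        constructor
        rw [Subgroup.index_map_subtype]
        exact mul_ne_zero h2.index_ne_zero hK.index_ne_zero
      refine ⟨_, h3, ?_⟩
      rintro ⟨x, hx, hxy⟩
      have h4 : r x = 1 := congrArg Subtype.val (show r' x = 1 from hx)
      have h5 : (x : P) = y := hxy
      rw [hr' x (by rw [h5]; exact Subgroup.mem_zpowers y)] at h4
      exact hy (h5.symm.trans h4)
  obtain ⟨M, hM, hyM⟩ := key
  exact ⟨M.normalCore, inferInstance, inferInstance, fun h => hyM (M.normalCore_le h)⟩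

/-- cyclic subgroups of groups with (VRC) are closed in the profinite topology -/
lemma sep (hP : VRC P) {c x : P} (hx : x ∉ Subgroup.zpowers c) :
    ∃ N : Subgroup P, N.Normal ∧ N.FiniteIndex ∧ ∀ n : ℤ, c ^ n * x ∉ N := by
  obtain ⟨K, hK, hcK, r, hr, hr'⟩ := hP c
  have hc : c ∈ K := hcK (Subgroup.mem_zpowers c)
  by_cases hxK : x ∈ K
  · have hy : (r ⟨x, hxK⟩)⁻¹ * x ≠ 1 := by
      intro h
      apply hx
      rw [inv_mul_eq_one] at h
      rw [← h]
      exact hr _
    obtain ⟨N, hNn, hN, hyN⟩ := rf hP hy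
    let M : Subgroup P := ((N.subgroupOf K) ⊓ N.comap r).map K.subtype
    have hM : M.FiniteIndex := by
      constructor
      show (Subgroup.map K.subtype _).index ≠ 0
      rw [Subgroup.index_map_subtype]
      have h1 : (N.subgroupOf K).FiniteIndex := inferInstance
      have h2 : (N.comap r).FiniteIndex := by
        constructor
        rw [Subgroup.index_comap]
        intro h0
        have h4 := Subgroup.relIndex_dvd_index_of_normal N r.range
        rw [h0] at h4
        exact hN.index_ne_zero (Nat.eq_zero_of_zero_dvd h4)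
      have h3 : ((N.subgroupOf K) ⊓ N.comap r).FiniteIndex := inferInstance
      exact mul_ne_zero h3.index_ne_zero hK.index_ne_zero
    refine ⟨M.normalCore, inferInstance, inferInstance, fun n hn => ?_⟩
    obtain ⟨k, ⟨hk1, hk2⟩, hk3⟩ := M.normalCore_le hn
    have h1 : (k : P) ∈ N := hk1
    have h2 : r k ∈ N := hk2
    have h3 : (k : P) = c ^ n * x := hk3
    have h4 : k = (⟨c, hc⟩ : K) ^ n * ⟨x, hxK⟩ := by
      apply Subtype.ext
      rw [h3]
      rfl
    have h5 : r k = c ^ n * r ⟨x, hxK⟩ := by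
      rw [h4, map_mul, map_zpow, hr' ⟨c, hc⟩ (Subgroup.mem_zpowers c)]
    apply hyN
    have h6 : (r ⟨x, hxK⟩)⁻¹ * x = (r k)⁻¹ * k := by
      rw [h5, h3]
      group
    rw [h6]
    exact N.mul_mem (N.inv_mem h2) h1
  · refine ⟨K.normalCore, inferInstance, inferInstance, fun n hn => hxK ?_⟩
    have h1 := K.normalCore_le hn
    exact (K.mul_mem_cancel_left (K.zpow_mem hc n)).mp h1

/-- separating finitely many elements from a cyclic subgroup -/
lemma sep_finite (hP : VRC P) (c : P) {S : Set P} (hS : S.Finite)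
    (h : ∀ x ∈ S, x ∉ Subgroup.zpowers c) :
    ∃ N : Subgroup P, N.Normal ∧ N.FiniteIndex ∧ ∀ x ∈ S, ∀ n : ℤ, c ^ n * x ∉ N := by
  induction S, hS using Set.Finite.induction_on with
  | empty => exact ⟨⊤, inferInstance, inferInstance, fun x hx => absurd hx (Set.notMem_empty x)⟩
  | @insert a S _ _ ih =>
    obtain ⟨N, hN1, hN2, hN3⟩ := ih (fun x hx => h x (Set.mem_insert_of_mem _ hx))
    obtain ⟨N', hN1', hN2', hN3'⟩ := sep hP (h a (Set.mem_insert _ _))
    refine ⟨N ⊓ N', inferInstance, inferInstance, ?_⟩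
    intro x hx n hn
    rcases Set.mem_insert_iff.mp hx with rfl | hx
    · exact hN3' n hn.2
    · exact hN3 x hx n hn.1

lemma rf_finite (hP : VRC P) {S : Set P} (hS : S.Finite) (h : ∀ x ∈ S, x ≠ 1) :
    ∃ N : Subgroup P, N.Normal ∧ N.FiniteIndex ∧ ∀ x ∈ S, x ∉ N := by
  obtain ⟨N, h1, h2, h3⟩ := sep_finite hP 1 hS (fun x hx => by
    rw [Subgroup.zpowers_one_eq_bot, Subgroup.mem_bot]
    exact h x hx)
  refine ⟨N, h1, h2, fun x hx hxN => h3 x hx 1 ?_⟩
  rw [one_zpow, one_mul]
  exact hxN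

/-- The choice of a small normal subgroup of finite index. -/
lemma exists_small {H : Type*} [Group H] (hP : VRC P) (φ : H →* P) (hφ : Function.Injective φ)
    (c : H) (hc : (Subgroup.zpowers c).FiniteIndex) (L : Subgroup P) (hL : L.FiniteIndex)
    {S : Set P} (hS : S.Finite) (hS' : ∀ p ∈ S, p ∉ φ.range) :
    ∃ A : Subgroup P, A.Normal ∧ A.FiniteIndex ∧ A ≤ L ∧ (∀ h, φ h ∈ A → h ∈ Subgroup.zpowers c) ∧
      ∀ p ∈ S, ∀ h : H, φ h * p ∉ A := by
  classical
  have hfin : Finite (H ⧸ Subgroup.zpowers c) := Subgroup.finite_quotient_of_finiteIndex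
  -- representatives of the right cosets
  let T : Set H := Set.range (fun q : H ⧸ Subgroup.zpowers c => (Quotient.out q)⁻¹)
  have hT : T.Finite := Set.finite_range _
  have hrep : ∀ h : H, ∃ x ∈ T, ∃ n : ℤ, h = c ^ n * x := by
    intro h
    refine ⟨(Quotient.out (QuotientGroup.mk h⁻¹ : H ⧸ Subgroup.zpowers c))⁻¹, ⟨_, rfl⟩, ?_⟩
    have h1 : (QuotientGroup.mk (Quotient.out (QuotientGroup.mk h⁻¹ : H ⧸ Subgroup.zpowers c)) :
        H ⧸ Subgroup.zpowers c) = QuotientGroup.mk h⁻¹ := QuotientGroup.out_eq' _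
    rw [QuotientGroup.eq] at h1
    obtain ⟨n, hn⟩ := h1
    refine ⟨-n, ?_⟩
    have h2 : c ^ n = (Quotient.out (QuotientGroup.mk h⁻¹ : H ⧸ Subgroup.zpowers c))⁻¹ * h⁻¹ := hn
    rw [zpow_neg, h2]
    group
  let S₁ : Set P := φ '' (T \ Subgroup.zpowers c)
  let S₂ : Set P := (fun q : H × P => φ q.1 * q.2) '' (T ×ˢ S)
  have hmem : ∀ x : H, φ x ∈ Subgroup.zpowers (φ c) → x ∈ Subgroup.zpowers c := by
    rintro x ⟨n, hn⟩
    refine ⟨n, hφ ?_⟩
    show φ (c ^ n) = φ x
    rw [map_zpow]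
    exact hn
  obtain ⟨N, hN1, hN2, hN3⟩ := sep_finite hP (φ c) (S := S₁ ∪ S₂)
    (((hT.subset Set.sdiff_subset).image _).union ((hT.prod hS).image _)) (by
      rintro x (⟨y, ⟨_, hy⟩, rfl⟩ | ⟨⟨y, p⟩, ⟨_, hp⟩, rfl⟩)
      · exact fun h => hy (hmem y h)
      · rintro ⟨n, hn⟩
        apply hS' p hp
        have h1 : φ c ^ n = φ y * p := hn
        refine ⟨y⁻¹ * c ^ n, ?_⟩
        rw [map_mul, map_zpow, h1, map_inv]
        group)
  refine ⟨L.normalCore ⊓ N, inferInstance, inferInstance,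
    inf_le_left.trans L.normalCore_le, ?_, ?_⟩
  · intro h hh
    obtain ⟨x, hx, n, rfl⟩ := hrep h
    by_contra hcon
    have hx' : x ∉ Subgroup.zpowers c := fun h1 =>
      hcon ((Subgroup.zpowers c).mul_mem (Subgroup.zpow_mem _ (Subgroup.mem_zpowers c) n) h1)
    apply hN3 (φ x) (Or.inl ⟨x, ⟨hx, hx'⟩, rfl⟩) n
    have h1 := hh.2
    rw [map_mul, map_zpow] at h1
    exact h1
  · intro p hp h hh
    obtain ⟨x, hx, n, rfl⟩ := hrep h
    apply hN3 (φ x * p) (Or.inr ⟨(x, p), ⟨hx, hp⟩, rfl⟩) n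
    have h1 := hh.2
    rw [map_mul, map_zpow, mul_assoc] at h1
    exact h1

/-- Refining the trace on the cyclic subgroup. -/
lemma refine_trace {H : Type*} [Group H] (φ : H →* P) (c : H) (A : Subgroup P) [hA : A.Normal]
    (hAf : A.FiniteIndex) (f : P → ℤ) (hf : HomOn A f) (k m : ℤ) (hk : ∀ h, φ h ∈ A ↔ ∃ n : ℤ, h = c ^ (k * n))
    (hfk : f (φ (c ^ k)) ≠ 0) (hm : m ≠ 0) :
    ∃ A' : Subgroup P, A'.Normal ∧ A'.FiniteIndex ∧ A' ≤ A ∧
      ∀ h, φ h ∈ A' ↔ ∃ n : ℤ, h = c ^ (k * m * n) := by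
  have hckA : φ (c ^ k) ∈ A := (hk _).mpr ⟨1, by rw [mul_one]⟩
  -- the values on the conjugates
  let V : AddSubgroup ℤ := AddSubgroup.closure (Set.range fun g : P => f (g * φ (c ^ k) * g⁻¹))
  obtain ⟨d, hd⟩ := Int.subgroup_cyclic V
  have hdV : d ∈ V := by rw [hd]; exact AddSubgroup.subset_closure rfl
  have hdvd : ∀ g : P, d ∣ f (g * φ (c ^ k) * g⁻¹) := by
    intro g
    have h1 : f (g * φ (c ^ k) * g⁻¹) ∈ V := AddSubgroup.subset_closure ⟨g, rfl⟩
    rw [hd, AddSubgroup.mem_closure_singleton] at h1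
    obtain ⟨n, hn⟩ := h1
    exact ⟨n, by rw [← hn, zsmul_eq_mul, mul_comm]; rfl⟩
  have hd0 : d ≠ 0 := by
    rintro rfl
    apply hfk
    have h1 := hdvd 1
    rw [one_mul, inv_one, mul_one, zero_dvd_iff] at h1
    exact h1
  let M : ℤ := m * d
  have hM0 : M ≠ 0 := mul_ne_zero hm hd0
  let B : Subgroup P :=
    { carrier := {x | x ∈ A ∧ M ∣ f x}
      mul_mem' := fun {a b} ha hb => ⟨A.mul_mem ha.1 hb.1, by
        rw [hf a ha.1 b hb.1]; exact dvd_add ha.2 hb.2⟩
      one_mem' := ⟨A.one_mem, by rw [hf.one]; exact dvd_zero _⟩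
      inv_mem' := fun {a} ha => ⟨A.inv_mem ha.1, by
        rw [hf.inv ha.1]; exact (dvd_neg).mpr ha.2⟩ }
  have hB : B.FiniteIndex := by
    let θ : A →* Multiplicative (ZMod M.natAbs) :=
      { toFun := fun x => Multiplicative.ofAdd ((f x : ℤ) : ZMod M.natAbs)
        map_one' := by
          show Multiplicative.ofAdd ((f 1 : ℤ) : ZMod M.natAbs) = 1
          rw [hf.one]
          simp
        map_mul' := fun x y => by
          show Multiplicative.ofAdd ((f (x * y) : ℤ) : ZMod M.natAbs) = _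
          rw [hf x x.2 y y.2]
          push_cast
          rfl }
    have hne : NeZero M.natAbs := ⟨Int.natAbs_ne_zero.mpr hM0⟩
    have hfin : Finite (Multiplicative (ZMod M.natAbs)) := inferInstanceAs (Finite (ZMod M.natAbs))
    have h2 : (θ.ker).FiniteIndex := inferInstance
    have h3 : (θ.ker.map A.subtype).FiniteIndex := by
      constructor
      rw [Subgroup.index_map_subtype]
      exact mul_ne_zero h2.index_ne_zero hAf.index_ne_zero
    refine Subgroup.finiteIndex_of_le (H := θ.ker.map A.subtype) ?_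
    rintro _ ⟨x, hx, rfl⟩
    refine ⟨x.2, ?_⟩
    have h4 : ((f x : ℤ) : ZMod M.natAbs) = 0 := hx
    rw [ZMod.intCast_zmod_eq_zero_iff_dvd, Int.natAbs_dvd] at h4
    exact h4
  refine ⟨B.normalCore, inferInstance, inferInstance,
    fun x hx => (B.normalCore_le hx).1, fun h => ?_⟩
  have hval : ∀ (n : ℤ) (g : P), f (g * φ (c ^ (k * n)) * g⁻¹) = n * f (g * φ (c ^ k) * g⁻¹) := by
    intro n g
    rw [zpow_mul, map_zpow, ← conj_zpow, hf.zpow (hA.conj_mem _ hckA g)]
  constructor
  · intro hh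
    obtain ⟨n, rfl⟩ := (hk h).mp (B.normalCore_le hh).1
    have h1 : ∀ g : P, M ∣ n * f (g * φ (c ^ k) * g⁻¹) := by
      intro g
      rw [← hval]
      exact (B.normalCore_le ((inferInstance : B.normalCore.Normal).conj_mem _ hh g)).2
    have h2 : ∀ v ∈ V, M ∣ n * v := by
      intro v hv
      induction hv using AddSubgroup.closure_induction with
      | mem v hv =>
        obtain ⟨g, rfl⟩ := hv
        exact h1 g
      | zero => rw [mul_zero]; exact dvd_zero _
      | add a b _ _ ha hb => rw [mul_add]; exact dvd_add ha hb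
      | neg a _ ha => rw [mul_neg]; exact (dvd_neg).mpr ha
    have h3 : m * d ∣ n * d := h2 d hdV
    have h4 : m ∣ n := Int.dvd_of_mul_dvd_mul_right hd0 h3
    obtain ⟨q, rfl⟩ := h4
    exact ⟨q, by rw [mul_assoc]⟩
  · rintro ⟨n, rfl⟩
    intro g
    refine ⟨hA.conj_mem _ ((hk _).mpr ⟨m * n, by rw [mul_assoc]⟩) g, ?_⟩
    rw [mul_assoc k m n, hval]
    obtain ⟨q, hq⟩ := hdvd g
    rw [hq]
    exact ⟨n * q, by ring⟩

end Pool.Agent.R632.VRC
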