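import Pool.Agent.R632.VRC.Embed
import Pool.Agent.R632.VRC.Main

/-! Twisting: separating reduced words. -/

set_option linter.unusedSectionVars false
set_option linter.dupNamespace false

namespace Pool.Agent.R632.VRC

universe u

variable {ι : Type} [Fintype ι] [DecidableEq ι] [Nonempty ι] {G : ι → Type u} [∀ i, Group (G i)]
  {H : Type u} [Group H] {φ : ∀ i, H →* G i} {Γ : Type u} [Group Γ] {o : ∀ i, G i →* Γ}

/-- reduced words -/
def Red (φ : ∀ i, H →* G i) (L : List (Σ i, G i)) : Prop :=
  (∀ a ∈ L, a.2 ∉ (φ a.1).range) ∧ L.IsChain (fun a b => a.1 ≠ b.1)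

lemma Red.sub {L L' : List (Σ i, G i)} (h : Red φ L) (h' : L' <:+: L) : Red φ L' := by
  refine ⟨fun a ha => h.1 a (h'.subset ha), ?_⟩
  obtain ⟨s, t, rfl⟩ := h'
  exact (List.isChain_append.mp (List.isChain_append.mp h.2).1).2.1

/-- every element is in the amalgamated subgroup or given by a reduced word -/
lemma exists_red (hΓ : Amalg φ o) (i0 : ι) (x : Γ) :
    (∃ h, x = o i0 (φ i0 h)) ∨ ∃ L : List (Σ i, G i), L ≠ [] ∧ Red φ L ∧ x = ev o L := by
  obtain ⟨L, hL⟩ := hΓ.gen x
  have hx : x = ev o L := hL
  clear hL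
  subst hx
  induction L with
  | nil => exact Or.inl ⟨1, by rw [map_one, map_one, ev_nil]⟩
  | cons a L ih =>
    obtain ⟨i, g⟩ := a
    rw [ev_cons]
    have hcomp : ∀ h j, o i0 (φ i0 h) = o j (φ j h) := fun h j => hΓ.comp i0 j h
    -- multiplying a reduced word by an element of the subgroup
    have habs : ∀ (h : H) (L : List (Σ i, G i)), L ≠ [] → Red φ L →
        ∃ L' : List (Σ i, G i), L' ≠ [] ∧ Red φ L' ∧ L'.head?.map Sigma.fst = L.head?.map Sigma.fst ∧
          o i0 (φ i0 h) * ev o L = ev o L' := by
      intro h L hne hred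
      rcases L with _ | ⟨⟨j, g'⟩, t⟩
      · exact absurd rfl hne
      · refine ⟨⟨j, φ j h * g'⟩ :: t, List.cons_ne_nil _ _, ⟨?_, ?_⟩, rfl, ?_⟩
        · intro c hc
          rcases List.mem_cons.mp hc with rfl | hc
          · rintro ⟨h', hh'⟩
            apply hred.1 ⟨j, g'⟩ List.mem_cons_self
            refine ⟨h⁻¹ * h', ?_⟩
            show φ j (h⁻¹ * h') = g'
            rw [map_mul, hh', map_inv]
            simp only
            group
          · exact hred.1 c (List.mem_cons_of_mem _ hc)
        · rcases t with _ | ⟨b, t⟩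
          · exact List.isChain_singleton _
          · have h2 := hred.2
            rw [List.isChain_cons_cons] at h2 ⊢
            exact h2
        · rw [ev_cons, ev_cons, hcomp h j]
          simp only [map_mul, mul_assoc]
    rcases ih with ⟨h, hh⟩ | ⟨L', hne, hred, hev⟩
    · rw [hh]
      by_cases hg : g * φ i h ∈ (φ i).range
      · obtain ⟨h', hh'⟩ := hg
        refine Or.inl ⟨h', ?_⟩
        rw [hcomp h i, ← map_mul, ← hh', hcomp h' i]
      · refine Or.inr ⟨[⟨i, g * φ i h⟩], List.cons_ne_nil _ _, ⟨fun c hc => ?_,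
          List.isChain_singleton _⟩, ?_⟩
        · rw [List.mem_singleton] at hc
          subst hc
          exact hg
        · rw [ev_cons, ev_nil, mul_one, hcomp h i, ← map_mul]
    · rw [hev]
      rcases L' with _ | ⟨⟨j, g'⟩, t⟩
      · exact absurd rfl hne
      · by_cases hij : i = j
        · subst hij
          rw [ev_cons, ← mul_assoc, ← map_mul]
          have htred : Red φ t := hred.sub (List.suffix_cons _ _).isInfix
          by_cases hg : g * g' ∈ (φ i).range
          · obtain ⟨h', hh'⟩ := hg
            rw [← hh', ← hcomp h' i]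
            rcases t with _ | ⟨c, t⟩
            · exact Or.inl ⟨h', by rw [ev_nil, mul_one]⟩
            · obtain ⟨L'', h1, h2, _, h3⟩ := habs h' (c :: t) (List.cons_ne_nil _ _) htred
              exact Or.inr ⟨L'', h1, h2, h3⟩
          · refine Or.inr ⟨⟨i, g * g'⟩ :: t, List.cons_ne_nil _ _, ⟨?_, ?_⟩, by rw [ev_cons]⟩
            · intro c hc
              rcases List.mem_cons.mp hc with rfl | hc
              · exact hg
              · exact htred.1 c hc
            · rcases t with _ | ⟨b, t⟩
              · exact List.isChain_singleton _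
              · have h2 := hred.2
                rw [List.isChain_cons_cons] at h2 ⊢
                exact h2
        · by_cases hg : g ∈ (φ i).range
          · obtain ⟨h', hh'⟩ := hg
            rw [← hh', ← hcomp h' i]
            obtain ⟨L'', h1, h2, _, h3⟩ := habs h' (⟨j, g'⟩ :: t) (List.cons_ne_nil _ _) hred
            exact Or.inr ⟨L'', h1, h2, h3⟩
          · refine Or.inr ⟨⟨i, g⟩ :: ⟨j, g'⟩ :: t, List.cons_ne_nil _ _, ⟨?_, ?_⟩,
              (ev_cons (o := o) ⟨i, g⟩ (⟨j, g'⟩ :: t)).symm⟩
            · intro c hc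
              rcases List.mem_cons.mp hc with rfl | hc
              · exact hg
              · exact hred.1 c hc
            · rw [List.isChain_cons_cons]
              exact ⟨hij, hred.2⟩

section tw

variable {B : Type u} [Group B] (Hs : Subgroup B)

/-- the action on the index set -/
def ac (b : B) : Equiv.Perm (ι × (B ⧸ Hs)) where
  toFun y := (y.1, b • y.2)
  invFun y := (y.1, b⁻¹ • y.2)
  left_inv y := Prod.ext rfl (inv_smul_smul b y.2)
  right_inv y := Prod.ext rfl (smul_inv_smul b y.2)

/-- the restricted wreath product -/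
def Tw : Subgroup (WrG (Multiplicative ℤ) (ι × (B ⧸ Hs)) × B) where
  carrier := {w | (∀ y, w.1.s y = ac Hs w.2 y) ∧ {y | w.1.t y ≠ 1}.Finite}
  mul_mem' := by
    rintro x y ⟨h1, h2⟩ ⟨h3, h4⟩
    refine ⟨fun z => ?_, ?_⟩
    · show x.1.s (y.1.s z) = _
      rw [h3, h1]
      exact Prod.ext rfl (mul_smul _ _ _).symm
    · refine ((h2.preimage (f := y.1.s) y.1.s.injective.injOn).union h4).subset ?_
      intro z hz
      by_contra hcon
      rw [Set.mem_union, not_or] at hcon
      obtain ⟨h5, h6⟩ := hcon
      apply hz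
      show x.1.t (y.1.s z) * y.1.t z = 1
      have h5' : x.1.t (y.1.s z) = 1 := by
        by_contra h
        exact h5 h
      have h6' : y.1.t z = 1 := by
        by_contra h
        exact h6 h
      rw [h5', h6', one_mul]
  one_mem' := by
    refine ⟨fun z => Prod.ext rfl (one_smul _ _).symm, ?_⟩
    have : {y : ι × (B ⧸ Hs) | (1 : WrG (Multiplicative ℤ) (ι × (B ⧸ Hs)) × B).1.t y ≠ 1} = ∅ := by
      ext y
      simp only [Set.mem_ofPred_eq, Set.mem_empty_iff_false, iff_false, not_not]
      rfl
    rw [this]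
    exact Set.finite_empty
  inv_mem' := by
    rintro x ⟨h1, h2⟩
    have h3 : ∀ z, x.1.s⁻¹ z = ac Hs x.2⁻¹ z := by
      intro z
      rw [Equiv.Perm.inv_eq_iff_eq, h1]
      exact Prod.ext rfl (smul_inv_smul _ _).symm
    refine ⟨h3, ?_⟩
    refine (h2.preimage (f := fun z => x.1.s⁻¹ z) (x.1.s⁻¹).injective.injOn).subset ?_
    intro z hz h4
    apply hz
    show (x.1.t (x.1.s⁻¹ z))⁻¹ = 1
    rw [h4, inv_one]

lemma Tw.fol (hB : Fol B) : Fol (Tw (ι := ι) Hs) := by
  let π : Tw (ι := ι) Hs →* B := (MonoidHom.snd _ _).comp (Tw (ι := ι) Hs).subtype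
  refine Fol.extn π hB ?_
  have hs : ∀ w : π.ker, w.1.1.1.s = 1 := by
    intro w
    have h1 : w.1.1.2 = 1 := w.2
    apply Equiv.ext
    intro y
    rw [w.1.2.1 y, h1]
    exact Prod.ext rfl (one_smul _ _)
  let j : π.ker →* ((ι × (B ⧸ Hs)) → Multiplicative ℤ) :=
    { toFun := fun w => w.1.1.1.t
      map_one' := rfl
      map_mul' := fun x y => by
        funext k
        show x.1.1.1.t (y.1.1.1.s k) * y.1.1.1.t k = _
        rw [hs y]
        rfl }
  refine Fol.finsupp (C := fun _ => Multiplicative ℤ) (fun _ => Fol.int) j ?_ ?_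
  · intro x y h
    have h1 : x.1.1.2 = 1 := x.2
    have h2 : y.1.1.2 = 1 := y.2
    exact Subtype.ext (Subtype.ext (Prod.ext (WrG.ext ((hs x).trans (hs y).symm) h)
      (h1.trans h2.symm)))
  · intro w
    exact w.1.2.2

end tw

/-- Separation of reduced words of bounded length. -/
theorem separate (hΓ : Amalg φ o) (i0 : ι) {B : Type u} [Group B] (ψ : Γ →* B) (hB : Fol B) (hψ : ∀ i, Function.Injective (fun g => ψ (o i g)))
    (n : ℕ) : ∃ (B : Type u) (_ : Group B) (ψ : Γ →* B), Fol B ∧
      (∀ i, Function.Injective (fun g => ψ (o i g))) ∧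
      ∀ L : List (Σ i, G i), L ≠ [] → L.length ≤ n → Red φ L → ∀ h,
        ψ (ev o L) ≠ ψ (o i0 (φ i0 h)) := by
  classical
  induction n with
  | zero =>
    refine ⟨B, _, ψ, hB, hψ, fun L hne hlen => ?_⟩
    exact absurd (List.length_eq_zero_iff.mp (by omega)) hne
  | succ n ih =>
    obtain ⟨B, _, ψ, hB, hψ, hsep⟩ := ih
    let Hs : Subgroup B := (ψ.comp ((o i0).comp (φ i0))).range
    let u : ι → WrG (Multiplicative ℤ) (ι × (B ⧸ Hs)) := fun i =>
      ⟨1, fun y => if y = (i, QuotientGroup.mk 1) then Multiplicative.ofAdd 1 else 1⟩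
    let β : B →* WrG (Multiplicative ℤ) (ι × (B ⧸ Hs)) × B :=
      { toFun := fun b => (⟨ac Hs b, fun _ => 1⟩, b)
        map_one' := by
          refine Prod.ext (WrG.ext ?_ rfl) rfl
          apply Equiv.ext
          intro y
          exact Prod.ext rfl (one_smul _ _)
        map_mul' := fun a b => by
          refine Prod.ext (WrG.ext ?_ ?_) rfl
          · apply Equiv.ext
            intro y
            exact Prod.ext rfl (mul_smul _ _ _)
          · funext y
            exact (mul_one (1 : Multiplicative ℤ)).symm }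
    let ρ₀ : ∀ i, G i →* WrG (Multiplicative ℤ) (ι × (B ⧸ Hs)) × B := fun i =>
      (MulAut.conj (u i, (1 : B))).toMonoidHom.comp (β.comp (ψ.comp (o i)))
    have hρ₀ : ∀ i g, ρ₀ i g = (u i, 1) * β (ψ (o i g)) * (u i, 1)⁻¹ := fun _ _ => rfl
    have hmem : ∀ i g, ρ₀ i g ∈ Tw (ι := ι) Hs := by
      intro i g
      have hb : β (ψ (o i g)) ∈ Tw (ι := ι) Hs := by
        refine ⟨fun y => rfl, ?_⟩
        have : {y : ι × (B ⧸ Hs) | (β (ψ (o i g))).1.t y ≠ 1} = ∅ := by
          ext y
          simp only [Set.mem_ofPred_eq, Set.mem_empty_iff_false, iff_false, not_not]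
          rfl
        rw [this]
        exact Set.finite_empty
      have hu : ((u i, 1) : WrG (Multiplicative ℤ) (ι × (B ⧸ Hs)) × B) ∈ Tw (ι := ι) Hs := by
        refine ⟨fun y => Prod.ext rfl (one_smul _ _).symm, ?_⟩
        refine (Set.finite_singleton ((i, QuotientGroup.mk 1) : ι × (B ⧸ Hs))).subset ?_
        intro y hy
        by_contra h
        exact hy (if_neg h)
      rw [hρ₀]
      exact Subgroup.mul_mem _ (Subgroup.mul_mem _ hu hb) (Subgroup.inv_mem _ hu)
    let ρ : ∀ i, G i →* Tw (ι := ι) Hs := fun i => (ρ₀ i).codRestrict _ (hmem i)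
    have hρt : ∀ i g y, (ρ i g).1.1.t y =
        (u i).t (ac Hs (ψ (o i g)) y) * ((u i).t y)⁻¹ := by
      intro i g y
      show ((u i * (β (ψ (o i g))).1) * (u i)⁻¹).t y = _
      show (u i).t (ac Hs (ψ (o i g)) y) * 1 * ((u i).t y)⁻¹ = _
      rw [mul_one]
    have hρb : ∀ i g, (ρ i g).1.2 = ψ (o i g) := by
      intro i g
      show 1 * ψ (o i g) * 1⁻¹ = _
      rw [one_mul, inv_one, mul_one]
    have hρs : ∀ i g y, (ρ i g).1.1.s y = ac Hs (ψ (o i g)) y := by
      intro i g y
      rw [(ρ i g).2.1, hρb]
    have hfixH : ∀ h : H, ∀ b : B, b = ψ (o i0 (φ i0 h)) → ∀ x : B ⧸ Hs,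
        b • x = QuotientGroup.mk 1 ↔ x = QuotientGroup.mk 1 := by
      rintro h b rfl x
      have h0 : ψ (o i0 (φ i0 h)) • (QuotientGroup.mk 1 : B ⧸ Hs) = QuotientGroup.mk 1 := by
        show (QuotientGroup.mk (ψ (o i0 (φ i0 h)) * 1) : B ⧸ Hs) = _
        rw [mul_one]
        symm
        rw [QuotientGroup.eq, inv_one, one_mul]
        exact ⟨h, rfl⟩
      constructor
      · intro hx
        rw [← h0] at hx
        exact smul_left_cancel _ hx
      · rintro rfl
        exact h0
    have hut : ∀ i (b : B) y, (∀ x : B ⧸ Hs, b • x = QuotientGroup.mk 1 ↔ x = QuotientGroup.mk 1) →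
        (u i).t (ac Hs b y) = (u i).t y := by
      intro i b y hb
      show (if ac Hs b y = (i, QuotientGroup.mk 1) then Multiplicative.ofAdd 1 else 1) =
        if y = (i, QuotientGroup.mk 1) then Multiplicative.ofAdd 1 else 1
      have h1 : ac Hs b y = (i, QuotientGroup.mk 1) ↔ y = (i, QuotientGroup.mk 1) := by
        constructor
        · intro h
          have h2 : y.1 = i := congrArg Prod.fst h
          have h3 : b • y.2 = QuotientGroup.mk 1 := congrArg Prod.snd h
          exact Prod.ext h2 ((hb _).mp h3)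
        · rintro rfl
          exact Prod.ext rfl ((hb _).mpr rfl)
      by_cases h2 : y = (i, QuotientGroup.mk 1)
      · rw [if_pos (h1.mpr h2), if_pos h2]
      · rw [if_neg (fun h => h2 (h1.mp h)), if_neg h2]
    have hHval : ∀ i h, (ρ i (φ i h)).1.1.t = fun _ => 1 := by
      intro i h
      funext y
      rw [hρt, hut i _ y (hfixH h _ (by rw [hΓ.comp i i0])), mul_inv_cancel]
    obtain ⟨ψ', hψ'⟩ := hΓ.lift (Tw (ι := ι) Hs) ρ (by
      intro i j h
      apply Subtype.ext
      refine Prod.ext (WrG.ext ?_ ?_) ?_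
      · apply Equiv.ext
        intro y
        rw [hρs, hρs, hΓ.comp i j]
      · rw [hHval, hHval]
      · rw [hρb, hρb, hΓ.comp i j])
    have hψb : ∀ x, (ψ' x).1.2 = ψ x := by
      intro x
      obtain ⟨L, rfl⟩ := hΓ.gen x
      induction L with
      | nil =>
        rw [List.map_nil, List.prod_nil, map_one, map_one]
        rfl
      | cons a L ih =>
        rw [List.map_cons, List.prod_cons, map_mul, map_mul]
        show (ψ' (o a.1 a.2)).1.2 * (ψ' _).1.2 = _
        rw [ih, hψ', hρb]
    refine ⟨Tw (ι := ι) Hs, inferInstance, ψ', Tw.fol Hs hB, fun i a b hab => ?_,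
      fun L hne hlen hred h heq => ?_⟩
    · apply hψ i
      show ψ (o i a) = ψ (o i b)
      have hab' : ψ' (o i a) = ψ' (o i b) := hab
      rw [← hψb, ← hψb, hab']
    · have heqb : ψ (ev o L) = ψ (o i0 (φ i0 h)) := by rw [← hψb, ← hψb, heq]
      by_cases hlen' : L.length ≤ n
      · exact hsep L hne hlen' hred h heqb
      · rcases L with _ | ⟨a, _ | ⟨b, t⟩⟩
        · exact hne rfl
        · rw [ev_cons, ev_nil, mul_one, hΓ.comp i0 a.1] at heqb
          exact hred.1 a List.mem_cons_self ⟨h, (hψ a.1 heqb).symm⟩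
        · -- the main case
          have hlen2 : (b :: t).length = n := by
            have : (a :: b :: t).length = (b :: t).length + 1 := rfl
            omega
          have hsub : ∀ L' : List (Σ i, G i), L' ≠ [] → L' <:+: (a :: b :: t) → L'.length ≤ n →
              ψ (ev o L') ∉ Hs := by
            rintro L' hne' hinf hl' ⟨h', hh'⟩
            exact hsep L' hne' hl' (hred.sub hinf) h' hh'.symm
          let x : B ⧸ Hs := (ψ (ev o (b :: t)))⁻¹ • QuotientGroup.mk 1
          have hval : ∀ (c : Σ i, G i) (t' : List (Σ i, G i)) y,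
              (ψ' (ev o (c :: t'))).1.1.t y =
                (ρ c.1 c.2).1.1.t (ac Hs (ψ (ev o t')) y) * (ψ' (ev o t')).1.1.t y := by
            intro c t' y
            rw [ev_cons, map_mul, hψ']
            show (ρ c.1 c.2).1.1.t ((ψ' (ev o t')).1.1.s y) * _ = _
            rw [(ψ' (ev o t')).2.1, hψb]
          have hut0 : ∀ i (y : ι × (B ⧸ Hs)), (y.1 ≠ i ∨ y.2 ≠ QuotientGroup.mk 1) →
              (u i).t y = 1 := by
            intro i y hy
            refine if_neg (fun h => ?_)
            rcases hy with hy | hy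
            · exact hy (congrArg Prod.fst h)
            · exact hy (congrArg Prod.snd h)
          -- the tail does not contribute
          have htail : ∀ t' : List (Σ i, G i), (∀ s, s <:+ t' → ψ (ev o s) • x ≠
              QuotientGroup.mk 1) → (ψ' (ev o t')).1.1.t (a.1, x) = 1 := by
            intro t'
            induction t' with
            | nil =>
              intro _
              rw [ev_nil, map_one]
              rfl
            | cons c t' ih =>
              intro hs
              rw [hval, ih (fun s hs' => hs s (hs'.trans (List.suffix_cons _ _))), hρt, mul_one]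
              rw [hut0 c.1 (ac Hs (ψ (ev o t')) (a.1, x)) (Or.inr (hs t' (List.suffix_cons _ _))),
                inv_one, mul_one]
              refine hut0 c.1 _ (Or.inr ?_)
              show ψ (o c.1 c.2) • (ψ (ev o t') • x) ≠ _
              rw [← mul_smul, ← map_mul, ← ev_cons]
              exact hs _ (List.suffix_refl _)
          have hbt : ψ (ev o (b :: t)) • x = QuotientGroup.mk 1 := smul_inv_smul _ _
          have hts : ∀ s, s <:+ t → ψ (ev o s) • x ≠ QuotientGroup.mk 1 := by
            rintro s ⟨p, hp⟩ hcon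
            have h1 : ψ (ev o (b :: p)) * ψ (ev o s) = ψ (ev o (b :: t)) := by
              rw [← map_mul, ← ev_append, List.cons_append, hp]
            have h2 : ψ (ev o (b :: p)) • (QuotientGroup.mk 1 : B ⧸ Hs) = QuotientGroup.mk 1 := by
              rw [← hcon, ← mul_smul, h1, hbt, hcon]
            have h3 : ψ (ev o (b :: p)) ∈ Hs := by
              have h4 : (QuotientGroup.mk (ψ (ev o (b :: p)) * 1) : B ⧸ Hs) =
                QuotientGroup.mk 1 := h2
              rw [mul_one] at h4
              have h5 := QuotientGroup.eq.mp h4.symm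
              rwa [inv_one, one_mul] at h5
            refine hsub (b :: p) (List.cons_ne_nil _ _) ?_ ?_ h3
            · refine ⟨[a], s, ?_⟩
              rw [← hp]
              simp
            · rw [← hlen2, ← hp]
              simp
          have hb1 : a.1 ≠ b.1 := (List.isChain_cons_cons.mp hred.2).1
          have hfin : (ψ' (ev o (a :: b :: t))).1.1.t (a.1, x) = Multiplicative.ofAdd (-1) := by
            rw [hval, hval, htail t hts, mul_one, hρt, hρt]
            rw [hut0 b.1 (ac Hs (ψ (ev o t)) (a.1, x)) (Or.inl hb1), inv_one, mul_one,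
              hut0 b.1 (ac Hs (ψ (o b.1 b.2)) (ac Hs (ψ (ev o t)) (a.1, x))) (Or.inl hb1), mul_one]
            have h1 : ac Hs (ψ (ev o (b :: t))) (a.1, x) = (a.1, QuotientGroup.mk 1) :=
              Prod.ext rfl hbt
            rw [h1]
            have h2 : (u a.1).t (a.1, QuotientGroup.mk 1) = Multiplicative.ofAdd 1 := if_pos rfl
            have h3 : (u a.1).t (ac Hs (ψ (o a.1 a.2)) (a.1, QuotientGroup.mk 1)) = 1 := by
              refine hut0 a.1 _ (Or.inr ?_)
              intro h4
              have h5 : (QuotientGroup.mk (ψ (o a.1 a.2) * 1) : B ⧸ Hs) =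
                QuotientGroup.mk 1 := h4
              rw [mul_one] at h5
              have h6 := QuotientGroup.eq.mp h5.symm
              rw [inv_one, one_mul] at h6
              apply hsub [a] (List.cons_ne_nil _ _) ⟨[], b :: t, rfl⟩ (by
                rw [← hlen2]
                simp)
              rw [ev_cons, ev_nil, mul_one]
              exact h6
            rw [h2, h3, one_mul]
            rfl
          have hH1 : (ψ' (o i0 (φ i0 h))).1.1.t (a.1, x) = 1 := by
            rw [hψ', hHval]
          rw [heq, hH1] at hfin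
          have h9 : (0 : ℤ) = -1 := hfin
          omega

end Pool.Agent.R632.VRC
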