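import Pool.Agent.R632.VRC.Two
import Pool.Agent.R632.VRC.Fib3

/-! Amalgams of two groups as quotients of the free product. -/

set_option linter.unusedSectionVars false
set_option linter.dupNamespace false

namespace Pool.Agent.R632.VRC

universe u

variable {P Q H : Type u} [Group P] [Group Q] [Group H]

theorem coprod_amalg (a : H →* P) (b : H →* Q) {Γ : Type u} [Group Γ]
    (π : Monoid.Coprod P Q →* Γ) (hπ : Function.Surjective π)
    (hker : π.ker = Subgroup.normalClosure (Set.range fun h : H =>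
      (Monoid.Coprod.inl (a h) : Monoid.Coprod P Q) * (Monoid.Coprod.inr (b h))⁻¹)) :
    Amalg (famHom a b) (famOut (π.comp Monoid.Coprod.inl) (π.comp Monoid.Coprod.inr)) := by
  have hij : ∀ h, π (Monoid.Coprod.inl (a h)) = π (Monoid.Coprod.inr (b h)) := by
    intro h
    rw [← mul_inv_eq_one, ← map_inv, ← map_mul]
    show (Monoid.Coprod.inl (a h) : Monoid.Coprod P Q) * (Monoid.Coprod.inr (b h))⁻¹ ∈ π.ker
    rw [hker]
    exact Subgroup.subset_normalClosure ⟨h, rfl⟩
  constructor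
  · intro k l h
    rcases k with _ | _ <;> rcases l with _ | _
    · rfl
    · exact (hij h).symm
    · exact hij h
    · rfl
  · intro W _ ρ hρ
    let f : P →* W := ρ true
    let g : Q →* W := ρ false
    have hfg : ∀ h, f (a h) = g (b h) := fun h => hρ true false h
    have h1 : π.ker ≤ (Monoid.Coprod.lift f g).ker := by
      rw [hker]
      refine Subgroup.normalClosure_le_normal ?_
      rintro _ ⟨r, rfl⟩
      show Monoid.Coprod.lift f g (Monoid.Coprod.inl (a r) *
        (Monoid.Coprod.inr (b r))⁻¹) = 1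
      rw [map_mul, map_inv, Monoid.Coprod.lift_apply_inl, Monoid.Coprod.lift_apply_inr,
        mul_inv_eq_one]
      exact hfg r
    let F : Γ →* W := (π.liftOfRightInverse (Function.surjInv hπ)
      (Function.rightInverse_surjInv hπ)) ⟨Monoid.Coprod.lift f g, h1⟩
    have hF : ∀ x, F (π x) = Monoid.Coprod.lift f g x := fun x =>
      π.liftOfRightInverse_comp_apply (Function.surjInv hπ)
        (Function.rightInverse_surjInv hπ) ⟨Monoid.Coprod.lift f g, h1⟩ x
    refine ⟨F, ?_⟩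
    rintro (_ | _) x
    · show F (π (Monoid.Coprod.inr x)) = _
      rw [hF]
      exact Monoid.Coprod.lift_apply_inr ..
    · show F (π (Monoid.Coprod.inl x)) = _
      rw [hF]
      exact Monoid.Coprod.lift_apply_inl ..
  · intro x
    let K : Subgroup Γ :=
      { carrier := {x | ∃ L : List (Σ k, Fam P Q k),
          x = (L.map (fun p => famOut (π.comp Monoid.Coprod.inl)
            (π.comp Monoid.Coprod.inr) p.1 p.2)).prod}
        mul_mem' := by
          rintro x y ⟨L, rfl⟩ ⟨L', rfl⟩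
          exact ⟨L ++ L', by rw [List.map_append, List.prod_append]⟩
        one_mem' := ⟨[], rfl⟩
        inv_mem' := by
          rintro x ⟨L, rfl⟩
          induction L with
          | nil => exact ⟨[], by simp⟩
          | cons p L ih =>
            obtain ⟨L', hL'⟩ := ih
            refine ⟨L' ++ [⟨p.1, p.2⁻¹⟩], ?_⟩
            rw [List.map_append, List.prod_append, ← hL', List.map_cons, List.prod_cons,
              mul_inv_rev, List.map_cons, List.map_nil, List.prod_singleton]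
            simp only [map_inv] }
    obtain ⟨y, rfl⟩ := hπ x
    show π y ∈ K
    induction y using Monoid.Coprod.induction_on with
    | inl p => exact ⟨[⟨true, p⟩], by
        rw [List.map_cons, List.map_nil, List.prod_singleton]
        rfl⟩
    | inr q => exact ⟨[⟨false, q⟩], by
        rw [List.map_cons, List.map_nil, List.prod_singleton]
        rfl⟩
    | mul x y hx hy =>
      rw [map_mul]
      exact K.mul_mem hx hy

lemma of_fibered {P : Type u} [Group P] (K : Subgroup P) (φ : K →* Multiplicative ℤ) (hφ : φ ≠ 1)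
    (hfg : φ.ker.FG) : ∃ (θ : P → ℤ) (hθ : HomOn K θ), (∃ x ∈ K, θ x ≠ 0) ∧
      (kerOn K θ hθ).FG := by
  classical
  let θ : P → ℤ := fun x => if hx : x ∈ K then (φ ⟨x, hx⟩).toAdd else 0
  have hθ' : ∀ x : K, θ x = (φ x).toAdd := fun x => dif_pos x.2
  have hθ : HomOn K θ := by
    intro a ha b hb
    rw [show θ (a * b) = (φ (⟨a, ha⟩ * ⟨b, hb⟩)).toAdd from hθ' (⟨a, ha⟩ * ⟨b, hb⟩),
      show θ a = (φ ⟨a, ha⟩).toAdd from hθ' ⟨a, ha⟩,
      show θ b = (φ ⟨b, hb⟩).toAdd from hθ' ⟨b, hb⟩, map_mul, toAdd_mul]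
  refine ⟨θ, hθ, ?_, ?_⟩
  · by_contra h
    push Not at h
    apply hφ
    ext x
    have := h x x.2
    rw [hθ'] at this
    show (φ x).toAdd = 0
    exact this
  · have h1 : kerOn K θ hθ = φ.ker.map K.subtype := by
      ext x
      constructor
      · rintro ⟨h1, h2⟩
        refine ⟨⟨x, h1⟩, ?_, rfl⟩
        have h3 := hθ' ⟨x, h1⟩
        have h4 : (φ ⟨x, h1⟩).toAdd = 0 := by rw [← h3]; exact h2
        exact h4
      · rintro ⟨y, hy, rfl⟩
        refine ⟨y.2, ?_⟩
        show θ y = 0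
        rw [hθ']
        have h4 : φ y = 1 := hy
        rw [h4]
        rfl
    rw [h1]
    exact fg_map _ hfg

lemma to_fibered {P : Type u} [Group P] (K : Subgroup P) (θ : P → ℤ) (hθ : HomOn K θ)
    (h0 : ∃ x ∈ K, θ x ≠ 0) (hfg : (kerOn K θ hθ).FG) :
    ∃ φ : K →* Multiplicative ℤ, φ ≠ 1 ∧ φ.ker.FG := by
  let φ : K →* Multiplicative ℤ := MonoidHom.mk' (fun x => Multiplicative.ofAdd (θ x))
    (fun a b => by
      show Multiplicative.ofAdd (θ (a * b)) = _
      rw [hθ a a.2 b b.2]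
      rfl)
  refine ⟨φ, ?_, ?_⟩
  · obtain ⟨x, hx, hx0⟩ := h0
    intro h
    apply hx0
    have h1 : φ ⟨x, hx⟩ = 1 := by rw [h]; rfl
    exact h1
  · apply fg_of_map K.subtype K.subtype_injective
    have h1 : φ.ker.map K.subtype = kerOn K θ hθ := by
      ext x
      constructor
      · rintro ⟨y, hy, rfl⟩
        exact ⟨y.2, hy⟩
      · rintro ⟨h1, h2⟩
        exact ⟨⟨x, h1⟩, h2, rfl⟩
    rw [h1]
    exact hfg

/-- Amalgams of two virtually fibered groups. -/
theorem two_fibered (a : H →* P) (b : H →* Q) {Γ : Type u} [Group Γ]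
    (π : Monoid.Coprod P Q →* Γ) (hπ : Function.Surjective π)
    (hker : π.ker = Subgroup.normalClosure (Set.range fun h : H =>
      (Monoid.Coprod.inl (a h) : Monoid.Coprod P Q) * (Monoid.Coprod.inr (b h))⁻¹))
    (c : H) (hinf : ∀ n : ℤ, c ^ n = 1 → n = 0) (hc : (Subgroup.zpowers c).FiniteIndex)
    (K₁ : Subgroup P) (hK₁ : K₁.FiniteIndex) (haK : ∀ h, a h ∈ K₁) (r₁ : K₁ →* H)
    (hr₁ : ∀ h, r₁ ⟨a h, haK h⟩ = h)
    (K₂ : Subgroup Q) (hK₂ : K₂.FiniteIndex) (hbK : ∀ h, b h ∈ K₂) (r₂ : K₂ →* H)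
    (hr₂ : ∀ h, r₂ ⟨b h, hbK h⟩ = h)
    (L₁ : Subgroup P) (hL₁ : L₁.FiniteIndex) (φ₁ : L₁ →* Multiplicative ℤ) (hφ₁ : φ₁ ≠ 1)
    (hfg₁ : φ₁.ker.FG)
    (L₂ : Subgroup Q) (hL₂ : L₂.FiniteIndex) (φ₂ : L₂ →* Multiplicative ℤ) (hφ₂ : φ₂ ≠ 1)
    (hfg₂ : φ₂.ker.FG) :
    ∃ Γ1 : Subgroup Γ, Γ1.FiniteIndex ∧ ∃ φ : Γ1 →* Multiplicative ℤ, φ ≠ 1 ∧ φ.ker.FG := by
  obtain ⟨θ₁, hθ₁, h01, hk1⟩ := of_fibered L₁ φ₁ hφ₁ hfg₁
  obtain ⟨θ₂, hθ₂, h02, hk2⟩ := of_fibered L₂ φ₂ hφ₂ hfg₂
  let K : ∀ i, Subgroup (Fam P Q i) := fun i => match i with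
    | true => K₁
    | false => K₂
  let L : ∀ i, Subgroup (Fam P Q i) := fun i => match i with
    | true => L₁
    | false => L₂
  have hφK : ∀ i h, famHom a b i h ∈ K i := by
    rintro (_ | _) h
    · exact hbK h
    · exact haK h
  let r : ∀ i, K i →* H := fun i => match i with
    | true => r₁
    | false => r₂
  let θ : ∀ i, Fam P Q i → ℤ := fun i => match i with
    | true => θ₁
    | false => θ₂
  have hθ : ∀ i, HomOn (L i) (θ i) := by
    rintro (_ | _)
    · exact hθ₂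
    · exact hθ₁
  obtain ⟨Γ1, F, hF, h1, h2, h3⟩ := fibered_amalgam (coprod_amalg a b π hπ hker) c hinf hc K (by
      rintro (_ | _)
      · exact hK₂
      · exact hK₁) hφK r (by
      rintro (_ | _) h
      · exact hr₂ h
      · exact hr₁ h) L (by
      rintro (_ | _)
      · exact hL₂
      · exact hL₁) θ hθ (by
      rintro (_ | _)
      · exact h02
      · exact h01) (by
      rintro (_ | _)
      · exact hk2
      · exact hk1)
  exact ⟨Γ1, h1, to_fibered Γ1 F hF h2 h3⟩

end Pool.Agent.R632.VRC
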