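import Pool.Agent.R632.VRC.Two2
import Pool.Agent.R632.VRC.Ra
import Pool.Agent.R632.VRC.Amen

/-! Residual amenability of amalgams of two groups. -/

set_option linter.unusedSectionVars false
set_option linter.dupNamespace false

namespace Pool.Agent.R632.VRC

universe u

variable {P Q H : Type u} [Group P] [Group Q] [Group H]

/-- Amalgams of two residually amenable groups. -/
theorem two_ra (a : H →* P) (b : H →* Q) {Γ : Type u} [Group Γ]
    (π : Monoid.Coprod P Q →* Γ) (hπ : Function.Surjective π)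
    (hker : π.ker = Subgroup.normalClosure (Set.range fun h : H =>
      (Monoid.Coprod.inl (a h) : Monoid.Coprod P Q) * (Monoid.Coprod.inr (b h))⁻¹))
    (hP : RA P) (hQ : RA Q) (c : H) (hc : (Subgroup.zpowers c).FiniteIndex)
    (K₁ : Subgroup P) (hK₁ : K₁.FiniteIndex) (haK : ∀ h, a h ∈ K₁) (r₁ : K₁ →* H)
    (hr₁ : ∀ h, r₁ ⟨a h, haK h⟩ = h)
    (K₂ : Subgroup Q) (hK₂ : K₂.FiniteIndex) (hbK : ∀ h, b h ∈ K₂) (r₂ : K₂ →* H)
    (hr₂ : ∀ h, r₂ ⟨b h, hbK h⟩ = h) : RA Γ := by
  let K : ∀ i, Subgroup (Fam P Q i) := fun i => match i with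
    | true => K₁
    | false => K₂
  have hφK : ∀ i h, famHom a b i h ∈ K i := by
    rintro (_ | _) h
    · exact hbK h
    · exact haK h
  let r : ∀ i, K i →* H := fun i => match i with
    | true => r₁
    | false => r₂
  exact ra_amalgam (coprod_amalg a b π hπ hker) (by
      rintro (_ | _)
      · exact hQ
      · exact hP) c hc K (by
      rintro (_ | _)
      · exact hK₂
      · exact hK₁) hφK r (by
      rintro (_ | _) h
      · exact hr₂ h
      · exact hr₁ h)

end Pool.Agent.R632.VRC
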